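import Mathlib

/-!
# A combinatorial vanishing lemma for functions on subsets
-/

open Finset

namespace Pool.Agent.W628

variable {X : Type} [DecidableEq X] {A : Type*} [AddCommGroup A]

/-- The Möbius transform of a function on finite sets. -/
def mob (T : Finset X → A) (Z : Finset X) : A :=
  ∑ Y ∈ Z.powerset, ((-1 : ℤ) ^ (Z.card + Y.card)) • T Y

lemma mob_inversion (T : Finset X → A) (U : Finset X) :
    T U = ∑ Z ∈ U.powerset, mob T Z := by
  classical
  induction U using Finset.induction_on generalizing T with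
  | empty => simp [mob]
  | insert x U hx ih =>
    have h1 : ∀ Z ∈ U.powerset, mob T (insert x Z) =
        mob (fun Y => T (insert x Y) - T Y) Z := by
      intro Z hZ
      have hxZ : x ∉ Z := fun h => hx (Finset.mem_powerset.1 hZ h)
      rw [mob, Finset.sum_powerset_insert hxZ, mob, ← Finset.sum_add_distrib]
      refine Finset.sum_congr rfl fun Y hY => ?_
      have hxY : x ∉ Y := fun h => hxZ (Finset.mem_powerset.1 hY h)
      rw [Finset.card_insert_of_notMem hxZ, Finset.card_insert_of_notMem hxY]
      have e1 : (-1 : ℤ) ^ (Z.card + 1 + Y.card) = - (-1 : ℤ) ^ (Z.card + Y.card) := by ring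
      have e2 : (-1 : ℤ) ^ (Z.card + 1 + (Y.card + 1)) = (-1 : ℤ) ^ (Z.card + Y.card) := by ring
      rw [e1, e2, smul_sub, neg_smul]
      abel
    rw [Finset.sum_powerset_insert hx, Finset.sum_congr rfl h1, ← ih, ← ih]
    abel


variable {L : Type} [Group L] [MulAction L X]

lemma mob_smul (T : Finset X → A) (hT : ∀ (l : L) (Y : Finset X), T (Y.image (l • ·)) = T Y)
    (l : L) (Z : Finset X) : mob T (Z.image (l • ·)) = mob T Z := by
  have hinj : Function.Injective (fun x : X => l • x) := MulAction.injective l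
  rw [mob, mob, Finset.powerset_image, Finset.sum_image]
  · refine Finset.sum_congr rfl fun Y _ => ?_
    rw [hT, Finset.card_image_of_injective _ hinj, Finset.card_image_of_injective _ hinj]
  · intro Y _ Y' _ h
    exact Finset.image_injective hinj h

/-- A function on a finite set with an action of a `p`-group that is invariant, with values in a
group killed by `p`, has sum zero when there are no fixed points. -/
lemma sum_eq_zero_of_no_fixed {p : ℕ} [Fact p.Prime] {Ω : Type} [Fintype Ω] [MulAction L Ω]
    (hL : IsPGroup p L) (hA : ∀ a : A, p • a = 0) (c : Ω → A) (hc : ∀ (l : L) ω, c (l • ω) = c ω)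
    (hfix : ∀ ω : Ω, ∃ l : L, l • ω ≠ ω) : ∑ ω, c ω = 0 := by
  classical
  rw [← Finset.sum_fiberwise_of_maps_to (s := Finset.univ) (t := Finset.univ.image c) (g := c)
    (fun ω _ => Finset.mem_image_of_mem c (Finset.mem_univ ω))]
  refine Finset.sum_eq_zero fun a _ => ?_
  have h1 : ∑ ω ∈ Finset.univ with c ω = a, c ω = (Finset.univ.filter (fun ω => c ω = a)).card • a := by
    rw [← Finset.sum_const]
    exact Finset.sum_congr rfl fun ω hω => (Finset.mem_filter.1 hω).2
  rw [h1]
  let S : SubMulAction L Ω :=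
    { carrier := {ω | c ω = a}
      smul_mem' := fun l ω h => by
        change c (l • ω) = a
        rw [hc]; exact h }
  have h2 := hL.card_modEq_card_fixedPoints S
  have h3 : Nat.card (MulAction.fixedPoints L S) = 0 := by
    rw [Nat.card_eq_zero]
    left
    refine ⟨fun ω => ?_⟩
    obtain ⟨l, hl⟩ := hfix ω.1.1
    exact hl (congrArg Subtype.val (ω.2 l))
  rw [h3] at h2
  have h4 : p ∣ Nat.card S := (Nat.modEq_zero_iff_dvd).1 h2
  have h5 : Nat.card S = (Finset.univ.filter (fun ω => c ω = a)).card := by
    rw [Nat.card_eq_fintype_card]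
    exact Fintype.card_subtype _
  rw [h5] at h4
  obtain ⟨m, hm⟩ := h4
  rw [hm, mul_comm, mul_smul, hA, smul_zero]

/-- The combinatorial vanishing lemma. -/
theorem comb_vanish {p : ℕ} [Fact p.Prime] [Fintype X] (hL : IsPGroup p L)
    (hA : ∀ a : A, p • a = 0) (n : ℕ) (T : Finset X → A) (h0 : T ∅ = 0)
    (hT : ∀ (l : L) (Y : Finset X), T (Y.image (l • ·)) = T Y)
    (hdeg : ∀ Z : Finset X, n < Z.card → ∑ Y ∈ Z.powerset, ((-1 : ℤ) ^ Y.card) • T Y = 0)
    (hX : ∀ Z : Finset X, Z.Nonempty → Z.card ≤ n → ∃ l : L, Z.image (l • ·) ≠ Z) :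
    T Finset.univ = 0 := by
  classical
  let Ω : Type := {Z : Finset X // Z.Nonempty ∧ Z.card ≤ n}
  have hinj : ∀ l : L, Function.Injective (fun x : X => l • x) := fun l => MulAction.injective l
  let _ : MulAction L Ω :=
    { smul := fun l ω => ⟨ω.1.image (l • ·), ω.2.1.image _, by
        rw [Finset.card_image_of_injective _ (hinj l)]; exact ω.2.2⟩
      one_smul := fun ω => by
        apply Subtype.ext
        change ω.1.image (fun x => (1 : L) • x) = ω.1
        simp
      mul_smul := fun l l' ω => by
        apply Subtype.ext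
        change ω.1.image (fun x => (l * l') • x) = (ω.1.image (fun x => l' • x)).image (fun x => l • x)
        rw [Finset.image_image]
        refine Finset.image_congr fun x _ => ?_
        simp [mul_smul] }
  have hsum : ∑ ω : Ω, mob T ω.1 = 0 := by
    apply sum_eq_zero_of_no_fixed hL hA
    · intro l ω
      exact mob_smul T hT l ω.1
    · intro ω
      obtain ⟨l, hl⟩ := hX ω.1 ω.2.1 ω.2.2
      exact ⟨l, fun h => hl (congrArg Subtype.val h)⟩
  rw [mob_inversion T Finset.univ, ← hsum]
  have h1 : ∑ ω : Ω, mob T ω.1 =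
      ∑ Z ∈ (Finset.univ : Finset (Finset X)) with (Z.Nonempty ∧ Z.card ≤ n), mob T Z :=
    (Finset.sum_subtype _ (by simp) (fun Z => mob T Z)).symm
  rw [h1, Finset.powerset_univ]
  symm
  apply Finset.sum_subset (Finset.subset_univ _)
  intro Z _ hZ
  by_cases hne : Z.Nonempty
  · have hc : n < Z.card := by
      by_contra hc
      exact hZ (Finset.mem_filter.2 ⟨Finset.mem_univ _, hne, by omega⟩)
    have := hdeg Z hc
    rw [mob]
    have h2 : ∀ Y ∈ Z.powerset, ((-1 : ℤ) ^ (Z.card + Y.card)) • T Y =
        ((-1 : ℤ) ^ Z.card) • (((-1 : ℤ) ^ Y.card) • T Y) := by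
      intro Y _
      rw [pow_add, mul_smul]
    rw [Finset.sum_congr rfl h2, ← Finset.smul_sum, this, smul_zero]
  · rw [Finset.not_nonempty_iff_eq_empty] at hne
    subst hne
    simp [mob, h0]

end Pool.Agent.W628
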