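import Mathlib

/-!
# The simplicial classifying space of a group
-/

set_option backward.isDefEq.respectTransparency false
set_option backward.defeqAttrib.useBackward true

open CategoryTheory Opposite Simplicial MonoidalCategory Limits AlgebraicTopology

namespace Pool.Agent.W628

/-- The simplicial classifying space of a group `G`. Its `n`-simplices are the families
`c i j` (`0 ≤ i, j ≤ n`) of elements of `G` with `c i j * c j k = c i k`, that is the functors
from the indiscrete groupoid on `{0, …, n}` to `G`, equivalently the chains of `n` composable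
elements `c 0 1, c 1 2, …, c (n-1) n` of `G`; simplicial operators act by reindexing. -/
def BG (G : Type) [Group G] : SSet.{0} where
  obj a := {c : Fin (a.unop.len + 1) → Fin (a.unop.len + 1) → G //
    ∀ i j k, c i j * c j k = c i k}
  map f := ↾ fun c => ⟨fun i j => c.1 (f.unop.toOrderHom i) (f.unop.toOrderHom j),
    fun _ _ _ => c.2 _ _ _⟩

/-- The map of classifying spaces induced by a group homomorphism. -/
def BMap {G H : Type} [Group G] [Group H] (φ : G →* H) : BG G ⟶ BG H where
  app a := ↾ fun c => ⟨fun i j => φ (c.1 i j), fun i j k => by rw [← map_mul, c.2 i j k]⟩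

variable {G H J : Type} [Group G] [Group H] [Group J]

lemma BG_ext {a : SimplexCategoryᵒᵖ} {x y : (BG G).obj a}
    (h : ∀ i j, x.1 i j = y.1 i j) : x = y :=
  Subtype.ext (funext fun i => funext fun j => h i j)

lemma BG_map_val {a b : SimplexCategoryᵒᵖ} (f : a ⟶ b) (x : (BG G).obj a) (i j) :
    ((BG G).map f x).1 i j = x.1 (f.unop.toOrderHom i) (f.unop.toOrderHom j) := rfl

lemma BMap_val (φ : G →* H) {a : SimplexCategoryᵒᵖ} (x : (BG G).obj a) (i j) :
    ((BMap φ).app a x).1 i j = φ (x.1 i j) := rfl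

@[simp] lemma BMap_id : BMap (MonoidHom.id G) = 𝟙 (BG G) := rfl

@[simp] lemma BMap_comp (φ : G →* H) (ψ : H →* J) : BMap (ψ.comp φ) = BMap φ ≫ BMap ψ := rfl

lemma BG_self (a : SimplexCategoryᵒᵖ) (x : (BG G).obj a) (i) : x.1 i i = 1 := by
  have := x.2 i i i
  simpa using this

lemma BG_inv {a : SimplexCategoryᵒᵖ} (x : (BG G).obj a) (i j) : x.1 i j * x.1 j i = 1 := by
  rw [x.2, BG_self]

instance (a : SimplexCategoryᵒᵖ) : One ((BG G).obj a) := ⟨⟨fun _ _ => 1, fun _ _ _ => by simp⟩⟩

lemma BG_one_val (a : SimplexCategoryᵒᵖ) (i j) : (1 : (BG G).obj a).1 i j = 1 := rfl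

instance : Subsingleton ((BG G).obj (op ⦋0⦌)) := ⟨fun x y => by
  refine BG_ext fun i j => ?_
  obtain rfl : i = 0 := Subsingleton.elim (α := Fin 1) _ _
  obtain rfl : j = 0 := Subsingleton.elim (α := Fin 1) _ _
  rw [BG_self, BG_self]⟩

/-- The elements used to glue a homotopy. -/
def glue {n : ℕ} (a : Fin (n + 1) → H) (χ : Δ[1] _⦋n⦌) (i : Fin (n + 1)) : H :=
  if χ i = 0 then 1 else a i

/-- A homotopy between maps to a classifying space from a family of elements of the group. -/
noncomputable def BHomotopy {X : SSet.{0}} (f g : X ⟶ BG H)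
    (a : ∀ (n : SimplexCategoryᵒᵖ), X.obj n → Fin (n.unop.len + 1) → H)
    (ha : ∀ {m n : SimplexCategoryᵒᵖ} (θ : m ⟶ n) (x : X.obj m) (i),
      a n (X.map θ x) i = a m x (θ.unop.toOrderHom i))
    (hfg : ∀ (n : SimplexCategoryᵒᵖ) (x : X.obj n) (i j),
      (f.app n x).1 i j * a n x j = a n x i * (g.app n x).1 i j) :
    SSet.Homotopy f g where
  h :=
    { app n := ↾ fun x => ⟨fun i j =>
        (glue (n := n.unop.len) (a n x.1) x.2 i)⁻¹ * (f.app n x.1).1 i j *
          glue (n := n.unop.len) (a n x.1) x.2 j, by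
        intro i j k
        have e := (f.app n x.1).2 i j k
        beta_reduce
        rw [← e]
        group⟩
      naturality m n θ := by
        ext ⟨x, χ⟩
        refine BG_ext (G := H) fun i j => ?_
        have e1 : ∀ i, glue (n := n.unop.len) (a n (X.map θ x)) ((Δ[1] : SSet.{0}).map θ χ) i =
            glue (n := m.unop.len) (a m x) χ (θ.unop.toOrderHom i) := by
          intro i
          simp only [glue, ha]
          rfl
        change (glue (n := n.unop.len) (a n (X.map θ x)) ((Δ[1] : SSet.{0}).map θ χ) i)⁻¹ *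
          (f.app n (X.map θ x)).1 i j * glue (n := n.unop.len) (a n (X.map θ x)) ((Δ[1] : SSet.{0}).map θ χ) j =
          (glue (n := m.unop.len) (a m x) χ (θ.unop.toOrderHom i))⁻¹ *
          (f.app m x).1 (θ.unop.toOrderHom i) (θ.unop.toOrderHom j) *
            glue (n := m.unop.len) (a m x) χ (θ.unop.toOrderHom j)
        rw [e1, e1]
        congr 2
        have := congrArg (fun t => (t : X.obj m ⟶ (BG H).obj n) x) (f.naturality θ)
        exact congrFun (congrFun (congrArg Subtype.val this) i) j }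
  h₀ := by
    ext n x
    refine BG_ext (G := H) fun i j => ?_
    have e : ∀ (i : Fin (n.unop.len + 1)), glue (n := n.unop.len) (a n x) (((SSet.ι₀ : X ⟶ _).app n x).2) i = 1 :=
      fun i => if_pos rfl
    change (glue (n := n.unop.len) (a n x) (((SSet.ι₀ : X ⟶ _).app n x).2) i)⁻¹ * (f.app n x).1 i j *
      glue (n := n.unop.len) (a n x) (((SSet.ι₀ : X ⟶ _).app n x).2) j = (f.app n x).1 i j
    rw [e, e]
    simp
  h₁ := by
    ext n x
    refine BG_ext (G := H) fun i j => ?_
    have e : ∀ (i : Fin (n.unop.len + 1)), glue (n := n.unop.len) (a n x) (((SSet.ι₁ : X ⟶ _).app n x).2) i = a n x i :=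
      fun i => if_neg (show ¬ ((1 : Fin 2) = 0) by decide)
    change (glue (n := n.unop.len) (a n x) (((SSet.ι₁ : X ⟶ _).app n x).2) i)⁻¹ * (f.app n x).1 i j *
      glue (n := n.unop.len) (a n x) (((SSet.ι₁ : X ⟶ _).app n x).2) j = (g.app n x).1 i j
    rw [e, e, mul_assoc, hfg, inv_mul_cancel_left]
  rel := by
    ext n x
    exact x.1.2.elim

/-- Conjugate homomorphisms induce homotopic maps. -/
noncomputable def conjHomotopy (φ ψ : G →* H) (h : H) (hh : ∀ g, φ g * h = h * ψ g) :
    SSet.Homotopy (BMap φ) (BMap ψ) :=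
  BHomotopy _ _ (fun _ _ _ => h) (fun _ _ _ => rfl) (fun _ _ _ _ => hh _)

end Pool.Agent.W628
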