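import Mathlib

/-!
# Vanishing of the homology of iterated reduced tensor powers

For a simplicial vector space `A` with `A₀ = 0`, the `r`-fold iterate of `B ↦ B ⊗ A` has
vanishing homology in degrees `< r`.
-/

set_option backward.isDefEq.respectTransparency false
set_option backward.defeqAttrib.useBackward true

open CategoryTheory Opposite Simplicial MonoidalCategory Limits AlgebraicTopology

namespace Pool.Agent.W628

/-- The order preserving map `[m+1] → [n+1]` that sends `0` to `0` and shifts `f`. -/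
def shiftHom {m n : ℕ} (f : Fin (m + 1) →o Fin (n + 1)) : Fin (m + 2) →o Fin (n + 2) where
  toFun := Fin.cases 0 (fun i => (f i).succ)
  monotone' := by
    intro i j hij
    induction i using Fin.cases with
    | zero => simp
    | succ i =>
      induction j using Fin.cases with
      | zero => simp at hij
      | succ j =>
        simpa using f.monotone (by simpa using hij)

@[simp] lemma shiftHom_zero {m n : ℕ} (f : Fin (m + 1) →o Fin (n + 1)) : shiftHom f 0 = 0 := rfl

@[simp] lemma shiftHom_succ {m n : ℕ} (f : Fin (m + 1) →o Fin (n + 1)) (i : Fin (m + 1)) :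
    shiftHom f i.succ = (f i).succ := rfl

/-- The functor `[n] ↦ [n+1]` on the simplex category adding a new minimal element. -/
def shiftFunctor : SimplexCategory ⥤ SimplexCategory where
  obj a := ⦋a.len + 1⦌
  map f := SimplexCategory.mkHom (shiftHom f.toOrderHom)
  map_id a := by
    ext i : 3
    induction i using Fin.cases with
    | zero => rfl
    | succ i => rfl
  map_comp f g := by
    ext i : 3
    induction i using Fin.cases with
    | zero => rfl
    | succ i => rfl

/-- The natural map `[n] → [n+1]` omitting the new minimal element. -/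
def shiftIncl : 𝟭 SimplexCategory ⟶ shiftFunctor where
  app a := SimplexCategory.mkHom ⟨Fin.succ, fun _ _ h => by simpa using h⟩
  naturality a b f := by
    ext i : 3
    rfl

/-- The maps `θ i : [n+2] → [n+1]`, sending `t ≤ i+1` to `0` and `t > i+1` to `t-1`. -/
def thetaHom (n : ℕ) (i : Fin (n + 1)) : Fin (n + 3) →o Fin (n + 2) where
  toFun t := if h : (t : ℕ) ≤ i + 1 then 0 else ⟨t - 1, by omega⟩
  monotone' := by
    intro s t hst
    have : (s : ℕ) ≤ t := hst
    dsimp only
    split_ifs with h1 h2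
    · exact le_rfl
    · simp
    · omega
    · simp only [Fin.mk_le_mk]; omega

/-- The structure maps of the contraction. -/
def theta (n : ℕ) (i : Fin (n + 1)) : ⦋n + 2⦌ ⟶ ⦋n + 1⦌ := SimplexCategory.mkHom (thetaHom n i)

variable {C : Type*} [Category C]

/-- The décalage of a simplicial object. -/
abbrev dec (A : SimplicialObject C) : SimplicialObject C := shiftFunctor.op ⋙ A

/-- The natural map from the décalage. -/
def decProj (A : SimplicialObject C) : dec A ⟶ A :=
  { app := fun a => A.map (shiftIncl.app a.unop).op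
    naturality := by
      intro a b f
      dsimp
      rw [← A.map_comp, ← A.map_comp, ← op_comp]
      have := shiftIncl.naturality f.unop
      dsimp at this
      rw [← this]
      rfl }

/-- The constant map. -/
def zeta (n : ℕ) : ⦋n + 1⦌ ⟶ ⦋n + 1⦌ := SimplexCategory.mkHom ⟨fun _ => 0, fun _ _ _ => le_rfl⟩

lemma hom_ext_val {a b : SimplexCategory} {f g : a ⟶ b}
    (h : ∀ i, (f.toOrderHom i : ℕ) = (g.toOrderHom i : ℕ)) : f = g := by
  ext i : 3
  exact Fin.ext (h i)

lemma val_comp {a b c : SimplexCategory} (f : a ⟶ b) (g : b ⟶ c) (i) :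
    ((f ≫ g).toOrderHom i) = g.toOrderHom (f.toOrderHom i) := rfl

lemma val_delta {n : ℕ} (i : Fin (n + 2)) (j : Fin (n + 1)) :
    ((SimplexCategory.δ i).toOrderHom j : ℕ) = if (j : ℕ) < i then (j : ℕ) else j + 1 := by
  change ((i.succAbove j : Fin (n + 2)) : ℕ) = _
  rw [Fin.succAbove]
  simp only [Fin.lt_def, Fin.val_castSucc]
  split_ifs <;> simp

lemma val_sigma {n : ℕ} (i : Fin (n + 1)) (j : Fin (n + 2)) :
    ((SimplexCategory.σ i).toOrderHom j : ℕ) = if (j : ℕ) ≤ i then (j : ℕ) else j - 1 := by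
  change ((i.predAbove j : Fin (n + 1)) : ℕ) = _
  rw [Fin.predAbove]
  simp only [Fin.lt_def, Fin.val_castSucc]
  split_ifs <;> simp <;> omega

lemma val_theta {n : ℕ} (i : Fin (n + 1)) (j : Fin (n + 3)) :
    ((theta n i).toOrderHom j : ℕ) = if (j : ℕ) ≤ i + 1 then 0 else (j : ℕ) - 1 := by
  change (((if h : (j : ℕ) ≤ i + 1 then 0 else ⟨j - 1, by omega⟩ : Fin (n + 2))) : ℕ) = _
  split_ifs <;> simp

lemma val_zeta {n : ℕ} (j : Fin (n + 2)) :
    ((zeta n).toOrderHom j : ℕ) = 0 := rfl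

lemma shift_delta {n : ℕ} (i : Fin (n + 2)) :
    shiftFunctor.map (SimplexCategory.δ i) = SimplexCategory.δ i.succ := by
  refine hom_ext_val fun j => ?_
  refine Eq.trans ?_ (val_delta (n := n + 1) i.succ j).symm
  change ((shiftHom (SimplexCategory.δ i).toOrderHom j : Fin (n + 3)) : ℕ) = _
  induction j using Fin.cases with
  | zero => simp
  | succ j =>
    rw [shiftHom_succ, Fin.val_succ, val_delta]
    simp only [Fin.val_succ]
    split_ifs <;> omega

lemma shift_sigma {n : ℕ} (i : Fin (n + 1)) :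
    shiftFunctor.map (SimplexCategory.σ i) = SimplexCategory.σ i.succ := by
  refine hom_ext_val fun j => ?_
  refine Eq.trans ?_ (val_sigma (n := n + 1) i.succ j).symm
  change ((shiftHom (SimplexCategory.σ i).toOrderHom j : Fin (n + 2)) : ℕ) = _
  induction j using Fin.cases with
  | zero => simp
  | succ j =>
    rw [shiftHom_succ, Fin.val_succ, val_sigma]
    simp only [Fin.val_succ]
    split_ifs <;> omega

lemma dec_delta (A : SimplicialObject C) {n : ℕ} (i : Fin (n + 2)) :
    (dec A).δ i = A.map (SimplexCategory.δ i.succ).op := by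
  rw [← shift_delta]; rfl

lemma dec_sigma (A : SimplicialObject C) {n : ℕ} (i : Fin (n + 1)) :
    (dec A).σ i = A.map (SimplexCategory.σ i.succ).op := by
  rw [← shift_sigma]; rfl

lemma theta_id (n : ℕ) : SimplexCategory.δ (Fin.succ 0) ≫ theta n 0 = 𝟙 ⦋n + 1⦌ := by
  refine hom_ext_val fun j => ?_
  rw [val_comp, val_theta, val_delta]
  change _ = (j : ℕ)
  simp only [Fin.val_succ, Fin.val_zero]
  split_ifs <;> omega

lemma theta_last (n : ℕ) : SimplexCategory.δ (Fin.last (n + 1)).succ ≫ theta n (Fin.last n) = zeta n := by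
  refine hom_ext_val fun j => ?_
  rw [val_comp, val_theta, val_delta, val_zeta]
  simp only [Fin.val_succ, Fin.val_last]
  split_ifs <;> omega

lemma theta_rel1 {n : ℕ} (i : Fin (n + 2)) (j : Fin (n + 1)) (hij : i ≤ j.castSucc) :
    SimplexCategory.δ i.castSucc.succ ≫ theta (n + 1) j.succ = theta n j ≫ SimplexCategory.δ i.succ := by
  refine hom_ext_val fun t => ?_
  rw [Fin.le_def] at hij
  simp only [val_comp, val_theta, val_delta, Fin.val_succ, Fin.val_castSucc] at *
  split_ifs <;> omega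

lemma theta_rel2 {n : ℕ} (j : Fin (n + 1)) :
    SimplexCategory.δ j.castSucc.succ.succ ≫ theta (n + 1) j.succ =
      SimplexCategory.δ j.castSucc.succ.succ ≫ theta (n + 1) j.castSucc := by
  refine hom_ext_val fun t => ?_
  simp only [val_comp, val_theta, val_delta, Fin.val_succ, Fin.val_castSucc] at *
  split_ifs <;> omega

lemma theta_rel3 {n : ℕ} (i : Fin (n + 2)) (j : Fin (n + 1)) (hji : j.castSucc < i) :
    SimplexCategory.δ i.succ.succ ≫ theta (n + 1) j.castSucc = theta n j ≫ SimplexCategory.δ i.succ := by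
  refine hom_ext_val fun t => ?_
  rw [Fin.lt_def] at hji
  simp only [val_comp, val_theta, val_delta, Fin.val_succ, Fin.val_castSucc] at *
  split_ifs <;> omega

lemma theta_rel4 {n : ℕ} (i j : Fin (n + 1)) (hij : i ≤ j) :
    SimplexCategory.σ i.castSucc.succ ≫ theta n j = theta (n + 1) j.succ ≫ SimplexCategory.σ i.succ := by
  refine hom_ext_val fun t => ?_
  rw [Fin.le_def] at hij
  simp only [val_comp, val_theta, val_sigma, Fin.val_succ, Fin.val_castSucc] at *
  split_ifs <;> omega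

lemma theta_rel5 {n : ℕ} (i j : Fin (n + 1)) (hji : j ≤ i) :
    SimplexCategory.σ i.succ.succ ≫ theta n j = theta (n + 1) j.castSucc ≫ SimplexCategory.σ i.succ := by
  refine hom_ext_val fun t => ?_
  rw [Fin.le_def] at hji
  simp only [val_comp, val_theta, val_sigma, Fin.val_succ, Fin.val_castSucc] at *
  split_ifs <;> omega

/-- The map of `dec A` to itself induced by the constant maps. -/
def decZeta (A : SimplicialObject C) : dec A ⟶ dec A :=
  { app := fun a => A.map (zeta a.unop.len).op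
    naturality := by
      intro a b f
      dsimp
      rw [← A.map_comp, ← A.map_comp, ← op_comp, ← op_comp]
      congr 2 }

/-- The identity of the décalage is homotopic to the map induced by the constant maps. -/
def decHomotopy (A : SimplicialObject C) :
    SimplicialObject.Homotopy (decZeta A) (𝟙 (dec A)) where
  h i := A.map (theta _ i).op
  h_zero_comp_δ_zero n := by
    rw [dec_delta, ← A.map_comp, ← op_comp, theta_id]
    exact A.map_id _
  h_last_comp_δ_last n := by
    rw [dec_delta, ← A.map_comp, ← op_comp, theta_last]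
    rfl
  h_succ_comp_δ_castSucc_of_lt i j hij := by
    rw [dec_delta, dec_delta, ← A.map_comp, ← A.map_comp, ← op_comp, ← op_comp, theta_rel1 i j hij]
  h_succ_comp_δ_castSucc_succ j := by
    rw [dec_delta, ← A.map_comp, ← A.map_comp, ← op_comp, ← op_comp, theta_rel2 j]
  h_castSucc_comp_δ_succ_of_lt i j hji := by
    rw [dec_delta, dec_delta, ← A.map_comp, ← A.map_comp, ← op_comp, ← op_comp, theta_rel3 i j hji]
  h_comp_σ_castSucc_of_le i j hij := by
    rw [dec_sigma, dec_sigma, ← A.map_comp, ← A.map_comp, ← op_comp, ← op_comp, theta_rel4 i j hij]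
  h_comp_σ_succ_of_lt i j hji := by
    rw [dec_sigma, dec_sigma, ← A.map_comp, ← A.map_comp, ← op_comp, ← op_comp, theta_rel5 i j hji]


/-! ### Tensor products and the vanishing theorem -/

section Tensor

variable (k : Type) [Field k]

/-- Simplicial vector spaces. -/
abbrev SM := SimplicialObject (ModuleCat.{0} k)

variable {k}

instance : MonoidalCategory (SM k) :=
  inferInstanceAs (MonoidalCategory (SimplexCategoryᵒᵖ ⥤ ModuleCat.{0} k))

/-- Levelwise tensor product with a fixed simplicial vector space. -/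
abbrev tens (A : SM k) : SM k ⥤ SM k := tensorRight A

/-- Simplicial homotopies are preserved by levelwise tensor products. -/
def tensHomotopy (A : SM k) {X Y : SM k} {f g : X ⟶ Y} (H : SimplicialObject.Homotopy f g) :
    SimplicialObject.Homotopy ((tens A).map f) ((tens A).map g) where
  h i := H.h i ⊗ₘ A.σ i
  h_zero_comp_δ_zero n := by
    have e : A.σ (0 : Fin (n + 1)) ≫ A.δ 0 = 𝟙 _ := A.δ_comp_σ_self (n := n) (i := 0)
    change (H.h 0 ⊗ₘ A.σ 0) ≫ (Y.δ 0 ⊗ₘ A.δ 0) = g.app _ ▷ A.obj _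
    rw [tensorHom_comp_tensorHom, H.h_zero_comp_δ_zero, e, tensorHom_id]
  h_last_comp_δ_last n := by
    have e : A.σ (Fin.last n) ≫ A.δ (Fin.last (n + 1)) = 𝟙 _ := A.δ_comp_σ_succ (i := Fin.last n)
    change (H.h (Fin.last n) ⊗ₘ A.σ (Fin.last n)) ≫ (Y.δ _ ⊗ₘ A.δ _) = f.app _ ▷ A.obj _
    rw [tensorHom_comp_tensorHom, H.h_last_comp_δ_last, e, tensorHom_id]
  h_succ_comp_δ_castSucc_of_lt i j hij := by
    change (H.h _ ⊗ₘ A.σ _) ≫ (Y.δ _ ⊗ₘ A.δ _) = (X.δ _ ⊗ₘ A.δ _) ≫ (H.h _ ⊗ₘ A.σ _)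
    rw [tensorHom_comp_tensorHom, tensorHom_comp_tensorHom, H.h_succ_comp_δ_castSucc_of_lt i j hij,
      A.δ_comp_σ_of_le hij]
  h_succ_comp_δ_castSucc_succ j := by
    have h₁ := A.δ_comp_σ_self (i := j.succ)
    have h₂ := A.δ_comp_σ_succ (i := j.castSucc)
    dsimp at h₁ h₂
    change (H.h _ ⊗ₘ A.σ _) ≫ (Y.δ _ ⊗ₘ A.δ _) = (H.h _ ⊗ₘ A.σ _) ≫ (Y.δ _ ⊗ₘ A.δ _)
    rw [tensorHom_comp_tensorHom, tensorHom_comp_tensorHom, H.h_succ_comp_δ_castSucc_succ, h₁, h₂]
  h_castSucc_comp_δ_succ_of_lt i j hji := by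
    change (H.h _ ⊗ₘ A.σ _) ≫ (Y.δ _ ⊗ₘ A.δ _) = (X.δ _ ⊗ₘ A.δ _) ≫ (H.h _ ⊗ₘ A.σ _)
    rw [tensorHom_comp_tensorHom, tensorHom_comp_tensorHom, H.h_castSucc_comp_δ_succ_of_lt i j hji,
      A.δ_comp_σ_of_gt hji]
  h_comp_σ_castSucc_of_le i j hij := by
    change (H.h _ ⊗ₘ A.σ _) ≫ (Y.σ _ ⊗ₘ A.σ _) = (X.σ _ ⊗ₘ A.σ _) ≫ (H.h _ ⊗ₘ A.σ _)
    rw [tensorHom_comp_tensorHom, tensorHom_comp_tensorHom, H.h_comp_σ_castSucc_of_le i j hij,
      A.σ_comp_σ hij]
  h_comp_σ_succ_of_lt i j hji := by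
    change (H.h _ ⊗ₘ A.σ _) ≫ (Y.σ _ ⊗ₘ A.σ _) = (X.σ _ ⊗ₘ A.σ _) ≫ (H.h _ ⊗ₘ A.σ _)
    rw [tensorHom_comp_tensorHom, tensorHom_comp_tensorHom, H.h_comp_σ_succ_of_lt i j hji,
      A.σ_comp_σ hji]

/-- The iterates of `B ↦ B ⊗ A`. -/
def Fit (A : SM k) (r : ℕ) : SM k ⥤ SM k :=
  match r with
  | 0 => 𝟭 _
  | r + 1 => tens A ⋙ Fit A r


instance : MonoidalPreadditive (SM k) where
  whiskerLeft_zero {X Y Z} := by
    refine NatTrans.ext (funext fun a => ?_)
    exact MonoidalPreadditive.whiskerLeft_zero (X := X.obj a) (Y := Y.obj a) (Z := Z.obj a)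
  zero_whiskerRight {X Y Z} := by
    refine NatTrans.ext (funext fun a => ?_)
    exact MonoidalPreadditive.zero_whiskerRight (X := X.obj a) (Y := Y.obj a) (Z := Z.obj a)
  whiskerLeft_add {X Y Z} f g := by
    refine NatTrans.ext (funext fun a => ?_)
    exact MonoidalPreadditive.whiskerLeft_add (f.app a) (g.app a)
  add_whiskerRight {X Y Z} f g := by
    refine NatTrans.ext (funext fun a => ?_)
    exact MonoidalPreadditive.add_whiskerRight (f.app a) (g.app a)

instance (A : SM k) : (tens A).Additive where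

instance fitAdditive (A : SM k) (r : ℕ) : (Fit A r).Additive := by
  induction r with
  | zero => exact inferInstanceAs ((𝟭 (SM k)).Additive)
  | succ r ih => exact inferInstanceAs ((tens A ⋙ Fit A r).Additive)

/-- Levelwise split short complexes of simplicial vector spaces. -/
def LSplit (S : ShortComplex (SM k)) : Prop :=
  ∀ a : SimplexCategoryᵒᵖ, Nonempty (S.map ((evaluation _ _).obj a)).Splitting

lemma LSplit.tens {S : ShortComplex (SM k)} (h : LSplit S) (A : SM k) :
    LSplit (S.map (tens A)) := by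
  intro a
  obtain ⟨s⟩ := h a
  exact ⟨s.map (tensorRight (A.obj a))⟩

lemma LSplit.tensLeft {S : ShortComplex (SM k)} (h : LSplit S) (B : SM k) :
    LSplit (S.map (tensorLeft B)) := by
  intro a
  obtain ⟨s⟩ := h a
  exact ⟨s.map (tensorLeft (B.obj a))⟩

lemma LSplit.fit {S : ShortComplex (SM k)} (h : LSplit S) (A : SM k) (r : ℕ) :
    LSplit (S.map (Fit A r)) := by
  induction r generalizing S with
  | zero => exact h
  | succ r ih => exact ih (h.tens A)

/-- The chain complex of a simplicial vector space. -/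
abbrev ch : SM k ⥤ ChainComplex (ModuleCat.{0} k) ℕ := alternatingFaceMapComplex (ModuleCat.{0} k)

instance : (ch (k := k)).Additive := inferInstance

lemma LSplit.shortExact {S : ShortComplex (SM k)} (h : LSplit S) :
    (S.map (ch (k := k))).ShortExact := by
  apply HomologicalComplex.shortExact_of_degreewise_shortExact
  intro i
  obtain ⟨s⟩ := h (op ⦋i⦌)
  exact s.shortExact


/-- Simplicial homotopies are preserved by levelwise tensor products on the left. -/
def tensLeftHomotopy (A : SM k) {X Y : SM k} {f g : X ⟶ Y} (H : SimplicialObject.Homotopy f g) :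
    SimplicialObject.Homotopy ((tensorLeft A).map f) ((tensorLeft A).map g) where
  h i := A.σ i ⊗ₘ H.h i
  h_zero_comp_δ_zero n := by
    have e : A.σ (0 : Fin (n + 1)) ≫ A.δ 0 = 𝟙 _ := A.δ_comp_σ_self (n := n) (i := 0)
    change (A.σ 0 ⊗ₘ H.h 0) ≫ (A.δ 0 ⊗ₘ Y.δ 0) = A.obj _ ◁ g.app _
    rw [tensorHom_comp_tensorHom, H.h_zero_comp_δ_zero, e, id_tensorHom]
  h_last_comp_δ_last n := by
    have e : A.σ (Fin.last n) ≫ A.δ (Fin.last (n + 1)) = 𝟙 _ := A.δ_comp_σ_succ (i := Fin.last n)
    change (A.σ (Fin.last n) ⊗ₘ H.h (Fin.last n)) ≫ (A.δ _ ⊗ₘ Y.δ _) = A.obj _ ◁ f.app _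
    rw [tensorHom_comp_tensorHom, H.h_last_comp_δ_last, e, id_tensorHom]
  h_succ_comp_δ_castSucc_of_lt i j hij := by
    change (A.σ _ ⊗ₘ H.h _) ≫ (A.δ _ ⊗ₘ Y.δ _) = (A.δ _ ⊗ₘ X.δ _) ≫ (A.σ _ ⊗ₘ H.h _)
    rw [tensorHom_comp_tensorHom, tensorHom_comp_tensorHom, H.h_succ_comp_δ_castSucc_of_lt i j hij,
      A.δ_comp_σ_of_le hij]
  h_succ_comp_δ_castSucc_succ j := by
    have h₁ := A.δ_comp_σ_self (i := j.succ)
    have h₂ := A.δ_comp_σ_succ (i := j.castSucc)
    dsimp at h₁ h₂
    change (A.σ _ ⊗ₘ H.h _) ≫ (A.δ _ ⊗ₘ Y.δ _) = (A.σ _ ⊗ₘ H.h _) ≫ (A.δ _ ⊗ₘ Y.δ _)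
    rw [tensorHom_comp_tensorHom, tensorHom_comp_tensorHom, H.h_succ_comp_δ_castSucc_succ, h₁, h₂]
  h_castSucc_comp_δ_succ_of_lt i j hji := by
    change (A.σ _ ⊗ₘ H.h _) ≫ (A.δ _ ⊗ₘ Y.δ _) = (A.δ _ ⊗ₘ X.δ _) ≫ (A.σ _ ⊗ₘ H.h _)
    rw [tensorHom_comp_tensorHom, tensorHom_comp_tensorHom, H.h_castSucc_comp_δ_succ_of_lt i j hji,
      A.δ_comp_σ_of_gt hji]
  h_comp_σ_castSucc_of_le i j hij := by
    change (A.σ _ ⊗ₘ H.h _) ≫ (A.σ _ ⊗ₘ Y.σ _) = (A.σ _ ⊗ₘ X.σ _) ≫ (A.σ _ ⊗ₘ H.h _)
    rw [tensorHom_comp_tensorHom, tensorHom_comp_tensorHom, H.h_comp_σ_castSucc_of_le i j hij,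
      A.σ_comp_σ hij]
  h_comp_σ_succ_of_lt i j hji := by
    change (A.σ _ ⊗ₘ H.h _) ≫ (A.σ _ ⊗ₘ Y.σ _) = (A.σ _ ⊗ₘ X.σ _) ≫ (A.σ _ ⊗ₘ H.h _)
    rw [tensorHom_comp_tensorHom, tensorHom_comp_tensorHom, H.h_comp_σ_succ_of_lt i j hji,
      A.σ_comp_σ hji]

/-- The iterated functor preserves simplicial homotopies. -/
lemma fitHomotopy (A : SM k) (r : ℕ) {X Y : SM k} {f g : X ⟶ Y}
    (H : Nonempty (SimplicialObject.Homotopy f g)) :
    Nonempty (SimplicialObject.Homotopy ((Fit A r).map f) ((Fit A r).map g)) := by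
  induction r generalizing X Y with
  | zero => exact H
  | succ r ih =>
    obtain ⟨H⟩ := H
    exact ih ⟨tensHomotopy A H⟩

lemma exactAt_of_homotopy {X : SM k} (H : Nonempty (SimplicialObject.Homotopy (0 : X ⟶ X) (𝟙 X)))
    (n : ℕ) : (ch.obj X).ExactAt n := by
  obtain ⟨H⟩ := H
  have h := H.map_homology_eq n
  rw [HomologicalComplex.exactAt_iff_isZero_homology, IsZero.iff_id_eq_zero]
  simpa using! h.symm

lemma decZeta_eq_zero (A : SM k) (hA : IsZero (A.obj (op ⦋0⦌))) : decZeta A = 0 := by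
  refine NatTrans.ext (funext fun a => ?_)
  have e : zeta a.unop.len = SimplexCategory.mkHom (n := a.unop.len + 1) (m := 0) ⟨fun _ => 0, fun _ _ _ => le_rfl⟩ ≫
    SimplexCategory.mkHom (n := 0) (m := a.unop.len + 1) ⟨fun _ => 0, fun _ _ _ => le_rfl⟩ := by
    refine hom_ext_val fun j => ?_
    rfl
  change A.map (zeta a.unop.len).op = 0
  rw [e, op_comp, A.map_comp, hA.eq_of_tgt (A.map _) 0, zero_comp]

instance : Abelian (SM k) := inferInstanceAs (Abelian (SimplexCategoryᵒᵖ ⥤ ModuleCat.{0} k))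


/-- The projection from the décalage is levelwise surjective. -/
lemma epi_decProj (A : SM k) : Epi (decProj A) := by
  have : ∀ a, Epi ((decProj A).app a) := by
    intro a
    have e : shiftIncl.app a.unop ≫ (SimplexCategory.σ 0 : ⦋a.unop.len + 1⦌ ⟶ ⦋a.unop.len⦌) =
        𝟙 a.unop := by
      refine hom_ext_val fun j => ?_
      rw [val_comp]
      refine (val_sigma (n := a.unop.len) 0 _).trans ?_
      change (if ((Fin.succ j : Fin (a.unop.len + 2)) : ℕ) ≤ 0 then ((Fin.succ j : Fin (a.unop.len + 2)) : ℕ)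
        else ((Fin.succ j : Fin (a.unop.len + 2)) : ℕ) - 1) = (j : ℕ)
      simp
    have : A.map (SimplexCategory.σ 0 : ⦋a.unop.len + 1⦌ ⟶ ⦋a.unop.len⦌).op ≫ (decProj A).app a = 𝟙 _ := by
      change A.map _ ≫ A.map _ = _
      rw [← A.map_comp, ← op_comp, e]
      exact A.map_id _
    exact SplitEpi.epi ⟨_, this⟩
  exact NatTrans.epi_of_epi_app _

/-- The path short complex. -/
noncomputable def pathSC (A : SM k) : ShortComplex (SM k) :=
  ShortComplex.mk (kernel.ι (decProj A)) (decProj A) (kernel.condition _)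

lemma pathSC_shortExact (A : SM k) : (pathSC A).ShortExact := by
  have := epi_decProj A
  exact
    { exact := ShortComplex.exact_kernel _
      mono_f := by dsimp [pathSC]; infer_instance
      epi_g := this }

lemma LSplit.of_shortExact {S : ShortComplex (SM k)} (h : S.ShortExact) : LSplit S := by
  intro a
  have h' : (S.map ((evaluation _ _).obj a)).ShortExact :=
    h.map_of_exact ((evaluation SimplexCategoryᵒᵖ (ModuleCat.{0} k)).obj a)
  exact ⟨h'.splittingOfProjective⟩

/-- **Vanishing theorem.** -/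
theorem fit_exactAt (A : SM k) (hA : IsZero (A.obj (op ⦋0⦌))) (r : ℕ) (B : SM k) (n : ℕ)
    (hn : n < r) : (ch.obj ((Fit A r).obj B)).ExactAt n := by
  induction r generalizing B n with
  | zero => omega
  | succ r ih =>
    have hS : LSplit (((pathSC A).map (tensorLeft B)).map (Fit A r)) :=
      ((LSplit.of_shortExact (pathSC_shortExact A)).tensLeft B).fit A r
    have hSE := hS.shortExact
    have hdec : ∀ m, (ch.obj ((Fit A r).obj (B ⊗ dec A))).ExactAt m := by
      intro m
      apply exactAt_of_homotopy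
      have H := fitHomotopy A r ⟨tensLeftHomotopy B (decHomotopy A)⟩
      rw [decZeta_eq_zero A hA] at H
      simpa using! H
    refine hSE.exactAt_X₃ n ?_ ?_
    · have h0 : IsZero ((ch.obj ((Fit A r).obj (B ⊗ dec A))).homology n) :=
        (HomologicalComplex.exactAt_iff_isZero_homology _ _).1 (hdec n)
      exact h0.epi _
    · intro j hj
      have hj' : j < r := by
        have : j + 1 = n := hj
        omega
      have h0 : IsZero ((ch.obj ((Fit A r).obj (B ⊗ (kernel (decProj A))))).homology j) :=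
        (HomologicalComplex.exactAt_iff_isZero_homology _ _).1 (ih _ j hj')
      exact h0.mono _

end Tensor

end Pool.Agent.W628
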