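import Mathlib
import Pool.Agent.W628.Dec
import Pool.Agent.W628.BG

/-!
# Cross effects of the homology of classifying spaces
-/

set_option backward.isDefEq.respectTransparency false
set_option backward.defeqAttrib.useBackward true

open CategoryTheory Opposite Simplicial MonoidalCategory Limits AlgebraicTopology

namespace Pool.Agent.W628

variable (k : Type) [Field k]

/-- The free simplicial vector space on a simplicial set. -/
noncomputable abbrev kk : SSet.{0} ⥤ SM k :=
  (SimplicialObject.whiskering (Type) (ModuleCat.{0} k)).obj (ModuleCat.free k)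

variable {k}

/-- Factorisation through an `r`-fold iterate. -/
def PF (A : SM k) (r : ℕ) {M N : SM k} (E : M ⟶ N) : Prop :=
  ∃ (B : SM k) (a : M ⟶ (Fit A r).obj B) (b : (Fit A r).obj B ⟶ N), a ≫ b = E

lemma Fit_comm (A : SM k) (r : ℕ) (B : SM k) :
    (Fit A r).obj (B ⊗ A) = (Fit A r).obj B ⊗ A := by
  induction r generalizing B with
  | zero => rfl
  | succ r ih => exact ih (B ⊗ A)

lemma PF.exists (A : SM k) (r : ℕ) {M N : SM k} {E : M ⟶ N} (h : PF A r E) :
    ∃ (B : SM k) (a : M ⊗ A ⟶ (Fit A (r + 1)).obj B) (b : (Fit A (r + 1)).obj B ⟶ N ⊗ A),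
      a ≫ b = E ▷ A := by
  obtain ⟨B, a, b, rfl⟩ := h
  refine ⟨B, ?_⟩
  change ∃ (a_1 : M ⊗ A ⟶ (Fit A r).obj (B ⊗ A)) (b_1 : (Fit A r).obj (B ⊗ A) ⟶ N ⊗ A),
      a_1 ≫ b_1 = (a ≫ b) ▷ A
  rw [Fit_comm]
  exact ⟨a ▷ A, b ▷ A, by rw [comp_whiskerRight]⟩

lemma PF.homologyMap_eq_zero {A : SM k} (hA : IsZero (A.obj (op ⦋0⦌))) {r : ℕ} {M N : SM k}
    {E : M ⟶ N} (h : PF A r E) (n : ℕ) (hn : n < r) :
    HomologicalComplex.homologyMap ((ch (k := k)).map E) n = 0 := by
  obtain ⟨B, a, b, rfl⟩ := h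
  have h0 : IsZero ((ch.obj ((Fit A r).obj B)).homology n) :=
    (HomologicalComplex.exactAt_iff_isZero_homology _ _).1 (fit_exactAt A hA r B n hn)
  rw [Functor.map_comp, HomologicalComplex.homologyMap_comp,
    h0.eq_of_tgt (HomologicalComplex.homologyMap (ch.map a) n) 0, zero_comp]

variable (K : Type) [Group K]

variable (k) in
/-- The idempotent of the chains on the classifying space that collapses everything to the
base point. -/
noncomputable def idem : (kk k).obj (BG K) ⟶ (kk k).obj (BG K) := (kk k).map (BMap (1 : K →* K))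

lemma idem_idem : idem k K ≫ idem k K = idem k K := by
  rw [idem, ← Functor.map_comp]
  rfl

variable (k) in
/-- The reduced chains of a classifying space. -/
noncomputable def red : SM k := kernel (idem k K)

lemma idem_app_zero : (idem k K).app (op ⦋0⦌) = 𝟙 _ := by
  have : (BMap (1 : K →* K)).app (op ⦋0⦌) = 𝟙 _ := by
    ext x
    exact Subsingleton.elim (α := (BG K).obj (op ⦋0⦌)) _ _
  change (ModuleCat.free k).map ((BMap (1 : K →* K)).app (op ⦋0⦌)) = _
  rw [this]
  exact (ModuleCat.free k).map_id _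

lemma red_zero : IsZero ((red k K).obj (op ⦋0⦌)) := by
  have h1 : (kernel.ι (idem k K)).app (op ⦋0⦌) = 0 := by
    have := congrArg (fun t => NatTrans.app t (op ⦋0⦌)) (kernel.condition (idem k K))
    dsimp at this
    rw [idem_app_zero] at this
    simpa using this
  have h2 : Mono ((kernel.ι (idem k K)).app (op ⦋0⦌)) := inferInstance
  exact IsZero.of_mono_eq_zero _ h1

/-- The reduction map from chains to reduced chains. -/
noncomputable def redMap : (kk k).obj (BG K) ⟶ red k K :=
  kernel.lift (idem k K) (𝟙 _ - idem k K) (by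
    rw [Preadditive.sub_comp, idem_idem, Category.id_comp, sub_self])

lemma redMap_ι : redMap K ≫ kernel.ι (idem k K) = 𝟙 _ - idem k K := kernel.lift_ι _ _ _

open Functor.LaxMonoidal Functor.OplaxMonoidal in
/-- The comultiplication on chains. -/
noncomputable def comul (X : SSet.{0}) : (kk k).obj X ⟶ (kk k).obj X ⊗ (kk k).obj X where
  app a := (ModuleCat.free k).map (Y := X.obj a ⊗ X.obj a) (↾ fun x => (x, x)) ≫
    δ (ModuleCat.free k) _ _
  naturality a b f := by
    change (ModuleCat.free k).map (X.map f) ≫ (ModuleCat.free k).map _ ≫ δ (ModuleCat.free k) _ _ =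
      ((ModuleCat.free k).map _ ≫ δ (ModuleCat.free k) _ _) ≫
        ((ModuleCat.free k).map (X.map f) ⊗ₘ (ModuleCat.free k).map (X.map f))
    rw [Category.assoc, δ_natural, ← Functor.map_comp_assoc, ← Functor.map_comp_assoc]
    rfl

open Functor.LaxMonoidal in
/-- The map of chains on a product induced by a simplicial pairing. -/
noncomputable def mulMap {X Y Z : SSet.{0}} (m : ∀ a, X.obj a → Y.obj a → Z.obj a)
    (hm : ∀ {a b} (f : a ⟶ b) (x : X.obj a) (y : Y.obj a),
      Z.map f (m a x y) = m b (X.map f x) (Y.map f y)) :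
    (kk k).obj X ⊗ (kk k).obj Y ⟶ (kk k).obj Z where
  app a := μ (ModuleCat.free k) (X.obj a) (Y.obj a) ≫
    (ModuleCat.free k).map (X := X.obj a ⊗ Y.obj a) (↾ fun p => m a p.1 p.2)
  naturality a b f := by
    change ((ModuleCat.free k).map (X.map f) ⊗ₘ (ModuleCat.free k).map (Y.map f)) ≫
      μ (ModuleCat.free k) _ _ ≫ (ModuleCat.free k).map _ =
      (μ (ModuleCat.free k) _ _ ≫ (ModuleCat.free k).map _) ≫ (ModuleCat.free k).map (Z.map f)
    rw [μ_natural_assoc, Category.assoc, ← Functor.map_comp, ← Functor.map_comp]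
    congr 2
    ext p
    exact (hm f p.1 p.2).symm

open Functor.LaxMonoidal Functor.OplaxMonoidal in
lemma comul_map_mul {X Y Y' Z : SSet.{0}} (m : ∀ a, Y.obj a → Y'.obj a → Z.obj a)
    (hm : ∀ {a b} (f : a ⟶ b) (x : Y.obj a) (y : Y'.obj a),
      Z.map f (m a x y) = m b (Y.map f x) (Y'.map f y))
    (f : X ⟶ Y) (g : X ⟶ Y') (h : X ⟶ Z) (hh : ∀ a x, h.app a x = m a (f.app a x) (g.app a x)) :
    comul X ≫ ((kk k).map f ⊗ₘ (kk k).map g) ≫ mulMap m hm = (kk k).map h := by
  refine NatTrans.ext (funext fun a => ?_)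
  change ((ModuleCat.free k).map _ ≫ δ (ModuleCat.free k) _ _) ≫
    ((ModuleCat.free k).map (f.app a) ⊗ₘ (ModuleCat.free k).map (g.app a)) ≫
      μ (ModuleCat.free k) _ _ ≫ (ModuleCat.free k).map _ = (ModuleCat.free k).map (h.app a)
  rw [μ_natural_assoc, Category.assoc, Functor.Monoidal.δ_μ_assoc, ← Functor.map_comp,
    ← Functor.map_comp]
  congr 1
  ext x
  exact (hh a x).symm

variable (X : Type) [DecidableEq X]

variable {K X} in
/-- The partial diagonal homomorphism supported on a finite set. -/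
def pd (Y : Finset X) : K →* (X → K) where
  toFun g := fun x => if x ∈ Y then g else 1
  map_one' := by funext x; simp
  map_mul' g h := by
    funext x
    by_cases hx : x ∈ Y <;> simp [hx]

variable {K X} in
lemma pd_apply (Y : Finset X) (g : K) (x : X) : pd Y g x = if x ∈ Y then g else 1 := rfl

variable {K X} in
/-- Replacing one coordinate of a simplex. -/
def upd (z : X) (a : SimplexCategoryᵒᵖ) (c : (BG (X → K)).obj a) (d : (BG K).obj a) :
    (BG (X → K)).obj a :=
  ⟨fun i j => Function.update (c.1 i j) z (d.1 i j), fun i j l => by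
    funext x
    by_cases h : x = z
    · subst h
      simpa using d.2 i j l
    · simpa [h] using congrFun (c.2 i j l) x⟩

variable {K X} in
lemma upd_nat (z : X) {a b : SimplexCategoryᵒᵖ} (f : a ⟶ b) (c : (BG (X → K)).obj a)
    (d : (BG K).obj a) :
    (BG (X → K)).map f (upd z a c d) = upd z b ((BG (X → K)).map f c) ((BG K).map f d) := rfl

variable {K X} in
/-- The chain map induced by replacing one coordinate. -/
noncomputable def updMap (z : X) :
    (kk k).obj (BG (X → K)) ⊗ (kk k).obj (BG K) ⟶ (kk k).obj (BG (X → K)) :=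
  mulMap (upd z) (upd_nat z)

variable (k) {K X} in
/-- The alternating sum of partial diagonals. -/
noncomputable def altSum (Z : Finset X) : (kk k).obj (BG K) ⟶ (kk k).obj (BG (X → K)) :=
  ∑ Y ∈ Z.powerset, ((-1 : ℤ) ^ Y.card) • (kk k).map (BMap (pd Y))

variable {K X}

lemma comul_upd_one (z : X) (Y : Finset X) (hz : z ∉ Y) :
    comul (k := k) (BG K) ≫ ((kk k).map (BMap (pd Y)) ⊗ₘ idem k K) ≫ updMap z =
      (kk k).map (BMap (pd Y)) := by
  refine comul_map_mul (upd z) (upd_nat z) _ _ _ ?_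
  intro a x
  refine BG_ext fun i j => ?_
  funext t
  change pd Y (x.1 i j) t = Function.update (pd Y (x.1 i j)) z 1 t
  by_cases h : t = z
  · subst h
    simp [pd_apply, hz]
  · simp [h]

lemma comul_upd_id (z : X) (Y : Finset X) :
    comul (k := k) (BG K) ≫ ((kk k).map (BMap (pd Y)) ⊗ₘ 𝟙 _) ≫ updMap z =
      (kk k).map (BMap (pd (insert z Y))) := by
  have : 𝟙 ((kk k).obj (BG K)) = (kk k).map (𝟙 (BG K)) := ((kk k).map_id _).symm
  rw [this]
  refine comul_map_mul (upd z) (upd_nat z) _ _ _ ?_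
  intro a x
  refine BG_ext fun i j => ?_
  funext t
  change pd (insert z Y) (x.1 i j) t = Function.update (pd Y (x.1 i j)) z (x.1 i j) t
  by_cases h : t = z
  · subst h
    simp [pd_apply]
  · simp [h, pd_apply]

lemma altSum_insert (z : X) (Z : Finset X) (hz : z ∉ Z) :
    altSum k (K := K) (insert z Z) =
      -(comul (BG K) ≫ (altSum k Z ⊗ₘ (𝟙 _ - idem k K)) ≫ updMap z) := by
  have key : ∀ (g : (kk k).obj (BG K) ⟶ (kk k).obj (BG K)),
      comul (BG K) ≫ (altSum k Z ⊗ₘ g) ≫ updMap z = ∑ Y ∈ Z.powerset, ((-1 : ℤ) ^ Y.card) •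
        (comul (BG K) ≫ ((kk k).map (BMap (pd Y)) ⊗ₘ g) ≫ updMap z) := by
    intro g
    let Φ : ((kk k).obj (BG K) ⟶ (kk k).obj (BG (X → K))) →+
        ((kk k).obj (BG K) ⟶ (kk k).obj (BG (X → K))) :=
      { toFun := fun e => comul (BG K) ≫ (e ⊗ₘ g) ≫ updMap z
        map_zero' := by simp
        map_add' := fun e e' => by
          rw [MonoidalPreadditive.add_tensor, Preadditive.add_comp, Preadditive.comp_add] }
    change Φ (altSum k Z) = ∑ Y ∈ Z.powerset, ((-1 : ℤ) ^ Y.card) • Φ ((kk k).map (BMap (pd Y)))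
    rw [altSum, map_sum]
    exact Finset.sum_congr rfl fun Y _ => map_zsmul Φ _ _
  have e1 : comul (BG K) ≫ (altSum k Z ⊗ₘ (𝟙 _ - idem k K)) ≫ updMap z =
      comul (BG K) ≫ (altSum k Z ⊗ₘ 𝟙 _) ≫ updMap z -
        comul (BG K) ≫ (altSum k Z ⊗ₘ idem k K) ≫ updMap z := by
    rw [← Preadditive.comp_sub, ← Preadditive.sub_comp, sub_eq_add_neg, sub_eq_add_neg, MonoidalPreadditive.tensor_add]
    congr 3
    rw [eq_neg_iff_add_eq_zero, ← MonoidalPreadditive.tensor_add, neg_add_cancel, MonoidalPreadditive.tensor_zero]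
  rw [e1, key, key, neg_sub, altSum, Finset.sum_powerset_insert hz, sub_eq_add_neg,
    ← Finset.sum_neg_distrib]
  congr 1
  · refine Finset.sum_congr rfl fun Y hY => ?_
    rw [comul_upd_one z Y (fun h => hz (Finset.mem_powerset.1 hY h))]
  · refine Finset.sum_congr rfl fun Y hY => ?_
    rw [comul_upd_id, Finset.card_insert_of_notMem (fun h => hz (Finset.mem_powerset.1 hY h)),
      pow_succ]
    simp

lemma altSum_PF (Z : Finset X) : PF (red k K) Z.card (altSum k (K := K) Z) := by
  induction Z using Finset.induction_on with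
  | empty => exact ⟨_, 𝟙 _, altSum k ∅, Category.id_comp _⟩
  | insert z Z hz ih =>
    obtain ⟨B, a, b, hab⟩ := ih.exists
    rw [Finset.card_insert_of_notMem hz]
    refine ⟨B, comul (BG K) ≫ (_ ◁ redMap K) ≫ a, b ≫ (_ ◁ kernel.ι (idem k K)) ≫ (-updMap z), ?_⟩
    rw [altSum_insert z Z hz, Category.assoc, Category.assoc, reassoc_of% hab, ← redMap_ι,
      MonoidalCategory.tensorHom_def, whiskerLeft_comp, Preadditive.comp_neg, Preadditive.comp_neg,
      Preadditive.comp_neg, Preadditive.comp_neg, whisker_exchange_assoc]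
    simp only [Category.assoc]

/-- The alternating sum of the partial diagonals over a set with more than `n` elements vanishes
on the `n`-th homology. -/
theorem altSum_homology (Z : Finset X) (n : ℕ) (hn : n < Z.card) :
    HomologicalComplex.homologyMap ((ch (k := k)).map (altSum k (K := K) Z)) n = 0 :=
  (altSum_PF Z).homologyMap_eq_zero (red_zero K) n hn

end Pool.Agent.W628
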