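import Mathlib
import Pool.Agent.W628.Cross
import Pool.Agent.W628.Comb

/-!
# Killing the mod `p` homology of a group in a permutational wreath product
-/

set_option backward.isDefEq.respectTransparency false
set_option backward.defeqAttrib.useBackward true

open CategoryTheory Opposite Simplicial MonoidalCategory Limits AlgebraicTopology

namespace Pool.Agent.W628

variable (k : Type) [Field k]

/-- The chain complex of a simplicial set. -/
noncomputable abbrev chk : SSet.{0} ⥤ ChainComplex (ModuleCat.{0} k) ℕ := kk k ⋙ ch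

/-- The homology functor in degree `n`. -/
noncomputable abbrev Hn (n : ℕ) : SSet.{0} ⥤ ModuleCat.{0} k :=
  chk k ⋙ HomologicalComplex.homologyFunctor _ _ n

variable {k}

lemma Hn_homotopy {X Y : SSet.{0}} {f g : X ⟶ Y} (h : SSet.Homotopy f g) (n : ℕ) :
    (Hn k n).map f = (Hn k n).map g := by
  have H := (h.toSimplicialObjectHomotopy).whiskerRight (ModuleCat.free k)
  exact H.map_homology_eq n

variable {G H : Type} [Group G] [Group H]

lemma Hn_conj (φ ψ : G →* H) (h : H) (hh : ∀ g, φ g * h = h * ψ g) (n : ℕ) :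
    (Hn k n).map (BMap φ) = (Hn k n).map (BMap ψ) :=
  Hn_homotopy (conjHomotopy φ ψ h hh) n


/-- The chains on a simplicial set with exactly one simplex in each degree. -/
noncomputable def kkConstIso (X : SSet.{0}) (x : ∀ a, X.obj a)
    (hx : ∀ a, Subsingleton (X.obj a)) :
    (kk k).obj X ≅ (Functor.const SimplexCategoryᵒᵖ).obj ((ModuleCat.free k).obj PUnit) :=
  NatIso.ofComponents (fun a => (ModuleCat.free k).mapIso
    (Equiv.toIso (⟨fun _ => PUnit.unit, fun _ => x a, fun y => (hx a).elim _ _,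
      fun _ => rfl⟩ : X.obj a ≃ PUnit))) (by
    intro a b f
    change (ModuleCat.free k).map (X.map f) ≫ (ModuleCat.free k).map _ =
      (ModuleCat.free k).map _ ≫ 𝟙 _
    rw [Category.comp_id, ← Functor.map_comp]
    rfl)

lemma exactAt_const (X : SSet.{0}) (x : ∀ a, X.obj a)
    (hx : ∀ a, Subsingleton (X.obj a)) (n : ℕ) (hn : n ≠ 0) :
    ((chk k).obj X).ExactAt n := by
  have e : (chk k).obj X ≅ ChainComplex.alternatingConst.obj ((ModuleCat.free k).obj PUnit) :=
    ch.mapIso (kkConstIso X x hx) ≪≫ alternatingFaceMapComplexConst.app _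
  exact (ChainComplex.alternatingConst_exactAt _ n hn).of_iso e.symm

lemma Hn_isZero_const (X : SSet.{0}) (x : ∀ a, X.obj a)
    (hx : ∀ a, Subsingleton (X.obj a)) (n : ℕ) (hn : n ≠ 0) : IsZero ((Hn k n).obj X) :=
  (HomologicalComplex.exactAt_iff_isZero_homology _ _).1 (exactAt_const X x hx n hn)

lemma Hn_isZero_of_subsingleton [Subsingleton G] (n : ℕ) (hn : n ≠ 0) :
    IsZero ((Hn k n).obj (BG G)) :=
  Hn_isZero_const _ (fun _ => 1) (fun a => ⟨fun x y => BG_ext fun i j =>
    Subsingleton.elim (α := G) _ _⟩) n hn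

lemma Hn_one (n : ℕ) (hn : n ≠ 0) : (Hn k n).map (BMap (1 : G →* H)) = 0 := by
  have : (1 : G →* H) = (1 : PUnit →* H).comp (1 : G →* PUnit) := rfl
  rw [this, BMap_comp, Functor.map_comp,
    (Hn_isZero_of_subsingleton (G := PUnit) n hn).eq_of_tgt ((Hn k n).map (BMap (1 : G →* PUnit))) 0,
    zero_comp]

/-- **Killing theorem.** -/
theorem kill {p : ℕ} [Fact p.Prime] [CharP k p] {K W L X : Type} [Group K] [Group W] [Group L]
    [MulAction L X] [Fintype X] [DecidableEq X] (hL : IsPGroup p L)
    (j : (X → K) →* W) (w : L → W)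
    (hw : ∀ l f, w l * j f = j (fun x => f (l⁻¹ • x)) * w l) (n : ℕ) (hn : n ≠ 0)
    (hX : ∀ Z : Finset X, Z.Nonempty → Z.card ≤ n → ∃ l : L, Z.image (l • ·) ≠ Z) :
    (Hn k n).map (BMap (j.comp (pd Finset.univ))) = 0 := by
  refine comb_vanish (p := p) hL ?_ n (fun Y => (Hn k n).map (BMap (j.comp (pd Y)))) ?_ ?_ ?_ hX
  · intro a
    have : (p : k) • a = 0 := by rw [CharP.cast_eq_zero, zero_smul]
    rwa [Nat.cast_smul_eq_nsmul] at this
  · have : j.comp (pd ∅) = (1 : K →* W) := by
      ext g
      change j (pd ∅ g) = 1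
      have : pd (X := X) ∅ g = 1 := by funext x; simp [pd_apply]
      rw [this, map_one]
    rw [this]
    exact Hn_one n hn
  · intro l Y
    refine Hn_conj _ _ (w l) (fun g => ?_) n
    change j (pd _ g) * w l = w l * j (pd Y g)
    rw [hw]
    congr 2
    funext x
    have : x ∈ Y.image (fun y => l • y) ↔ l⁻¹ • x ∈ Y := by
      constructor
      · intro h
        obtain ⟨y, hy, rfl⟩ := Finset.mem_image.1 h
        simpa using hy
      · intro h
        exact Finset.mem_image.2 ⟨_, h, by simp⟩
    simp only [pd_apply, this]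
  · intro Z hZ
    have h1 := altSum_homology (k := k) (K := K) Z n hZ
    have h2 : (HomologicalComplex.homologyFunctor (ModuleCat.{0} k) (ComplexShape.down ℕ) n).map
      (ch.map (altSum k (K := K) Z)) = 0 := h1
    rw [altSum, Functor.map_sum, Functor.map_sum] at h2
    have h3 : (∑ Y ∈ Z.powerset, ((-1 : ℤ) ^ Y.card) • (Hn k n).map (BMap (pd Y : K →* (X → K)))) ≫
        (Hn k n).map (BMap j) = 0 := by
      rw [← zero_comp (f := (Hn k n).map (BMap j))]
      congr 1
      rw [← h2]
      refine Finset.sum_congr rfl fun Y _ => ?_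
      rw [Functor.map_zsmul, Functor.map_zsmul]
      rfl
    rw [Preadditive.sum_comp] at h3
    rw [← h3]
    refine Finset.sum_congr rfl fun Y _ => ?_
    rw [Preadditive.zsmul_comp, ← Functor.map_comp, ← BMap_comp]

end Pool.Agent.W628
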