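import Mathlib
import Pool.Agent.W628.Kill

/-!
# The covering associated with a homomorphism to a cyclic group
-/

set_option backward.isDefEq.respectTransparency false
set_option backward.defeqAttrib.useBackward true

open CategoryTheory Opposite Simplicial MonoidalCategory Limits AlgebraicTopology

namespace Pool.Agent.W628

section General

variable {S S' Q : Type} [Group S] [Group S'] [CommGroup Q]

/-- The covering of the classifying space associated with a homomorphism. -/
def Cov (π : S →* Q) : SSet.{0} where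
  obj a := {x : (BG S).obj a × (Fin (a.unop.len + 1) → Q) // ∀ i j, x.2 i = π (x.1.1 i j) * x.2 j}
  map θ := ↾ fun x => ⟨((BG S).map θ x.1.1, fun i => x.1.2 (θ.unop.toOrderHom i)),
    fun i j => x.2 _ _⟩

variable (π : S →* Q)

lemma Cov_ext {a : SimplexCategoryᵒᵖ} {x y : (Cov π).obj a} (h1 : x.1.1 = y.1.1)
    (h2 : x.1.2 0 = y.1.2 0) : x = y := by
  apply Subtype.ext
  apply Prod.ext h1
  funext i
  rw [x.2 i 0, y.2 i 0, h1, h2]

/-- The projection of the covering. -/
def covProj : Cov π ⟶ BG S where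
  app a := ↾ fun x => x.1.1

/-- The deck transformations. -/
def covAct (h : Q) : Cov π ⟶ Cov π where
  app a := ↾ fun x => ⟨(x.1.1, fun i => x.1.2 i * h), fun i j => by
    change x.1.2 i * h = π (x.1.1.1 i j) * (x.1.2 j * h)
    rw [x.2 i j, mul_assoc]⟩

variable {π} in
/-- The induced map of coverings. -/
def covMap {π' : S' →* Q} (f : S →* S') (hf : π'.comp f = π) : Cov π ⟶ Cov π' where
  app a := ↾ fun x => ⟨((BMap f).app a x.1.1, x.1.2), fun i j => by
    have h : π' (f (x.1.1.1 i j)) = π (x.1.1.1 i j) := DFunLike.congr_fun hf _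
    change x.1.2 i = π' (f (x.1.1.1 i j)) * x.1.2 j
    rw [h]
    exact x.2 i j⟩

/-- The standard lift of a simplex. -/
def covLift {a : SimplexCategoryᵒᵖ} (c : (BG S).obj a) : (Cov π).obj a :=
  ⟨(c, fun i => π (c.1 i 0)), fun i j => by
    change π (c.1 i 0) = π (c.1 i j) * π (c.1 j 0)
    rw [← map_mul, c.2]⟩

lemma covLift_act {a : SimplexCategoryᵒᵖ} (x : (Cov π).obj a) :
    (covAct π (x.1.2 0)).app a (covLift π x.1.1) = x := by
  apply Cov_ext
  · rfl
  · change π (x.1.1.1 0 0) * x.1.2 0 = x.1.2 0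
    rw [BG_self, map_one, one_mul]

lemma covAct_mul (h h' : Q) {a : SimplexCategoryᵒᵖ} (x : (Cov π).obj a) :
    (covAct π h').app a ((covAct π h).app a x) = (covAct π (h * h')).app a x := by
  apply Cov_ext
  · rfl
  · change x.1.2 0 * h * h' = x.1.2 0 * (h * h')
    rw [mul_assoc]

lemma covAct_one {a : SimplexCategoryᵒᵖ} (x : (Cov π).obj a) :
    (covAct π 1).app a x = x := by
  apply Cov_ext
  · rfl
  · change x.1.2 0 * 1 = x.1.2 0
    rw [mul_one]

lemma covLift_map {a b : SimplexCategoryᵒᵖ} (θ : a ⟶ b) (c : (BG S).obj a) :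
    ∃ h : Q, (Cov π).map θ (covLift π c) = (covAct π h).app b (covLift π ((BG S).map θ c)) := by
  refine ⟨((Cov π).map θ (covLift π c)).1.2 0, ?_⟩
  exact (covLift_act π ((Cov π).map θ (covLift π c))).symm

end General


section Cyclic

variable {p : ℕ} [Fact p.Prime] {k : Type} [Field k]
variable {S S' : Type} [Group S] [Group S'] (π : S →* Multiplicative (ZMod p))

/-- The element of the cyclic group with exponent `j`. -/
def gp (p : ℕ) (j : ℕ) : Multiplicative (ZMod p) := Multiplicative.ofAdd (j : ZMod p)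

lemma gp_zero : gp p 0 = 1 := by simp [gp]

lemma gp_add (i j : ℕ) : gp p i * gp p j = gp p (i + j) := by
  simp [gp, ← ofAdd_add]

lemma gp_p : gp p p = 1 := by simp [gp]

/-- The exponent of the initial vertex. -/
def ex {a : SimplexCategoryᵒᵖ} (x : (Cov π).obj a) : ℕ := (Multiplicative.toAdd (x.1.2 0)).val

lemma ex_lt {a : SimplexCategoryᵒᵖ} (x : (Cov π).obj a) : ex π x < p := by
  have : NeZero p := ⟨(Fact.out (p := p.Prime)).ne_zero⟩
  exact ZMod.val_lt _

lemma gp_ex {a : SimplexCategoryᵒᵖ} (x : (Cov π).obj a) : gp p (ex π x) = x.1.2 0 := by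
  have : NeZero p := ⟨(Fact.out (p := p.Prime)).ne_zero⟩
  simp [gp, ex]

/-- Chains: the difference of the generator of the deck transformations and the identity. -/
noncomputable def dd (k : Type) [Field k] : (kk k).obj (Cov π) ⟶ (kk k).obj (Cov π) :=
  (kk k).map (covAct π (gp p 1)) - 𝟙 _

/-- Chains: the projection. -/
noncomputable def pr (k : Type) [Field k] : (kk k).obj (Cov π) ⟶ (kk k).obj (BG S) :=
  (kk k).map (covProj π)

/-- The lifted simplex with given initial exponent. -/
def li {a : SimplexCategoryᵒᵖ} (c : (BG S).obj a) (j : ℕ) : (Cov π).obj a :=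
  (covAct π (gp p j)).app a (covLift π c)

lemma li_ex {a : SimplexCategoryᵒᵖ} (x : (Cov π).obj a) : li π x.1.1 (ex π x) = x := by
  rw [li, gp_ex]
  exact covLift_act π x

lemma ex_li {a : SimplexCategoryᵒᵖ} (c : (BG S).obj a) (j : ℕ) (hj : j < p) :
    ex π (li π c j) = j := by
  change (Multiplicative.toAdd (π (c.1 0 0) * gp p j)).val = j
  rw [BG_self, map_one, one_mul]
  simp [gp, ZMod.val_natCast, Nat.mod_eq_of_lt hj]

lemma li_succ {a : SimplexCategoryᵒᵖ} (c : (BG S).obj a) (j : ℕ) :
    (covAct π (gp p 1)).app a (li π c j) = li π c (j + 1) := by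
  rw [li, covAct_mul, gp_add, li]

lemma li_p {a : SimplexCategoryᵒᵖ} (c : (BG S).obj a) : li π c p = li π c 0 := by
  rw [li, li, gp_p, gp_zero]

/-- The transfer. -/
noncomputable def tr (k : Type) [Field k] : (kk k).obj (BG S) ⟶ (kk k).obj (Cov π) where
  app a := ModuleCat.freeDesc (↾ fun c => ∑ h : Multiplicative (ZMod p),
    ModuleCat.freeMk ((covAct π h).app a (covLift π c)))
  naturality a b θ := by
    apply ModuleCat.free_hom_ext
    intro c
    obtain ⟨h, hh⟩ := covLift_map π θ c
    change ModuleCat.freeDesc _ ((ModuleCat.free k).map ((BG S).map θ) (ModuleCat.freeMk c)) =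
      (ModuleCat.free k).map ((Cov π).map θ) (ModuleCat.freeDesc _ (ModuleCat.freeMk c))
    rw [ModuleCat.free_map_apply, ModuleCat.freeDesc_apply, ModuleCat.freeDesc_apply]
    change ∑ h : Multiplicative (ZMod p), _ = (ModuleCat.free k).map ((Cov π).map θ)
      (∑ h : Multiplicative (ZMod p), _)
    rw [map_sum]
    refine Fintype.sum_equiv (Equiv.mulLeft h⁻¹) _ _ fun h' => ?_
    rw [ModuleCat.free_map_apply]
    congr 1
    change _ = (covAct π (h⁻¹ * h')).app b ((Cov π).map θ (covLift π c))
    rw [hh, covAct_mul, mul_inv_cancel_left]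

lemma tr_apply {a : SimplexCategoryᵒᵖ} (c : (BG S).obj a) :
    (tr π k).app a (ModuleCat.freeMk c) = ∑ j ∈ Finset.range p, ModuleCat.freeMk (li π c j) := by
  have : NeZero p := ⟨(Fact.out (p := p.Prime)).ne_zero⟩
  refine (ModuleCat.freeDesc_apply _ _).trans ?_
  symm
  refine Finset.sum_nbij' (fun j => gp p j) (fun h => (Multiplicative.toAdd h).val) ?_ ?_ ?_ ?_ ?_
  · intro j _
    exact Finset.mem_univ _
  · intro h _
    exact Finset.mem_range.2 (ZMod.val_lt _)
  · intro j hj
    simp [gp, ZMod.val_natCast, Nat.mod_eq_of_lt (Finset.mem_range.1 hj)]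
  · intro h _
    simp [gp]
  · intro j _
    rfl

lemma pr_apply {a : SimplexCategoryᵒᵖ} (x : (Cov π).obj a) :
    (pr π k).app a (ModuleCat.freeMk x) = ModuleCat.freeMk x.1.1 := by
  exact ModuleCat.free_map_apply _ _

lemma dd_apply {a : SimplexCategoryᵒᵖ} (x : (Cov π).obj a) :
    (dd π k).app a (ModuleCat.freeMk x) =
      ModuleCat.freeMk ((covAct π (gp p 1)).app a x) - ModuleCat.freeMk x := by
  have e : (ModuleCat.free k).map ((covAct π (gp p 1)).app a) (ModuleCat.freeMk x) =
      ModuleCat.freeMk ((covAct π (gp p 1)).app a x) := ModuleCat.free_map_apply _ _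
  rw [← e]
  rfl

/-- The first contracting map. -/
noncomputable def s0 (k : Type) [Field k] (a : SimplexCategoryᵒᵖ) :
    ((kk k).obj (BG S)).obj a ⟶ ((kk k).obj (Cov π)).obj a :=
  ModuleCat.freeDesc (↾ fun c => ModuleCat.freeMk (li π c 0))

/-- The second contracting map. -/
noncomputable def s1 (k : Type) [Field k] (a : SimplexCategoryᵒᵖ) :
    ((kk k).obj (Cov π)).obj a ⟶ ((kk k).obj (Cov π)).obj a :=
  ModuleCat.freeDesc (↾ fun x => ∑ j ∈ Finset.range (ex π x), ModuleCat.freeMk (li π x.1.1 j))

/-- The third contracting map. -/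
noncomputable def s2 (k : Type) [Field k] (a : SimplexCategoryᵒᵖ) :
    ((kk k).obj (Cov π)).obj a ⟶ ((kk k).obj (BG S)).obj a :=
  ModuleCat.freeDesc (↾ fun x => if ex π x + 1 = p then ModuleCat.freeMk x.1.1 else 0)

lemma s0_apply {a : SimplexCategoryᵒᵖ} (c : (BG S).obj a) :
    s0 π k a (ModuleCat.freeMk c) = ModuleCat.freeMk (li π c 0) := ModuleCat.freeDesc_apply _ _

lemma s1_apply {a : SimplexCategoryᵒᵖ} (x : (Cov π).obj a) :
    s1 π k a (ModuleCat.freeMk x) = ∑ j ∈ Finset.range (ex π x), ModuleCat.freeMk (li π x.1.1 j) :=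
  ModuleCat.freeDesc_apply _ _

lemma s2_apply {a : SimplexCategoryᵒᵖ} (x : (Cov π).obj a) :
    s2 π k a (ModuleCat.freeMk x) = if ex π x + 1 = p then ModuleCat.freeMk x.1.1 else 0 :=
  ModuleCat.freeDesc_apply _ _

lemma s0_pr (a : SimplexCategoryᵒᵖ) : s0 π k a ≫ (pr π k).app a = 𝟙 _ := by
  apply ModuleCat.free_hom_ext
  intro c
  change (pr π k).app a (s0 π k a (ModuleCat.freeMk c)) = ModuleCat.freeMk c
  rw [s0_apply, pr_apply]
  rfl

lemma s1_dd (a : SimplexCategoryᵒᵖ) :
    s1 π k a ≫ (dd π k).app a + (pr π k).app a ≫ s0 π k a = 𝟙 _ := by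
  apply ModuleCat.free_hom_ext
  intro x
  change (dd π k).app a (s1 π k a (ModuleCat.freeMk x)) +
    s0 π k a ((pr π k).app a (ModuleCat.freeMk x)) = ModuleCat.freeMk x
  rw [s1_apply, pr_apply, s0_apply, map_sum]
  simp only [dd_apply, li_succ]
  rw [Finset.sum_range_sub (fun j => (ModuleCat.freeMk (li π x.1.1 j) :
    (ModuleCat.free k).obj ((Cov π).obj a))), li_ex]
  abel

lemma ex_act {a : SimplexCategoryᵒᵖ} (x : (Cov π).obj a) (h : ex π x + 1 < p) :
    ex π ((covAct π (gp p 1)).app a x) = ex π x + 1 := by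
  conv_lhs => rw [← li_ex π x, li_succ]
  exact ex_li π _ _ h

lemma ex_act' {a : SimplexCategoryᵒᵖ} (x : (Cov π).obj a) (h : ex π x + 1 = p) :
    ex π ((covAct π (gp p 1)).app a x) = 0 := by
  conv_lhs => rw [← li_ex π x, li_succ, h, li_p]
  exact ex_li π _ _ (Fact.out (p := p.Prime)).pos

lemma s2_tr (a : SimplexCategoryᵒᵖ) :
    s2 π k a ≫ (tr π k).app a + (dd π k).app a ≫ s1 π k a = 𝟙 _ := by
  apply ModuleCat.free_hom_ext
  intro x
  change (tr π k).app a (s2 π k a (ModuleCat.freeMk x)) +
    s1 π k a ((dd π k).app a (ModuleCat.freeMk x)) = ModuleCat.freeMk x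
  rw [s2_apply, dd_apply, map_sub, s1_apply, s1_apply]
  by_cases h : ex π x + 1 = p
  · have h' : Finset.range p = Finset.range (ex π x + 1) := by rw [h]
    rw [if_pos h, ex_act' π x h, tr_apply, Finset.sum_range_zero, h', Finset.sum_range_succ, li_ex]
    abel
  · have h' : ex π x + 1 < p := lt_of_le_of_ne (ex_lt π x) h
    rw [if_neg h, ex_act π x h', map_zero, zero_add, Finset.sum_range_succ]
    change (_ + ModuleCat.freeMk (li π x.1.1 (ex π x))) - _ = _
    rw [li_ex]
    exact add_sub_cancel_left _ _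

lemma tr_s2 (a : SimplexCategoryᵒᵖ) : (tr π k).app a ≫ s2 π k a = 𝟙 _ := by
  apply ModuleCat.free_hom_ext
  intro c
  change s2 π k a ((tr π k).app a (ModuleCat.freeMk c)) = ModuleCat.freeMk c
  rw [tr_apply, map_sum]
  have hp : 0 < p := (Fact.out (p := p.Prime)).pos
  rw [Finset.sum_eq_single (p - 1)]
  · rw [s2_apply, ex_li _ _ _ (by omega), if_pos (by omega)]
    rfl
  · intro j hj hj'
    have := Finset.mem_range.1 hj
    rw [s2_apply, ex_li _ _ _ this, if_neg (by omega)]
  · intro h
    exact absurd (Finset.mem_range.2 (by omega)) h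


lemma dd_pr : dd π k ≫ pr π k = 0 := by
  rw [dd, pr, Preadditive.sub_comp, ← Functor.map_comp, Category.id_comp]
  exact sub_self _

lemma tr_dd : tr π k ≫ dd π k = 0 := by
  refine NatTrans.ext (funext fun a => ?_)
  apply ModuleCat.free_hom_ext
  intro c
  change (dd π k).app a ((tr π k).app a (ModuleCat.freeMk c)) = 0
  rw [tr_apply, map_sum]
  simp only [dd_apply, li_succ]
  rw [Finset.sum_range_sub (fun j => (ModuleCat.freeMk (li π c j) :
    (ModuleCat.free k).obj ((Cov π).obj a))), li_p]
  exact sub_self _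

lemma epi_pr : Epi (pr π k) := by
  have : ∀ a, Epi ((pr π k).app a) := fun a => SplitEpi.epi ⟨_, s0_pr π a⟩
  exact NatTrans.epi_of_epi_app _

/-- The short complex of the projection. -/
noncomputable def SC2 (k : Type) [Field k] : ShortComplex (SM k) :=
  ShortComplex.mk (kernel.ι (pr π k)) (pr π k) (kernel.condition _)

lemma SC2_shortExact : (SC2 π k).ShortExact := by
  have := epi_pr (k := k) π
  exact
    { exact := ShortComplex.exact_kernel _
      mono_f := by dsimp [SC2]; infer_instance
      epi_g := this }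

/-- The corestriction of `dd` to the kernel of the projection. -/
noncomputable def dbar (k : Type) [Field k] : (kk k).obj (Cov π) ⟶ kernel (pr π k) :=
  kernel.lift (pr π k) (dd π k) (dd_pr π)

lemma dbar_ι : dbar π k ≫ kernel.ι (pr π k) = dd π k := kernel.lift_ι _ _ _

/-- The short complex of the transfer. -/
noncomputable def SC1 (k : Type) [Field k] : ShortComplex (SM k) :=
  ShortComplex.mk (tr π k) (dbar π k) (by
    rw [← cancel_mono (kernel.ι (pr π k)), Category.assoc, dbar_ι, tr_dd, zero_comp])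

lemma SC1_lsplit : LSplit (SC1 π k) := by
  intro a
  have hι : (kernel.ι (pr π k)).app a ≫ (pr π k).app a = 0 :=
    congrArg (fun t => NatTrans.app t a) (kernel.condition (pr π k))
  have hd : (dbar π k).app a ≫ (kernel.ι (pr π k)).app a = (dd π k).app a :=
    congrArg (fun t => NatTrans.app t a) (dbar_ι (k := k) π)
  have hm : Mono ((kernel.ι (pr π k)).app a) := inferInstance
  exact ⟨{
    r := s2 π k a
    s := (kernel.ι (pr π k)).app a ≫ s1 π k a
    f_r := tr_s2 π a
    s_g := by
      change ((kernel.ι (pr π k)).app a ≫ s1 π k a) ≫ (dbar π k).app a = 𝟙 _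
      rw [← cancel_mono ((kernel.ι (pr π k)).app a), Category.assoc, Category.assoc, hd,
        eq_sub_of_add_eq (s1_dd π a), Preadditive.comp_sub, reassoc_of% hι, zero_comp,
        Category.comp_id, Category.id_comp, sub_zero]
    id := by
      change s2 π k a ≫ (tr π k).app a + (dbar π k).app a ≫ (kernel.ι (pr π k)).app a ≫ s1 π k a = 𝟙 _
      rw [reassoc_of% hd]
      exact s2_tr π a }⟩


section Ladder

variable {π} {π' : S' →* Multiplicative (ZMod p)} (f : S →* S') (hf : π'.comp f = π)

lemma covMap_li {a : SimplexCategoryᵒᵖ} (c : (BG S).obj a) (j : ℕ) :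
    (covMap f hf).app a (li π c j) = li π' ((BMap f).app a c) j := by
  apply Cov_ext
  · rfl
  · have h : π' (f (c.1 0 0)) = π (c.1 0 0) := DFunLike.congr_fun hf _
    change π (c.1 0 0) * gp p j = π' (f (c.1 0 0)) * gp p j
    rw [h]

lemma comm_pr : (kk k).map (covMap f hf) ≫ pr π' k = pr π k ≫ (kk k).map (BMap f) := by
  rw [pr, pr, ← Functor.map_comp, ← Functor.map_comp]
  rfl

lemma comm_dd : (kk k).map (covMap f hf) ≫ dd π' k = dd π k ≫ (kk k).map (covMap f hf) := by
  rw [dd, dd, Preadditive.comp_sub, Preadditive.sub_comp, ← Functor.map_comp, ← Functor.map_comp,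
    Category.comp_id, Category.id_comp]
  rfl

lemma comm_tr : (kk k).map (BMap f) ≫ tr π' k = tr π k ≫ (kk k).map (covMap f hf) := by
  refine NatTrans.ext (funext fun a => ?_)
  apply ModuleCat.free_hom_ext
  intro c
  change (tr π' k).app a ((ModuleCat.free k).map ((BMap f).app a) (ModuleCat.freeMk c)) =
    (ModuleCat.free k).map ((covMap f hf).app a) ((tr π k).app a (ModuleCat.freeMk c))
  rw [ModuleCat.free_map_apply, tr_apply, tr_apply, map_sum]
  refine Finset.sum_congr rfl fun j _ => ?_
  rw [ModuleCat.free_map_apply, covMap_li]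

/-- The induced map of kernels. -/
noncomputable def kerI : kernel (pr π k) ⟶ kernel (pr π' k) :=
  kernel.map _ _ ((kk k).map (covMap f hf)) ((kk k).map (BMap f)) (comm_pr f hf).symm

lemma kerI_ι : kerI (k := k) f hf ≫ kernel.ι (pr π' k) = kernel.ι (pr π k) ≫ (kk k).map (covMap f hf) :=
  kernel.lift_ι _ _ _

/-- The map of short complexes. -/
noncomputable def SC2map : SC2 π k ⟶ SC2 π' k where
  τ₁ := kerI f hf
  τ₂ := (kk k).map (covMap f hf)
  τ₃ := (kk k).map (BMap f)
  comm₁₂ := kerI_ι f hf
  comm₂₃ := comm_pr f hf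

/-- The map of short complexes. -/
noncomputable def SC1map : SC1 π k ⟶ SC1 π' k where
  τ₁ := (kk k).map (BMap f)
  τ₂ := (kk k).map (covMap f hf)
  τ₃ := kerI f hf
  comm₁₂ := comm_tr f hf
  comm₂₃ := by
    change (kk k).map (covMap f hf) ≫ dbar π' k = dbar π k ≫ kerI f hf
    rw [← cancel_mono (kernel.ι (pr π' k)), Category.assoc, Category.assoc, dbar_ι, kerI_ι,
      ← Category.assoc, dbar_ι, comm_dd]

/-- If the induced map of coverings is a homology isomorphism then so is the map of classifying
spaces. -/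
theorem isIso_of_cover (ht : ∀ n, IsIso ((Hn k n).map (covMap f hf))) (n : ℕ) :
    IsIso ((Hn k n).map (BMap f)) ∧
      IsIso (HomologicalComplex.homologyMap (ch.map (kerI (k := k) f hf)) n) := by
  have hS1 : ((SC1 π k).map ch).ShortExact := (SC1_lsplit π).shortExact
  have hS1' : ((SC1 π' k).map ch).ShortExact := (SC1_lsplit π').shortExact
  have hS2 : ((SC2 π k).map ch).ShortExact := (LSplit.of_shortExact (SC2_shortExact π)).shortExact
  have hS2' : ((SC2 π' k).map ch).ShortExact := (LSplit.of_shortExact (SC2_shortExact π')).shortExact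
  let φ1 : (SC1 π k).map ch ⟶ (SC1 π' k).map ch := ch.mapShortComplex.map (SC1map f hf)
  let φ2 : (SC2 π k).map ch ⟶ (SC2 π' k).map ch := ch.mapShortComplex.map (SC2map f hf)
  induction n using Nat.strong_induction_on with
  | _ n ih =>
    have ih1 : ∀ j, (ComplexShape.down ℕ).Rel n j → IsIso ((Hn k j).map (BMap f)) := by
      intro j hj
      have : j + 1 = n := hj
      exact (ih j (by omega)).1
    have ih2 : ∀ j, (ComplexShape.down ℕ).Rel n j →
        IsIso (HomologicalComplex.homologyMap (ch.map (kerI (k := k) f hf)) j) := by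
      intro j hj
      have : j + 1 = n := hj
      exact (ih j (by omega)).2
    have hh_epi : Epi ((Hn k n).map (BMap f)) :=
      HomologicalComplex.HomologySequence.epi_homologyMap_τ₃ φ2 hS2 hS2' n
        (by have := ht n; exact (inferInstance : Epi ((Hn k n).map (covMap f hf))))
        (fun j hj => by have := ih2 j hj; exact (inferInstance :
          Epi (HomologicalComplex.homologyMap (ch.map (kerI (k := k) f hf)) j)))
        (fun j hj => by have := ht j; exact (inferInstance : Mono ((Hn k j).map (covMap f hf))))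
    have hi_epi : Epi (HomologicalComplex.homologyMap (ch.map (kerI (k := k) f hf)) n) :=
      HomologicalComplex.HomologySequence.epi_homologyMap_τ₃ φ1 hS1 hS1' n
        (by have := ht n; exact (inferInstance : Epi ((Hn k n).map (covMap f hf))))
        (fun j hj => by have := ih1 j hj; exact (inferInstance : Epi ((Hn k j).map (BMap f))))
        (fun j hj => by have := ht j; exact (inferInstance : Mono ((Hn k j).map (covMap f hf))))
    have hh_mono : Mono ((Hn k n).map (BMap f)) :=
      HomologicalComplex.HomologySequence.mono_homologyMap_τ₃ φ2 hS2 hS2' n hi_epi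
        (by have := ht n; exact (inferInstance : Mono ((Hn k n).map (covMap f hf))))
        (fun j hj => by have := ih2 j hj; exact (inferInstance :
          Mono (HomologicalComplex.homologyMap (ch.map (kerI (k := k) f hf)) j)))
    have hi_mono : Mono (HomologicalComplex.homologyMap (ch.map (kerI (k := k) f hf)) n) :=
      HomologicalComplex.HomologySequence.mono_homologyMap_τ₃ φ1 hS1 hS1' n hh_epi
        (by have := ht n; exact (inferInstance : Mono ((Hn k n).map (covMap f hf))))
        (fun j hj => by have := ih1 j hj; exact (inferInstance : Mono ((Hn k j).map (BMap f))))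
    exact ⟨isIso_of_mono_of_epi _, isIso_of_mono_of_epi _⟩

end Ladder

end Cyclic

end Pool.Agent.W628
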