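import Mathlib
import Pool.Agent.W628.Cov

/-!
# The covering is homotopy equivalent to the classifying space of the kernel
-/

set_option backward.isDefEq.respectTransparency false
set_option backward.defeqAttrib.useBackward true

open CategoryTheory Opposite Simplicial MonoidalCategory Limits AlgebraicTopology

namespace Pool.Agent.W628

variable {S S' Q : Type} [Group S] [Group S'] [CommGroup Q] {π : S →* Q}

/-- A homotopy between maps to a covering from a family of elements of the group. -/
noncomputable def CovHomotopy {X : SSet.{0}} (f g : X ⟶ Cov π)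
    (a : ∀ (n : SimplexCategoryᵒᵖ), X.obj n → Fin (n.unop.len + 1) → S)
    (ha : ∀ {m n : SimplexCategoryᵒᵖ} (θ : m ⟶ n) (x : X.obj m) (i),
      a n (X.map θ x) i = a m x (θ.unop.toOrderHom i))
    (hfg : ∀ (n : SimplexCategoryᵒᵖ) (x : X.obj n) (i j),
      (f.app n x).1.1.1 i j * a n x j = a n x i * (g.app n x).1.1.1 i j)
    (hfg' : ∀ (n : SimplexCategoryᵒᵖ) (x : X.obj n) (i),
      (f.app n x).1.2 i = π (a n x i) * (g.app n x).1.2 i) :
    SSet.Homotopy f g where
  h :=
    { app n := ↾ fun x => ⟨⟨⟨fun i j =>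
        (glue (n := n.unop.len) (a n x.1) x.2 i)⁻¹ * (f.app n x.1).1.1.1 i j *
          glue (n := n.unop.len) (a n x.1) x.2 j, by
        intro i j k
        have e := (f.app n x.1).1.1.2 i j k
        beta_reduce
        rw [← e]
        group⟩, fun i => (π (glue (n := n.unop.len) (a n x.1) x.2 i))⁻¹ * (f.app n x.1).1.2 i⟩, by
        intro i j
        have e := (f.app n x.1).2 i j
        change (π (glue (n := n.unop.len) (a n x.1) x.2 i))⁻¹ * (f.app n x.1).1.2 i =
          π ((glue (n := n.unop.len) (a n x.1) x.2 i)⁻¹ * (f.app n x.1).1.1.1 i j *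
            glue (n := n.unop.len) (a n x.1) x.2 j) *
            ((π (glue (n := n.unop.len) (a n x.1) x.2 j))⁻¹ * (f.app n x.1).1.2 j)
        rw [e]
        simp only [map_mul, map_inv]
        group⟩
      naturality m n θ := by
        ext ⟨x, χ⟩
        have e1 : ∀ i, glue (n := n.unop.len) (a n (X.map θ x)) ((Δ[1] : SSet.{0}).map θ χ) i =
            glue (n := m.unop.len) (a m x) χ (θ.unop.toOrderHom i) := by
          intro i
          simp only [glue, ha]
          rfl
        have this := congrArg (fun t => (t : X.obj m ⟶ (Cov π).obj n) x) (f.naturality θ)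
        have this' : f.app n (X.map θ x) = (Cov π).map θ (f.app m x) := this
        apply Cov_ext
        · refine BG_ext (G := S) fun i j => ?_
          change (glue (n := n.unop.len) (a n (X.map θ x)) ((Δ[1] : SSet.{0}).map θ χ) i)⁻¹ *
            (f.app n (X.map θ x)).1.1.1 i j * glue (n := n.unop.len) (a n (X.map θ x)) ((Δ[1] : SSet.{0}).map θ χ) j =
            (glue (n := m.unop.len) (a m x) χ (θ.unop.toOrderHom i))⁻¹ *
            (f.app m x).1.1.1 (θ.unop.toOrderHom i) (θ.unop.toOrderHom j) *
              glue (n := m.unop.len) (a m x) χ (θ.unop.toOrderHom j)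
          rw [e1, e1, this']
          rfl
        · change (π (glue (n := n.unop.len) (a n (X.map θ x)) ((Δ[1] : SSet.{0}).map θ χ) 0))⁻¹ *
            (f.app n (X.map θ x)).1.2 0 =
            (π (glue (n := m.unop.len) (a m x) χ (θ.unop.toOrderHom 0)))⁻¹ *
            (f.app m x).1.2 (θ.unop.toOrderHom 0)
          rw [e1, this']
          rfl }
  h₀ := by
    ext n x
    have e : ∀ (i : Fin (n.unop.len + 1)), glue (n := n.unop.len) (a n x) (((SSet.ι₀ : X ⟶ _).app n x).2) i = 1 :=
      fun i => if_pos rfl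
    apply Cov_ext
    · refine BG_ext (G := S) fun i j => ?_
      change (glue (n := n.unop.len) (a n x) (((SSet.ι₀ : X ⟶ _).app n x).2) i)⁻¹ * (f.app n x).1.1.1 i j *
        glue (n := n.unop.len) (a n x) (((SSet.ι₀ : X ⟶ _).app n x).2) j = (f.app n x).1.1.1 i j
      rw [e, e]
      simp
    · change (π (glue (n := n.unop.len) (a n x) (((SSet.ι₀ : X ⟶ _).app n x).2) 0))⁻¹ * (f.app n x).1.2 0 =
        (f.app n x).1.2 0
      rw [e]
      simp
  h₁ := by
    ext n x
    have e : ∀ (i : Fin (n.unop.len + 1)), glue (n := n.unop.len) (a n x) (((SSet.ι₁ : X ⟶ _).app n x).2) i = a n x i :=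
      fun i => if_neg (show ¬ ((1 : Fin 2) = 0) by decide)
    apply Cov_ext
    · refine BG_ext (G := S) fun i j => ?_
      change (glue (n := n.unop.len) (a n x) (((SSet.ι₁ : X ⟶ _).app n x).2) i)⁻¹ * (f.app n x).1.1.1 i j *
        glue (n := n.unop.len) (a n x) (((SSet.ι₁ : X ⟶ _).app n x).2) j = (g.app n x).1.1.1 i j
      rw [e, e, mul_assoc, hfg, inv_mul_cancel_left]
    · change (π (glue (n := n.unop.len) (a n x) (((SSet.ι₁ : X ⟶ _).app n x).2) 0))⁻¹ * (f.app n x).1.2 0 =
        (g.app n x).1.2 0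
      rw [e, hfg', inv_mul_cancel_left]
  rel := by
    ext n x
    exact x.1.2.elim

variable (π) in
/-- The inclusion of the classifying space of the kernel. -/
def covFib : BG π.ker ⟶ Cov π where
  app a := ↾ fun x => ⟨((BMap π.ker.subtype).app a x, fun _ => 1), fun i j => by
    change 1 = π (x.1 i j).1 * 1
    rw [(x.1 i j).2, one_mul]⟩

/-- The retraction to the classifying space of the kernel given by a section. -/
def covRet (t : Q → S) (ht : ∀ q, π (t q) = q) : Cov π ⟶ BG π.ker where
  app a := ↾ fun x => ⟨fun i j => ⟨(t (x.1.2 i))⁻¹ * x.1.1.1 i j * t (x.1.2 j), by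
    rw [MonoidHom.mem_ker, map_mul, map_mul, map_inv, ht, ht, mul_assoc, ← x.2 i j, inv_mul_cancel]⟩, by
    intro i j k
    apply Subtype.ext
    change (t (x.1.2 i))⁻¹ * x.1.1.1 i j * t (x.1.2 j) * ((t (x.1.2 j))⁻¹ * x.1.1.1 j k * t (x.1.2 k)) =
      (t (x.1.2 i))⁻¹ * x.1.1.1 i k * t (x.1.2 k)
    rw [← x.1.1.2 i j k]
    group⟩

/-- The composite of the retraction and the inclusion is homotopic to the identity. -/
noncomputable def covRetHomotopy (t : Q → S) (ht : ∀ q, π (t q) = q) :
    SSet.Homotopy (covRet t ht ≫ covFib π) (𝟙 (Cov π)) :=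
  CovHomotopy _ _ (fun _ x i => (t (x.1.2 i))⁻¹) (fun _ _ _ => rfl)
    (fun n x i j => by
      change (t (x.1.2 i))⁻¹ * x.1.1.1 i j * t (x.1.2 j) * (t (x.1.2 j))⁻¹ = (t (x.1.2 i))⁻¹ * x.1.1.1 i j
      rw [mul_inv_cancel_right])
    (fun n x i => by
      change 1 = π (t (x.1.2 i))⁻¹ * x.1.2 i
      rw [map_inv, ht, inv_mul_cancel])

lemma covFib_covRet (t : Q → S) (ht : ∀ q, π (t q) = q) (h1 : t 1 = 1) :
    covFib π ≫ covRet t ht = 𝟙 _ := by
  ext a x
  refine BG_ext fun i j => ?_
  apply Subtype.ext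
  change (t 1)⁻¹ * (x.1 i j).1 * t 1 = (x.1 i j).1
  rw [h1]
  simp

variable {k : Type} [Field k]

/-- The inclusion of the classifying space of the kernel is a homology isomorphism. -/
theorem covFib_isIso (hπ : Function.Surjective π) (n : ℕ) : IsIso ((Hn k n).map (covFib π)) := by
  classical
  let t : Q → S := fun q => if q = 1 then 1 else Function.surjInv hπ q
  have ht : ∀ q, π (t q) = q := by
    intro q
    by_cases h : q = 1
    · simp [t, h]
    · simp [t, h, Function.surjInv_eq hπ]
  have h1 : t 1 = 1 := if_pos rfl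
  refine ⟨(Hn k n).map (covRet t ht), ?_, ?_⟩
  · rw [← Functor.map_comp, covFib_covRet t ht h1]
    exact (Hn k n).map_id _
  · rw [← Functor.map_comp, Hn_homotopy (covRetHomotopy t ht) n]
    exact (Hn k n).map_id _

end Pool.Agent.W628
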