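import Mathlib
import Pool.Agent.W628.Kill

/-!
# The tower of finite `p`-groups
-/

set_option backward.isDefEq.respectTransparency false
set_option backward.defeqAttrib.useBackward true

open CategoryTheory Opposite Simplicial MonoidalCategory Limits AlgebraicTopology

namespace Pool.Agent.W628

variable (p : ℕ) [Fact p.Prime]

/-- The cyclic group of order `p`. -/
abbrev Cp : Type := Multiplicative (ZMod p)

/-- A finite `p`-group with a surjection to the cyclic group of order `p` that kills all elements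
of order `p`. -/
structure Ob where
  S : Type
  [grp : Group S]
  π : S →* Cp p
  fin : Finite S
  pg : IsPGroup p S
  surj : Function.Surjective π
  star : ∀ s : S, s ^ p = 1 → π s = 1

attribute [instance] Ob.grp

/-- The elementary abelian group of rank `r`. -/
abbrev El (r : ℕ) : Type := Multiplicative (Fin r → ZMod p)

/-- The set of cosets of all cyclic subgroups. -/
abbrev Xs (r : ℕ) : Type := Σ v : El p r, El p r ⧸ Subgroup.zpowers v

instance (r : ℕ) : MulAction (El p r) (Xs p r) where
  smul l x := ⟨x.1, l • x.2⟩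
  one_smul x := by
    change (⟨x.1, (1 : El p r) • x.2⟩ : Xs p r) = x
    rw [one_smul]
  mul_smul l l' x := by
    change (⟨x.1, (l * l') • x.2⟩ : Xs p r) = ⟨x.1, l • l' • x.2⟩
    rw [mul_smul]

lemma smul_def' {r : ℕ} (l : El p r) (x : Xs p r) : l • x = ⟨x.1, l • x.2⟩ := rfl

noncomputable instance (r : ℕ) : Fintype (Xs p r) := by
  classical
  exact Fintype.ofFinite _

noncomputable instance (r : ℕ) : DecidableEq (Xs p r) := Classical.decEq _

lemma exists_fixed {r : ℕ} (l : El p r) : ∃ x : Xs p r, l • x = x := by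
  refine ⟨⟨l, ((1 : El p r) : El p r ⧸ Subgroup.zpowers l)⟩, ?_⟩
  rw [smul_def']
  congr 1
  change ((l * 1 : El p r) : El p r ⧸ Subgroup.zpowers l) = ((1 : El p r) : El p r ⧸ Subgroup.zpowers l)
  rw [QuotientGroup.eq]
  simp

lemma El_pow {r : ℕ} (v : El p r) : v ^ p = 1 := by
  change Multiplicative.ofAdd (p • v.toAdd) = 1
  have : p • v.toAdd = 0 := by
    funext i
    simp
  rw [this]
  rfl

lemma El_card (r : ℕ) : Nat.card (El p r) = p ^ r := by
  have : Nat.card (El p r) = Nat.card (Fin r → ZMod p) := Nat.card_congr Multiplicative.toAdd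
  rw [this]
  simp

lemma El_isPGroup (r : ℕ) : IsPGroup p (El p r) := IsPGroup.of_card (El_card p r)

/-- Nonempty invariant subsets are big. -/
lemma card_invariant {r n : ℕ} (hr : n < r) (Z : Finset (Xs p r)) (hZ : Z.Nonempty)
    (hn : Z.card ≤ n) : ∃ l : El p r, Z.image (l • ·) ≠ Z := by
  by_contra hcon
  have hcon' : ∀ l : El p r, Z.image (l • ·) = Z := fun l => by
    by_contra h
    exact hcon ⟨l, h⟩
  obtain ⟨⟨v, x⟩, hx⟩ := hZ
  have hp : p.Prime := Fact.out
  have h1 : Nat.card (El p r ⧸ Subgroup.zpowers v) ≤ Z.card := by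
    have hmem : ∀ y : El p r ⧸ Subgroup.zpowers v, (⟨v, y⟩ : Xs p r) ∈ Z := by
      intro y
      obtain ⟨a, rfl⟩ := QuotientGroup.mk_surjective x
      obtain ⟨b, rfl⟩ := QuotientGroup.mk_surjective y
      have := Finset.mem_image_of_mem (fun z : Xs p r => (b * a⁻¹) • z) hx
      rw [hcon'] at this
      have e : (b * a⁻¹) • (⟨v, (a : El p r ⧸ Subgroup.zpowers v)⟩ : Xs p r) =
          ⟨v, (b : El p r ⧸ Subgroup.zpowers v)⟩ := by
        rw [smul_def']
        congr 1
        change ((b * a⁻¹ * a : El p r) : El p r ⧸ Subgroup.zpowers v) = _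
        rw [inv_mul_cancel_right]
      rwa [e] at this
    have := Nat.card_le_card_of_injective
      (fun y : El p r ⧸ Subgroup.zpowers v => (⟨⟨v, y⟩, hmem y⟩ : {z // z ∈ Z})) (by
        intro y y' h
        have h' : (⟨v, y⟩ : Xs p r) = ⟨v, y'⟩ := congrArg Subtype.val h
        simpa using h')
    simpa using this
  have h2 : Nat.card (Subgroup.zpowers v) ≤ p := by
    rw [Nat.card_zpowers]
    exact Nat.le_of_dvd hp.pos (orderOf_dvd_of_pow_eq_one (El_pow p v))
  have h3 : Nat.card (El p r) = Nat.card (El p r ⧸ Subgroup.zpowers v) * Nat.card (Subgroup.zpowers v) :=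
    Subgroup.card_eq_card_quotient_mul_card_subgroup _
  rw [El_card] at h3
  obtain ⟨s, rfl⟩ : ∃ s, r = s + 1 := ⟨r - 1, by omega⟩
  have h4 : p ^ s * p ≤ Nat.card (El p (s + 1) ⧸ Subgroup.zpowers v) * p := by
    rw [← pow_succ, h3]
    exact Nat.mul_le_mul_left _ h2
  have h5 : p ^ s ≤ Nat.card (El p (s + 1) ⧸ Subgroup.zpowers v) :=
    Nat.le_of_mul_le_mul_right h4 hp.pos
  have h6 : s < p ^ s := Nat.lt_pow_self hp.one_lt
  omega


section Step

variable {p} (o : Ob p) (r : ℕ)

/-- The permutational wreath product. -/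
abbrev Wr : Type := (Xs p r → o.S) ⋊[mulAutArrow] (El p r)

variable {o r} in
lemma mulAutArrow_apply' (l : El p r) (s : Xs p r → o.S) (x : Xs p r) :
    (mulAutArrow l s) x = s (l⁻¹ • x) := rfl

/-- The subgroup of the wreath product of the elements whose coordinates have equal images. -/
def stepSub : Subgroup (Wr o r) where
  carrier := {w | ∀ x y, o.π (w.left x) = o.π (w.left y)}
  mul_mem' {w w'} h h' x y := by
    change o.π (w.left x * w'.left (w.right⁻¹ • x)) = o.π (w.left y * w'.left (w.right⁻¹ • y))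
    rw [map_mul, map_mul, h x y, h' (w.right⁻¹ • x) (w.right⁻¹ • y)]
  one_mem' x y := rfl
  inv_mem' {w} h x y := by
    change o.π ((mulAutArrow w.right⁻¹ w.left⁻¹) x) = o.π ((mulAutArrow w.right⁻¹ w.left⁻¹) y)
    rw [mulAutArrow_apply', mulAutArrow_apply', Pi.inv_apply, Pi.inv_apply, map_inv, map_inv,
      h ((w.right⁻¹)⁻¹ • x) ((w.right⁻¹)⁻¹ • y)]

/-- The base point of the set of cosets. -/
def x0 : Xs p r := ⟨1, ((1 : El p r) : El p r ⧸ Subgroup.zpowers 1)⟩

/-- The projection of the next group. -/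
def stepπ : stepSub o r →* Cp p where
  toFun w := o.π (w.1.left (x0 r))
  map_one' := by
    change o.π 1 = 1
    exact map_one _
  map_mul' w w' := by
    change o.π (w.1.left (x0 r) * w'.1.left (w.1.right⁻¹ • x0 r)) = _
    rw [map_mul, w'.2 (w.1.right⁻¹ • x0 r) (x0 r)]

/-- The diagonal embedding. -/
def stepf : o.S →* stepSub o r where
  toFun s := ⟨⟨fun _ => s, 1⟩, fun _ _ => rfl⟩
  map_one' := rfl
  map_mul' s t := by
    apply Subtype.ext
    apply SemidirectProduct.ext
    · funext x
      rfl
    · change (1 : El p r) = 1 * 1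
      simp

lemma stepf_injective : Function.Injective (stepf o r) := by
  intro s t h
  have := congrArg (fun w => w.1.left (x0 r)) h
  exact this

lemma stepπ_stepf : (stepπ o r).comp (stepf o r) = o.π := rfl

lemma step_pow (w : Wr o r) (x : Xs p r) (hx : w.right • x = x) (k : ℕ) :
    (w ^ k).left x = (w.left x) ^ k ∧ (w ^ k).right • x = x := by
  induction k with
  | zero =>
    refine ⟨?_, by simp⟩
    rw [pow_zero, pow_zero]
    rfl
  | succ k ih =>
    obtain ⟨h1, h2⟩ := ih
    constructor
    · rw [pow_succ, pow_succ]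
      change (w ^ k).left x * w.left ((w ^ k).right⁻¹ • x) = _
      have : (w ^ k).right⁻¹ • x = x := by
        rw [inv_smul_eq_iff, h2]
      rw [this, h1]
    · rw [pow_succ]
      change ((w ^ k).right * w.right) • x = x
      rw [mul_smul, hx, h2]

lemma step_star (w : stepSub o r) (hw : w ^ p = 1) : stepπ o r w = 1 := by
  obtain ⟨x, hx⟩ := exists_fixed p w.1.right
  have h1 := (step_pow o r w.1 x hx p).1
  have h2 : (w.1 ^ p).left x = 1 := by
    have : w.1 ^ p = 1 := congrArg Subtype.val hw
    rw [this]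
    rfl
  rw [h2] at h1
  have h3 := o.star _ h1.symm
  change o.π (w.1.left (x0 r)) = 1
  rw [w.2 (x0 r) x, h3]


instance step_finite : Finite (stepSub o r) := by
  have := o.fin
  have : Finite (Wr o r) :=
    Finite.of_equiv ((Xs p r → o.S) × El p r) SemidirectProduct.equivProd.symm
  infer_instance

lemma step_isPGroup : IsPGroup p (stepSub o r) := by
  have := o.fin
  obtain ⟨a, ha⟩ := (IsPGroup.iff_card (p := p) (G := o.S)).1 o.pg
  have h1 : Nat.card (Wr o r) = p ^ (a * Fintype.card (Xs p r) + r) := by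
    rw [SemidirectProduct.card, El_card, Nat.card_fun, ha, pow_add, pow_mul, Nat.card_eq_fintype_card]
  exact (IsPGroup.of_card h1).to_subgroup _

/-- The next group. -/
def step : Ob p where
  S := stepSub o r
  π := stepπ o r
  fin := step_finite o r
  pg := step_isPGroup o r
  surj := fun q => by
    obtain ⟨s, hs⟩ := o.surj q
    exact ⟨stepf o r s, hs⟩
  star := step_star o r

/-- The map induced on kernels by the diagonal embedding. -/
def kerMap {S S' Q : Type} [Group S] [Group S'] [Group Q] (π : S →* Q) (π' : S' →* Q)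
    (f : S →* S') (hf : π'.comp f = π) : π.ker →* π'.ker :=
  (f.comp π.ker.subtype).codRestrict π'.ker (fun s => (DFunLike.congr_fun hf s.1).trans s.2)

/-- **Killing the homology of the kernels.** -/
theorem step_kill (k : Type) [Field k] [CharP k p] (n : ℕ) (hn : n ≠ 0) (hr : n < r) :
    (Hn k n).map (BMap (kerMap o.π (stepπ o r) (stepf o r) (stepπ_stepf o r))) = 0 := by
  let j : (Xs p r → o.π.ker) →* (stepπ o r).ker :=
    { toFun := fun f => ⟨⟨⟨fun x => (f x).1, 1⟩, fun x y => by
          change o.π (f x).1 = o.π (f y).1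
          rw [(f x).2, (f y).2]⟩, (f (x0 r)).2⟩
      map_one' := rfl
      map_mul' := fun f g => by
        apply Subtype.ext
        apply Subtype.ext
        apply SemidirectProduct.ext
        · funext x
          change (f x).1 * (g x).1 = (f x).1 * (g ((1 : El p r)⁻¹ • x)).1
          rw [inv_one, one_smul]
        · change (1 : El p r) = 1 * 1
          simp }
  let w : El p r → (stepπ o r).ker := fun l => ⟨⟨⟨1, l⟩, fun _ _ => rfl⟩, map_one o.π⟩
  have hw : ∀ l f, w l * j f = j (fun x => f (l⁻¹ • x)) * w l := by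
    intro l f
    apply Subtype.ext
    apply Subtype.ext
    apply SemidirectProduct.ext
    · funext x
      change (1 : o.S) * (f (l⁻¹ • x)).1 = (f (l⁻¹ • x)).1 * 1
      rw [one_mul, mul_one]
    · change l * 1 = 1 * l
      simp
  have h := kill (k := k) (El_isPGroup p r) j w hw n hn
    (fun Z hZ hc => card_invariant p hr Z hZ hc)
  have e : j.comp (pd Finset.univ) = kerMap o.π (stepπ o r) (stepf o r) (stepπ_stepf o r) := by
    refine MonoidHom.ext fun g => ?_
    apply Subtype.ext
    apply Subtype.ext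
    apply SemidirectProduct.ext
    · funext x
      change ((pd Finset.univ g x : o.π.ker) : o.S) = g.1
      rw [pd_apply, if_pos (Finset.mem_univ x)]
    · rfl
  rwa [e] at h

end Step

/-- The first group: the cyclic group of order `p ^ 2`. -/
noncomputable def base : Ob p where
  S := Multiplicative (ZMod (p ^ 2))
  π := AddMonoidHom.toMultiplicative
    (ZMod.castHom (Dvd.intro_left p (by ring)) (ZMod p) : ZMod (p ^ 2) →+* ZMod p).toAddMonoidHom
  fin := by
    have : NeZero (p ^ 2) := ⟨pow_ne_zero _ (Fact.out (p := p.Prime)).ne_zero⟩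
    infer_instance
  pg := by
    apply IsPGroup.of_card (n := 2)
    have : Nat.card (Multiplicative (ZMod (p ^ 2))) = Nat.card (ZMod (p ^ 2)) :=
      Nat.card_congr Multiplicative.toAdd
    rw [this, Nat.card_zmod]
  surj := fun q => by
    obtain ⟨s, hs⟩ := ZMod.castHom_surjective (n := p ^ 2) (m := p) (Dvd.intro_left p (by ring)) q.toAdd
    exact ⟨Multiplicative.ofAdd s, hs⟩
  star := fun s hs => by
    have : NeZero (p ^ 2) := ⟨pow_ne_zero _ (Fact.out (p := p.Prime)).ne_zero⟩
    have hp : p.Prime := Fact.out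
    change ((ZMod.castHom (Dvd.intro_left p (by ring)) (ZMod p) : ZMod (p ^ 2) →+* ZMod p) s.toAdd) = 0
    have h1 : (p : ZMod (p ^ 2)) * s.toAdd = 0 := by
      rw [← nsmul_eq_mul]
      exact hs
    obtain ⟨m, hm⟩ : ∃ m : ℕ, s.toAdd = (m : ZMod (p ^ 2)) := ⟨s.toAdd.val, by simp⟩
    rw [hm] at h1 ⊢
    rw [map_natCast]
    rw [← Nat.cast_mul, ZMod.natCast_eq_zero_iff, pow_two] at h1
    rw [ZMod.natCast_eq_zero_iff]
    exact Nat.dvd_of_mul_dvd_mul_left hp.pos h1

end Pool.Agent.W628
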