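import Mathlib
import Pool.Agent.W628.Kill

/-!
# Homology of an increasing union of groups
-/

set_option backward.isDefEq.respectTransparency false
set_option backward.defeqAttrib.useBackward true

open CategoryTheory Opposite Simplicial MonoidalCategory Limits AlgebraicTopology

namespace Pool.Agent.W628

section Elem

variable {k : Type} [Field k]

lemma elem_of_map_zero {K L : ChainComplex (ModuleCat.{0} k) ℕ} (φ : K ⟶ L) (n : ℕ)
    (h : HomologicalComplex.homologyMap φ n = 0) (x : K.X n)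
    (hx : K.d n ((ComplexShape.down ℕ).next n) x = 0) : ∃ y : L.X (n + 1), L.d (n + 1) n y = φ.f n x := by
  let x₂ : ModuleCat.of k k ⟶ K.X n := ModuleCat.ofHom (LinearMap.toSpanSingleton k (K.X n) x)
  have hx₂ : x₂ ≫ K.d n ((ComplexShape.down ℕ).next n) = 0 := by
    ext
    change K.d n ((ComplexShape.down ℕ).next n) ((1 : k) • x) = 0
    rw [one_smul, hx]
  have h1 : (x₂ ≫ φ.f n) ≫ L.d n ((ComplexShape.down ℕ).next n) = 0 := by
    rw [Category.assoc, φ.comm, reassoc_of% hx₂, zero_comp]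
  have h2 : L.liftCycles (x₂ ≫ φ.f n) _ rfl h1 ≫ L.homologyπ n = 0 := by
    have : L.liftCycles (x₂ ≫ φ.f n) _ rfl h1 =
      K.liftCycles x₂ _ rfl hx₂ ≫ HomologicalComplex.cyclesMap φ n := by
      rw [← cancel_mono (L.iCycles n)]
      simp
    rw [this, Category.assoc, ← HomologicalComplex.homologyπ_naturality, h, comp_zero, comp_zero]
  rw [HomologicalComplex.liftCycles_comp_homologyπ_eq_zero_iff_up_to_refinements (i := n + 1) _ _ _
    (by simp)] at h2
  obtain ⟨A', π, hπ, x₁, hx₁⟩ := h2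
  obtain ⟨a, ha⟩ := (ModuleCat.epi_iff_surjective π).1 hπ (1 : k)
  refine ⟨x₁ a, ?_⟩
  have := congrArg (fun t => (t : A' ⟶ L.X n) a) hx₁
  change φ.f n (x₂ (π a)) = L.d (n + 1) n (x₁ a) at this
  rw [← this, ha]
  change φ.f n ((1 : k) • x) = _
  rw [one_smul]

lemma exactAt_of_elem (K : ChainComplex (ModuleCat.{0} k) ℕ) (n : ℕ)
    (h : ∀ x : K.X n, K.d n ((ComplexShape.down ℕ).next n) x = 0 → ∃ y : K.X (n + 1), K.d (n + 1) n y = x) :
    K.ExactAt n := by
  rw [K.exactAt_iff' (n + 1) n _ (by simp) rfl, ShortComplex.moduleCat_exact_iff]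
  exact h

end Elem


section Union

variable {k : Type} [Field k]
variable {N : ℕ → Type} [∀ m, Group (N m)] {g : ∀ m, N m →* N (m + 1)} {T : Type} [Group T]
  {ι : ∀ m, N m →* T}

include g in
lemma union_trans (hι : ∀ m, (ι (m + 1)).comp (g m) = ι m) {m m' : ℕ} (h : m ≤ m') :
    ∃ φ : N m →* N m', (ι m').comp φ = ι m := by
  induction m', h using Nat.le_induction with
  | base => exact ⟨MonoidHom.id _, rfl⟩
  | succ m' _ ih =>
    obtain ⟨φ, hφ⟩ := ih
    refine ⟨(g m').comp φ, ?_⟩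
    rw [← MonoidHom.comp_assoc, hι, hφ]

include g in
lemma union_family (hι : ∀ m, (ι (m + 1)).comp (g m) = ι m) (surj : ∀ t, ∃ m s, ι m s = t)
    {J : Type} [Finite J] (t : J → T) (M : ℕ) : ∃ m, M ≤ m ∧ ∃ s : J → N m, ∀ j, ι m (s j) = t j := by
  classical
  cases nonempty_fintype J
  choose μ s hs using fun j => surj (t j)
  let m := M + ∑ j, μ j
  have hm : ∀ j, μ j ≤ m := fun j =>
    (Finset.single_le_sum (fun _ _ => Nat.zero_le _) (Finset.mem_univ j)).trans (Nat.le_add_left _ _)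
  choose φ hφ using fun j => union_trans (g := g) hι (hm j)
  refine ⟨m, Nat.le_add_right _ _, fun j => φ j (s j), fun j => ?_⟩
  rw [← hs j, ← hφ j]
  rfl

include g in
lemma union_simplex (hι : ∀ m, (ι (m + 1)).comp (g m) = ι m) (surj : ∀ t, ∃ m s, ι m s = t)
    (a : SimplexCategoryᵒᵖ) (c : (BG T).obj a) (M : ℕ) :
    ∃ m, M ≤ m ∧ ∃ c' : (BG (N m)).obj a, (BMap (ι m)).app a c' = c := by
  obtain ⟨m, hm, s, hs⟩ := union_family (g := g) hι surj (fun j => c.1 0 j) M
  refine ⟨m, hm, ⟨fun i j => (s i)⁻¹ * s j, fun i j l => by group⟩, ?_⟩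
  refine BG_ext fun i j => ?_
  change ι m ((s i)⁻¹ * s j) = c.1 i j
  rw [map_mul, map_inv, hs, hs, inv_mul_eq_iff_eq_mul, c.2]

lemma chk_comp_apply {A B C : Type} [Group A] [Group B] [Group C] (φ : A →* B) (ψ : B →* C)
    (n : ℕ) (x : ((chk k).obj (BG A)).X n) :
    ((chk k).map (BMap ψ)).f n (((chk k).map (BMap φ)).f n x) =
      ((chk k).map (BMap (ψ.comp φ))).f n x := by
  rw [BMap_comp, Functor.map_comp]
  rfl

include g in
lemma union_chain (hι : ∀ m, (ι (m + 1)).comp (g m) = ι m) (surj : ∀ t, ∃ m s, ι m s = t)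
    (n : ℕ) (x : ((chk k).obj (BG T)).X n) (M : ℕ) :
    ∃ m, M ≤ m ∧ ∃ x' : ((chk k).obj (BG (N m))).X n, ((chk k).map (BMap (ι m))).f n x' = x := by
  change (BG T _⦋n⦌ →₀ k) at x
  induction x using Finsupp.induction_linear with
  | zero => exact ⟨M, le_rfl, 0, map_zero _⟩
  | add x y hx hy =>
    obtain ⟨m₁, hm₁, x', hx'⟩ := hx
    obtain ⟨m₂, hm₂, y', hy'⟩ := hy
    obtain ⟨φ₁, hφ₁⟩ := union_trans (g := g) hι (Nat.le_add_right m₁ m₂)
    obtain ⟨φ₂, hφ₂⟩ := union_trans (g := g) hι (Nat.le_add_left m₂ m₁)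
    refine ⟨m₁ + m₂, by omega, ((chk k).map (BMap φ₁)).f n x' + ((chk k).map (BMap φ₂)).f n y', ?_⟩
    rw [map_add, chk_comp_apply, chk_comp_apply, hφ₁, hφ₂, hx', hy']
  | single c b =>
    obtain ⟨m, hm, c', hc'⟩ := union_simplex (g := g) hι surj _ c M
    refine ⟨m, hm, (Finsupp.single c' b : BG (N m) _⦋n⦌ →₀ k), ?_⟩
    refine (Finsupp.mapDomain_single).trans ?_
    congr 1


lemma chk_injective {A B : Type} [Group A] [Group B] (φ : A →* B) (hφ : Function.Injective φ)
    (n : ℕ) : Function.Injective (((chk k).map (BMap φ)).f n) := by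
  have : Function.Injective ((BMap φ).app (op ⦋n⦌)) := by
    intro x y h
    refine BG_ext fun i j => hφ ?_
    have := congrArg (fun z => z.1 i j) h
    exact this
  exact Finsupp.mapDomain_injective this

/-- If the homology of the stages is killed then the union is acyclic. -/
theorem union_exactAt (hι : ∀ m, (ι (m + 1)).comp (g m) = ι m) (inj : ∀ m, Function.Injective (ι m))
    (surj : ∀ t, ∃ m s, ι m s = t) (n : ℕ) (M : ℕ)
    (hkill : ∀ m, M ≤ m → (Hn k n).map (BMap (g m)) = 0) :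
    ((chk k).obj (BG T)).ExactAt n := by
  apply exactAt_of_elem
  intro x hx
  obtain ⟨m, hm, x', rfl⟩ := union_chain (g := g) hι surj n x M
  have hx' : ((chk k).obj (BG (N m))).d n ((ComplexShape.down ℕ).next n) x' = 0 := by
    apply chk_injective (ι m) (inj m)
    rw [map_zero, ← hx]
    have := ((chk k).map (BMap (ι m))).comm n ((ComplexShape.down ℕ).next n)
    exact (congrArg (fun t => (t : ((chk k).obj (BG (N m))).X n ⟶ _) x') this).symm
  obtain ⟨y, hy⟩ := elem_of_map_zero _ n (hkill m hm) x' hx'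
  refine ⟨((chk k).map (BMap (ι (m + 1)))).f (n + 1) y, ?_⟩
  have h1 := ((chk k).map (BMap (ι (m + 1)))).comm (n + 1) n
  have h2 := congrArg (fun t => (t : ((chk k).obj (BG (N (m + 1)))).X (n + 1) ⟶ _) y) h1
  change ((chk k).obj (BG T)).d (n + 1) n (((chk k).map (BMap (ι (m + 1)))).f (n + 1) y) =
    ((chk k).map (BMap (ι (m + 1)))).f n (((chk k).obj (BG (N (m + 1)))).d (n + 1) n y) at h2
  rw [h2, hy]
  change ((chk k).map (BMap (ι (m + 1)))).f n (((chk k).map (BMap (g m))).f n x') = _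
  rw [chk_comp_apply, hι]

end Union

end Pool.Agent.W628
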