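import Mathlib
import Pool.Agent.W628.Tower
import Pool.Agent.W628.Shapiro
import Pool.Agent.W628.Union

/-!
# The direct limit of the tower
-/

set_option backward.isDefEq.respectTransparency false
set_option backward.defeqAttrib.useBackward true

open CategoryTheory Opposite Simplicial MonoidalCategory Limits AlgebraicTopology

namespace Pool.Agent.W628

/-- Existence of direct limits of groups. -/
theorem exists_direct_limit {S : ℕ → Type} [∀ m, Group (S m)] {Q : Type} [Group Q]
    (f : ∀ m, S m →* S (m + 1)) (π : ∀ m, S m →* Q) (hf : ∀ m, Function.Injective (f m))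
    (hπ : ∀ m, (π (m + 1)).comp (f m) = π m) :
    ∃ (T : Type) (_ : Group T) (ι : ∀ m, S m →* T) (πT : T →* Q),
      (∀ m, (ι (m + 1)).comp (f m) = ι m) ∧ (∀ m, Function.Injective (ι m)) ∧
        (∀ t, ∃ m s, ι m s = t) ∧ (∀ m, πT.comp (ι m) = π m) := by
  let X : ℕ → GrpCat.{0} := fun m => GrpCat.of (S m)
  let F : ℕ ⥤ GrpCat.{0} := Functor.ofSequence (X := X) (fun m => GrpCat.ofHom (f m))
  have hF : ∀ m, F.map (homOfLE (Nat.le_add_right m 1)) = GrpCat.ofHom (f m) :=
    fun m => Functor.ofSequence_map_homOfLE_succ _ m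
  have hFinj : ∀ (i j : ℕ) (h : i ≤ j), Function.Injective (F.map (homOfLE h)) := by
    intro i j h
    induction j, h using Nat.le_induction with
    | base =>
      have : F.map (homOfLE (le_refl i)) = 𝟙 _ := F.map_id i
      rw [this]
      exact fun _ _ h => h
    | succ j hij ih =>
      have : F.map (homOfLE (hij.trans (Nat.le_add_right j 1))) =
          F.map (homOfLE hij) ≫ F.map (homOfLE (Nat.le_add_right j 1)) := by
        rw [← F.map_comp]
        rfl
      have h2 : Function.Injective (F.map (homOfLE (Nat.le_add_right j 1))) := by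
        rw [hF]; exact hf j
      intro x y hxy
      rw [this] at hxy
      exact ih (h2 hxy)
  let c : Cocone F := 
    { pt := GrpCat.of Q
      ι := NatTrans.ofSequence (fun m => GrpCat.ofHom (π m)) (fun m => by
        rw [hF]
        ext x
        exact DFunLike.congr_fun (hπ m) x) }
  let c₀ := GrpCat.FilteredColimits.colimitCocone F
  let h₀ : IsColimit c₀ := GrpCat.FilteredColimits.colimitCoconeIsColimit F
  refine ⟨c₀.pt, inferInstance, fun m => (c₀.ι.app m).hom, (h₀.desc c).hom, ?_, ?_, ?_, ?_⟩
  · intro m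
    have := c₀.w (homOfLE (Nat.le_add_right m 1))
    rw [hF] at this
    exact congrArg GrpCat.Hom.hom this
  · intro m x y hxy
    have hc := isColimitOfPreserves (forget GrpCat) h₀
    obtain ⟨j, g, hg⟩ := (Types.FilteredColimit.isColimit_eq_iff' hc (i := m) x y).1 hxy
    exact hFinj m j (leOfHom g) hg
  · intro t
    have hc := isColimitOfPreserves (forget GrpCat) h₀
    obtain ⟨m, s, hs⟩ := Types.jointly_surjective_of_isColimit hc t
    exact ⟨m, s, hs⟩
  · intro m
    have := h₀.fac c m
    exact congrArg GrpCat.Hom.hom this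


variable {k : Type} [Field k]

section H0

variable {G H : Type} [Group G] [Group H]

lemma H0_point_isIso : IsIso ((Hn k 0).map (BMap (1 : G →* PUnit))) := by
  have h1 : BMap (1 : PUnit →* G) ≫ BMap (1 : G →* PUnit) = 𝟙 _ := rfl
  have h2 : Epi ((Hn k 0).map (BMap (1 : PUnit →* G))) := by
    have h3 : IsIso ((BMap (1 : PUnit →* G)).app (op ⦋0⦌)) := by
      refine ⟨(BMap (1 : G →* PUnit)).app (op ⦋0⦌), ?_, ?_⟩
      · ext x
        exact Subsingleton.elim (α := (BG PUnit).obj (op ⦋0⦌)) _ _
      · ext x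
        exact Subsingleton.elim (α := (BG G).obj (op ⦋0⦌)) _ _
    have h4 : Epi (((chk k).map (BMap (1 : PUnit →* G))).f 0) := by
      change Epi ((ModuleCat.free k).map ((BMap (1 : PUnit →* G)).app (op ⦋0⦌)))
      infer_instance
    exact HomologicalComplex.epi_homologyMap_of_epi_of_not_rel _ 0 (fun j => by simp)
  have h5 : (Hn k 0).map (BMap (1 : PUnit →* G)) ≫ (Hn k 0).map (BMap (1 : G →* PUnit)) = 𝟙 _ := by
    rw [← Functor.map_comp, h1]
    exact (Hn k 0).map_id _
  have h6 : IsIso ((Hn k 0).map (BMap (1 : PUnit →* G))) := by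
    have : Mono ((Hn k 0).map (BMap (1 : PUnit →* G))) := mono_of_mono_fac h5
    exact isIso_of_mono_of_epi _
  exact IsIso.of_isIso_fac_left h5

lemma H0_isIso (φ : G →* H) : IsIso ((Hn k 0).map (BMap φ)) := by
  have h1 := H0_point_isIso (k := k) (G := G)
  have h2 := H0_point_isIso (k := k) (G := H)
  have h3 : (Hn k 0).map (BMap φ) ≫ (Hn k 0).map (BMap (1 : H →* PUnit)) =
      (Hn k 0).map (BMap (1 : G →* PUnit)) := by
    rw [← Functor.map_comp]
    rfl
  exact IsIso.of_isIso_fac_right h3

end H0

section Main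

variable {p : ℕ} [Fact p.Prime]

/-- A surjection to the cyclic group of order `p` with acyclic kernel is a homology isomorphism. -/
theorem isIso_of_acyclic_ker {T : Type} [Group T] (πT : T →* Multiplicative (ZMod p))
    (hsurj : Function.Surjective πT) (hac : ∀ n, n ≠ 0 → ((chk k).obj (BG πT.ker)).ExactAt n)
    (n : ℕ) : IsIso ((Hn k n).map (BMap πT)) := by
  refine (isIso_of_cover (k := k) (π := πT) (π' := MonoidHom.id _) πT rfl (fun n => ?_) n).1
  have e1 := covFib_isIso (k := k) hsurj n
  have e2 := covFib_isIso (k := k) (π := MonoidHom.id (Multiplicative (ZMod p)))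
    Function.surjective_id n
  let κ : πT.ker →* (MonoidHom.id (Multiplicative (ZMod p))).ker :=
    kerMap πT (MonoidHom.id _) πT rfl
  have e3 : (Hn k n).map (covFib πT) ≫ (Hn k n).map (covMap (π := πT) (π' := MonoidHom.id _) πT rfl) =
      (Hn k n).map (BMap κ) ≫ (Hn k n).map (covFib (MonoidHom.id (Multiplicative (ZMod p)))) := by
    rw [← Functor.map_comp, ← Functor.map_comp]
    rfl
  have e4 : IsIso ((Hn k n).map (BMap κ)) := by
    by_cases hn : n = 0
    · subst hn
      exact H0_isIso κ
    · have z1 : IsZero ((Hn k n).obj (BG πT.ker)) :=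
        (HomologicalComplex.exactAt_iff_isZero_homology _ _).1 (hac n hn)
      have : Subsingleton (MonoidHom.id (Multiplicative (ZMod p))).ker :=
        ⟨fun x y => Subtype.ext (x.2.trans y.2.symm)⟩
      have z2 := Hn_isZero_of_subsingleton (k := k)
        (G := (MonoidHom.id (Multiplicative (ZMod p))).ker) n hn
      exact ⟨0, z1.eq_of_src _ _, z2.eq_of_src _ _⟩
  have e5 : IsIso ((Hn k n).map (BMap κ) ≫
      (Hn k n).map (covFib (MonoidHom.id (Multiplicative (ZMod p))))) := inferInstance
  rw [← e3] at e5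
  exact IsIso.of_isIso_comp_left ((Hn k n).map (covFib πT)) _

end Main


section Colimit

/-- The sequence of classifying spaces attached to a sequence of groups. -/
def BSeq {S : ℕ → Type} [∀ m, Group (S m)] (f : ∀ m, S m →* S (m + 1)) : ℕ ⥤ SSet.{0} :=
  Functor.ofSequence (X := fun m => BG (S m)) (fun m => BMap (f m))

variable {S : ℕ → Type} [∀ m, Group (S m)] (f : ∀ m, S m →* S (m + 1))

lemma BSeq_map (m : ℕ) : (BSeq f).map (homOfLE (Nat.le_add_right m 1)) = BMap (f m) :=
  Functor.ofSequence_map_homOfLE_succ _ m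

/-- The cocone of classifying spaces attached to compatible homomorphisms. -/
def BCocone {T : Type} [Group T] (ι : ∀ m, S m →* T) (hι : ∀ m, (ι (m + 1)).comp (f m) = ι m) :
    Cocone (BSeq f) where
  pt := BG T
  ι := NatTrans.ofSequence (fun m => BMap (ι m)) (fun m => by
    rw [BSeq_map, ← BMap_comp, hι]
    rfl)

/-- The classifying space of a union of groups is the colimit of the classifying spaces. -/
noncomputable def BCocone_isColimit {T : Type} [Group T] (ι : ∀ m, S m →* T)
    (hι : ∀ m, (ι (m + 1)).comp (f m) = ι m) (inj : ∀ m, Function.Injective (ι m))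
    (surj : ∀ t, ∃ m s, ι m s = t) : IsColimit (BCocone f ι hι) := by
  apply evaluationJointlyReflectsColimits
  intro a
  apply Types.FilteredColimit.isColimitOf'
  · intro c
    obtain ⟨m, _, c', hc'⟩ := union_simplex (g := f) hι surj a c 0
    exact ⟨m, c', hc'.symm⟩
  · intro m x y hxy
    refine ⟨m, 𝟙 m, ?_⟩
    congr 1
    refine BG_ext fun i j => inj m ?_
    exact congrArg (fun z : (BG T).obj a => z.1 i j) hxy

end Colimit

section Tw

variable (p : ℕ) [Fact p.Prime]

/-- The tower of finite `p`-groups. -/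
noncomputable def tw (m : ℕ) : Ob p :=
  Nat.rec (base p) (fun m o => step o (m + 2)) m

/-- The transition homomorphisms of the tower. -/
noncomputable def twf (m : ℕ) : (tw p m).S →* (tw p (m + 1)).S := stepf (tw p m) (m + 2)

lemma twf_injective (m : ℕ) : Function.Injective (twf p m) := stepf_injective _ _

lemma tw_comp (m : ℕ) : (tw p (m + 1)).π.comp (twf p m) = (tw p m).π := stepπ_stepf _ _

lemma tw_kill (k : Type) [Field k] [CharP k p] (m n : ℕ) (hn : n ≠ 0) (hm : n ≤ m) :
    (Hn k n).map (BMap (kerMap (tw p m).π (tw p (m + 1)).π (twf p m) (tw_comp p m))) = 0 :=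
  step_kill (tw p m) (m + 2) k n hn (by omega)

/-- **The homology of the limit of the tower.** -/
theorem tw_limit (k : Type) [Field k] [CharP k p] {T : Type} [Group T]
    (ι : ∀ m, (tw p m).S →* T) (πT : T →* Cp p)
    (hι : ∀ m, (ι (m + 1)).comp (twf p m) = ι m) (inj : ∀ m, Function.Injective (ι m))
    (surj : ∀ t, ∃ m s, ι m s = t) (hπ : ∀ m, πT.comp (ι m) = (tw p m).π) (n : ℕ) :
    IsIso ((Hn k n).map (BMap πT)) := by
  apply isIso_of_acyclic_ker
  · intro q
    obtain ⟨s, hs⟩ := (tw p 0).surj q
    refine ⟨ι 0 s, ?_⟩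
    rw [← hs, ← hπ 0]
    rfl
  · intro n hn
    refine union_exactAt (N := fun m => (tw p m).π.ker)
      (g := fun m => kerMap (tw p m).π (tw p (m + 1)).π (twf p m) (tw_comp p m))
      (ι := fun m => kerMap (tw p m).π πT (ι m) (hπ m)) ?_ ?_ ?_ n n
      (fun m hm => tw_kill p k m n hn hm)
    · intro m
      refine MonoidHom.ext fun x => Subtype.ext ?_
      exact DFunLike.congr_fun (hι m) x.1
    · intro m x y hxy
      exact Subtype.ext (inj m (congrArg Subtype.val hxy))
    · intro t
      obtain ⟨m, s, hs⟩ := surj t.1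
      refine ⟨m, ⟨s, ?_⟩, Subtype.ext hs⟩
      have := DFunLike.congr_fun (hπ m) s
      rw [MonoidHom.mem_ker, ← this]
      change πT (ι m s) = 1
      rw [hs]
      exact t.2

end Tw

end Pool.Agent.W628
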