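import Mathlib
import Pool.Agent.W628.Tower

/-!
# Maps between classifying spaces and homotopies
-/

set_option backward.isDefEq.respectTransparency false
set_option backward.defeqAttrib.useBackward true

open CategoryTheory Opposite Simplicial MonoidalCategory Limits AlgebraicTopology

namespace Pool.Agent.W628

variable {G H : Type} [Group G] [Group H]

/-- The value of a map to a classifying space on an edge. -/
def ev {X : SSet.{0}} (f : X ⟶ BG H) (x : X _⦋1⦌) : H := (f.app (op ⦋1⦌) x).1 0 1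

lemma ev_cocycle {X : SSet.{0}} (f : X ⟶ BG H) (x : X _⦋2⦌) :
    ev f (X.δ 2 x) * ev f (X.δ 0 x) = ev f (X.δ 1 x) := by
  have h := (f.app (op ⦋2⦌) x).2 0 1 2
  have e : ∀ i : Fin 3, f.app (op ⦋1⦌) (X.δ i x) = (BG H).δ i (f.app (op ⦋2⦌) x) := fun i =>
    congrArg (fun t => (t : X _⦋2⦌ ⟶ (BG H) _⦋1⦌) x) (f.naturality (SimplexCategory.δ i).op)
  have h2 : ev f (X.δ 2 x) = (f.app (op ⦋2⦌) x).1 0 1 := by
    rw [ev, e]
    rfl
  have h0 : ev f (X.δ 0 x) = (f.app (op ⦋2⦌) x).1 1 2 := by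
    rw [ev, e]
    rfl
  have h1 : ev f (X.δ 1 x) = (f.app (op ⦋2⦌) x).1 0 2 := by
    rw [ev, e]
    rfl
  rw [h2, h0, h1, h]

/-- The simplex with given vertices. -/
def sx {n : ℕ} (v : Fin (n + 1) → G) : (BG G) _⦋n⦌ :=
  ⟨fun i j => (v i)⁻¹ * v j, fun i j l => by group⟩

/-- The edge attached to an element of the group. -/
def edge (g : G) : (BG G) _⦋1⦌ := sx ![1, g]

lemma BG_ext1 {x y : (BG G) _⦋1⦌} (h : x.1 0 1 = y.1 0 1) : x = y := by
  have h' : x.1 1 0 = y.1 1 0 := by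
    have hx := BG_inv x 0 1
    have hy := BG_inv y 0 1
    rw [← h] at hy
    exact mul_left_cancel (hx.trans hy.symm)
  refine BG_ext fun i j => ?_
  change Fin 2 at i j
  fin_cases i <;> fin_cases j
  · exact (BG_self _ x 0).trans (BG_self _ y 0).symm
  · exact h
  · exact h'
  · exact (BG_self _ x 1).trans (BG_self _ y 1).symm

lemma delta_sx (v : Fin 3 → G) :
    (BG G).δ 2 (sx v) = edge ((v 0)⁻¹ * v 1) ∧ (BG G).δ 0 (sx v) = edge ((v 1)⁻¹ * v 2) ∧
      (BG G).δ 1 (sx v) = edge ((v 0)⁻¹ * v 2) := by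
  refine ⟨BG_ext1 ?_, BG_ext1 ?_, BG_ext1 ?_⟩
  · change (v 0)⁻¹ * v 1 = (1 : G)⁻¹ * ((v 0)⁻¹ * v 1)
    simp
  · change (v 1)⁻¹ * v 2 = (1 : G)⁻¹ * ((v 1)⁻¹ * v 2)
    simp
  · change (v 0)⁻¹ * v 2 = (1 : G)⁻¹ * ((v 0)⁻¹ * v 2)
    simp

/-- The homomorphism underlying a map of classifying spaces. -/
def homOf (f : BG G ⟶ BG H) : G →* H :=
  MonoidHom.mk' (fun g => ev f (edge g)) (fun g h => by
    have := ev_cocycle f (sx ![1, g, g * h])
    obtain ⟨h2, h0, h1⟩ := delta_sx ![1, g, g * h]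
    rw [h2, h0, h1] at this
    simpa using this.symm)

lemma homOf_comp {J : Type} [Group J] (f : BG G ⟶ BG H) (ψ : H →* J) (g : G) :
    homOf (f ≫ BMap ψ) g = ψ (homOf f g) := rfl

lemma homOf_id (g : G) : homOf (𝟙 (BG G)) g = g := by
  change (1 : G)⁻¹ * g = g
  simp

/-- An edge of the interval. -/
def ie (v : Fin 2 →o Fin 2) : (Δ[1] : SSet.{0}) _⦋1⦌ := SSet.stdSimplex.objMk v

/-- A triangle of the interval. -/
def it (v : Fin 3 →o Fin 2) : (Δ[1] : SSet.{0}) _⦋2⦌ := SSet.stdSimplex.objMk v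

/-- The homomorphisms underlying homotopic maps are conjugate. -/
lemma homOf_homotopy (f f' : BG G ⟶ BG H) (h : SSet.Homotopy f f') :
    ∃ a : H, ∀ g, homOf f g * a = a * homOf f' g := by
  let e00 : Fin 2 →o Fin 2 := ⟨![0, 0], by decide⟩
  let e01 : Fin 2 →o Fin 2 := ⟨![0, 1], by decide⟩
  let e11 : Fin 2 →o Fin 2 := ⟨![1, 1], by decide⟩
  let t001 : Fin 3 →o Fin 2 := ⟨![0, 0, 1], by decide⟩
  let t011 : Fin 3 →o Fin 2 := ⟨![0, 1, 1], by decide⟩
  let X : SSet.{0} := BG G ⊗ Δ[1]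
  let E : (BG G) _⦋1⦌ → (Fin 2 →o Fin 2) → H := fun x v => ev (X := X) h.h (x, ie v)
  have hf : ∀ g, homOf f g = E (edge g) e00 := by
    intro g
    have h0 : f = SSet.ι₀ ≫ h.h := h.h₀.symm
    change ev f (edge g) = _
    rw [h0]
    change ev (X := X) h.h ((SSet.ι₀ : BG G ⟶ _).app _ (edge g)) = ev (X := X) h.h _
    have : (SSet.ι₀ : BG G ⟶ _).app _ (edge g) = ((edge g, ie e00) : X _⦋1⦌) := by
      refine Prod.ext rfl (SSet.stdSimplex.ext _ _ fun i => ?_)
      fin_cases i <;> rfl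
    rw [this]
  have hf' : ∀ g, homOf f' g = E (edge g) e11 := by
    intro g
    have h0 : f' = SSet.ι₁ ≫ h.h := h.h₁.symm
    change ev f' (edge g) = _
    rw [h0]
    change ev (X := X) h.h ((SSet.ι₁ : BG G ⟶ _).app _ (edge g)) = ev (X := X) h.h _
    have : (SSet.ι₁ : BG G ⟶ _).app _ (edge g) = ((edge g, ie e11) : X _⦋1⦌) := by
      refine Prod.ext rfl (SSet.stdSimplex.ext _ _ fun i => ?_)
      fin_cases i <;> rfl
    rw [this]
  have hA : ∀ g, E (edge g) e00 * E (edge 1) e01 = E (edge g) e01 := by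
    intro g
    have := ev_cocycle (X := X) h.h (sx ![1, g, g], it t001)
    obtain ⟨h2, h0, h1⟩ := delta_sx ![1, g, g]
    have i2 : (Δ[1] : SSet.{0}).δ 2 (it t001) = ie e00 :=
      SSet.stdSimplex.ext _ _ fun i => by fin_cases i <;> rfl
    have i0 : (Δ[1] : SSet.{0}).δ 0 (it t001) = ie e01 :=
      SSet.stdSimplex.ext _ _ fun i => by fin_cases i <;> rfl
    have i1 : (Δ[1] : SSet.{0}).δ 1 (it t001) = ie e01 :=
      SSet.stdSimplex.ext _ _ fun i => by fin_cases i <;> rfl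
    change ev (X := X) h.h ((BG G).δ 2 (sx ![1, g, g]), (Δ[1] : SSet.{0}).δ 2 (it t001)) *
      ev (X := X) h.h ((BG G).δ 0 (sx ![1, g, g]), (Δ[1] : SSet.{0}).δ 0 (it t001)) =
      ev (X := X) h.h ((BG G).δ 1 (sx ![1, g, g]), (Δ[1] : SSet.{0}).δ 1 (it t001)) at this
    rw [h2, h0, h1, i2, i0, i1] at this
    simpa using this
  have hB : ∀ g, E (edge 1) e01 * E (edge g) e11 = E (edge g) e01 := by
    intro g
    have := ev_cocycle (X := X) h.h (sx ![1, 1, g], it t011)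
    obtain ⟨h2, h0, h1⟩ := delta_sx ![1, 1, g]
    have i2 : (Δ[1] : SSet.{0}).δ 2 (it t011) = ie e01 :=
      SSet.stdSimplex.ext _ _ fun i => by fin_cases i <;> rfl
    have i0 : (Δ[1] : SSet.{0}).δ 0 (it t011) = ie e11 :=
      SSet.stdSimplex.ext _ _ fun i => by fin_cases i <;> rfl
    have i1 : (Δ[1] : SSet.{0}).δ 1 (it t011) = ie e01 :=
      SSet.stdSimplex.ext _ _ fun i => by fin_cases i <;> rfl
    change ev (X := X) h.h ((BG G).δ 2 (sx ![1, 1, g]), (Δ[1] : SSet.{0}).δ 2 (it t011)) *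
      ev (X := X) h.h ((BG G).δ 0 (sx ![1, 1, g]), (Δ[1] : SSet.{0}).δ 0 (it t011)) =
      ev (X := X) h.h ((BG G).δ 1 (sx ![1, 1, g]), (Δ[1] : SSet.{0}).δ 1 (it t011)) at this
    rw [h2, h0, h1, i2, i0, i1] at this
    simpa using this
  exact ⟨E (edge 1) e01, fun g => by rw [hf, hf', hA, hB]⟩

/-- The identity does not factor up to homotopy through a group in which the elements of order
`p` are killed. -/
theorem no_factor {p : ℕ} [Fact p.Prime] (o : Ob p) (h : BG (Cp p) ⟶ BG o.S)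
    (H : SSet.Homotopy (h ≫ BMap o.π) (𝟙 _)) : False := by
  obtain ⟨a, ha⟩ := homOf_homotopy _ _ H
  let q : Cp p := Multiplicative.ofAdd 1
  have hq : q ^ p = 1 := by
    change Multiplicative.ofAdd (p • (1 : ZMod p)) = 1
    simp
  have h1 : homOf (h ≫ BMap o.π) q = q := by
    have := ha q
    rw [homOf_id, mul_comm] at this
    exact mul_left_cancel this
  rw [homOf_comp] at h1
  have h2 : o.π (homOf h q) = 1 := o.star _ (by rw [← map_pow, hq, map_one])
  rw [h2] at h1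
  have h3 : (0 : ZMod p) = 1 := h1
  exact zero_ne_one h3

end Pool.Agent.W628
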