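import Mathlib
import Pool.Agent.W628.Maps

/-!
# Maps to classifying spaces as edge functions, homotopies as gauge transformations
-/

set_option backward.isDefEq.respectTransparency false
set_option backward.defeqAttrib.useBackward true

open CategoryTheory Opposite Simplicial MonoidalCategory Limits AlgebraicTopology

namespace Pool.Agent.W628

/-- The map of the simplex category with given vertex. -/
def vm (n : ℕ) (i : Fin (n + 1)) : ⦋0⦌ ⟶ ⦋n⦌ := SimplexCategory.mkHom ⟨fun _ => i, fun _ _ _ => le_rfl⟩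

/-- The map of the simplex category with given edge. -/
def em (n : ℕ) (i j : Fin (n + 1)) (h : i ≤ j) : ⦋1⦌ ⟶ ⦋n⦌ :=
  SimplexCategory.mkHom ⟨![i, j], by
    intro a b hab
    fin_cases a <;> fin_cases b
    · exact le_rfl
    · exact h
    · exact absurd hab (by decide)
    · exact le_rfl⟩

/-- The map of the simplex category with given triangle. -/
def tm (n : ℕ) (i j l : Fin (n + 1)) (h : i ≤ j) (h' : j ≤ l) : ⦋2⦌ ⟶ ⦋n⦌ :=
  SimplexCategory.mkHom ⟨![i, j, l], by
    intro a b hab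
    fin_cases a <;> fin_cases b
    · exact le_rfl
    · exact h
    · exact h.trans h'
    · exact absurd hab (by decide)
    · exact le_rfl
    · exact h'
    · exact absurd hab (by decide)
    · exact absurd hab (by decide)
    · exact le_rfl⟩

lemma hom_eq {m n : ℕ} {f g : ⦋m⦌ ⟶ ⦋n⦌} (h : ∀ i : Fin (m + 1), f.toOrderHom i = g.toOrderHom i) : f = g := by
  ext i : 3
  exact h i

lemma map_eq (A : SSet.{0}) {l m n : ℕ} (f : ⦋l⦌ ⟶ ⦋m⦌) (g : ⦋m⦌ ⟶ ⦋n⦌) (h : ⦋l⦌ ⟶ ⦋n⦌)
    (hh : ∀ i : Fin (l + 1), g.toOrderHom (f.toOrderHom i) = h.toOrderHom i) (x : A _⦋n⦌) :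
    A.map f.op (A.map g.op x) = A.map h.op x := by
  have : f ≫ g = h := hom_eq hh
  rw [← this, op_comp, Functor.map_comp]
  rfl

lemma map_map_eq (A : SSet.{0}) {l m m' n : ℕ} (f : ⦋l⦌ ⟶ ⦋m⦌) (g : ⦋m⦌ ⟶ ⦋n⦌) (f' : ⦋l⦌ ⟶ ⦋m'⦌)
    (g' : ⦋m'⦌ ⟶ ⦋n⦌)
    (hh : ∀ i : Fin (l + 1), g.toOrderHom (f.toOrderHom i) = g'.toOrderHom (f'.toOrderHom i)) (x : A _⦋n⦌) :
    A.map f.op (A.map g.op x) = A.map f'.op (A.map g'.op x) := by
  rw [map_eq A f g (f ≫ g) (fun _ => rfl), map_eq A f' g' (f ≫ g) (fun i => (hh i).symm)]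

variable {S : Type} [Group S]

section OfEdges

variable {A : SSet.{0}} (u : A _⦋1⦌ → S) (hu : ∀ s : A _⦋2⦌, u (A.δ 2 s) * u (A.δ 0 s) = u (A.δ 1 s))

include hu in
lemma tri {n : ℕ} (x : A _⦋n⦌) (i j l : Fin (n + 1)) (h : i ≤ j) (h' : j ≤ l) :
    u (A.map (em n i j h).op x) * u (A.map (em n j l h').op x) =
      u (A.map (em n i l (h.trans h')).op x) := by
  have := hu (A.map (tm n i j l h h').op x)
  have h2 : A.δ 2 (A.map (tm n i j l h h').op x) = A.map (em n i j h).op x :=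
    map_eq A _ _ _ (fun i => by fin_cases i <;> rfl) x
  have h0 : A.δ 0 (A.map (tm n i j l h h').op x) = A.map (em n j l h').op x :=
    map_eq A _ _ _ (fun i => by fin_cases i <;> rfl) x
  have h1 : A.δ 1 (A.map (tm n i j l h h').op x) = A.map (em n i l (h.trans h')).op x :=
    map_eq A _ _ _ (fun i => by fin_cases i <;> rfl) x
  rwa [h2, h0, h1] at this

/-- The values on the edges starting at the initial vertex. -/
def wv {n : ℕ} (x : A _⦋n⦌) (i : Fin (n + 1)) : S := u (A.map (em n 0 i (Fin.zero_le _)).op x)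

include hu in
lemma wv_zero {n : ℕ} (x : A _⦋n⦌) : wv u x 0 = 1 := by
  have := tri u hu x 0 0 0 le_rfl le_rfl
  simpa [wv] using this

include hu in
lemma wv_map {m n : ℕ} (θ : ⦋m⦌ ⟶ ⦋n⦌) (x : A _⦋n⦌) (i : Fin (m + 1)) :
    wv u x (θ.toOrderHom i) = wv u x (θ.toOrderHom 0) * wv u (A.map θ.op x) i := by
  have h : θ.toOrderHom 0 ≤ θ.toOrderHom i := θ.toOrderHom.monotone (Fin.zero_le _)
  have e : A.map (em m 0 i (Fin.zero_le _)).op (A.map θ.op x) =
      A.map (em n (θ.toOrderHom 0) (θ.toOrderHom i) h).op x :=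
    map_eq A _ _ _ (fun j => by fin_cases j <;> rfl) x
  rw [wv, wv, wv, e]
  exact (tri u hu x 0 _ _ (Fin.zero_le _) h).symm

/-- The map to the classifying space attached to a function on edges. -/
def ofEdges : A ⟶ BG S where
  app a := ↾ fun x => ⟨fun i j => (wv (n := a.unop.len) u x i)⁻¹ * wv (n := a.unop.len) u x j,
    fun i j l => by group⟩
  naturality a b θ := by
    ext x
    refine BG_ext (G := S) fun i j => ?_
    change (wv (n := b.unop.len) u (A.map θ x) i)⁻¹ * wv (n := b.unop.len) u (A.map θ x) j =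
      (wv (n := a.unop.len) u x (θ.unop.toOrderHom i))⁻¹ *
        wv (n := a.unop.len) u x (θ.unop.toOrderHom j)
    have h1 := wv_map u hu (m := b.unop.len) (n := a.unop.len) θ.unop x i
    have h2 := wv_map u hu (m := b.unop.len) (n := a.unop.len) θ.unop x j
    rw [h1, h2, mul_inv_rev, mul_assoc, inv_mul_cancel_left]
    rfl

lemma ev_ofEdges (e : A _⦋1⦌) : ev (ofEdges u hu) e = u e := by
  change (wv u e 0)⁻¹ * wv u e 1 = u e
  rw [wv_zero u hu, inv_one, one_mul, wv]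
  congr 1
  have : em 1 0 1 (Fin.zero_le _) = 𝟙 _ := hom_eq fun i => by fin_cases i <;> rfl
  rw [this, op_id, CategoryTheory.Functor.map_id]
  rfl

end OfEdges


section Gauge

variable {A : SSet.{0}}

lemma val_edge (f : A ⟶ BG S) {n : ℕ} (x : A _⦋n⦌) (i j : Fin (n + 1)) (h : i ≤ j) :
    (f.app (op ⦋n⦌) x).1 i j = ev f (A.map (em n i j h).op x) := by
  have e : f.app (op ⦋1⦌) (A.map (em n i j h).op x) = (BG S).map (em n i j h).op (f.app (op ⦋n⦌) x) :=
    congrArg (fun t => (t : A _⦋n⦌ ⟶ (BG S) _⦋1⦌) x) (f.naturality (em n i j h).op)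
  rw [ev, e]
  rfl

/-- A gauge transformation between maps to a classifying space. -/
def IsGauge (f : A ⟶ BG S) (a : A _⦋0⦌ → S) (g : A ⟶ BG S) : Prop :=
  ∀ e : A _⦋1⦌, ev f e * a (A.δ 0 e) = a (A.δ 1 e) * ev g e

lemma IsGauge.trans {f g h : A ⟶ BG S} {a b : A _⦋0⦌ → S} (h1 : IsGauge f a g)
    (h2 : IsGauge g b h) : IsGauge f (fun x => a x * b x) h := by
  intro e
  rw [← mul_assoc, h1 e, mul_assoc, h2 e, mul_assoc]

/-- A gauge transformation gives a homotopy. -/
noncomputable def IsGauge.homotopy {f g : A ⟶ BG S} {a : A _⦋0⦌ → S} (h : IsGauge f a g) :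
    SSet.Homotopy f g :=
  BHomotopy f g (fun n x i => a (A.map (vm n.unop.len i).op x))
    (fun {m n} θ x i => by
      congr 1
      exact map_eq A (m := n.unop.len) (n := m.unop.len) _ θ.unop _ (fun _ => rfl) x)
    (fun n x i j => by
      have key : ∀ j : Fin (n.unop.len + 1),
          (f.app n x).1 0 j * a (A.map (vm n.unop.len j).op x) =
            a (A.map (vm n.unop.len 0).op x) * (g.app n x).1 0 j := by
        intro j
        have h1 := h (A.map (em n.unop.len 0 j (Fin.zero_le _)).op x)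
        rw [← val_edge f (n := n.unop.len) x 0 j, ← val_edge g (n := n.unop.len) x 0 j] at h1
        have h2 : A.δ 0 (A.map (em n.unop.len 0 j (Fin.zero_le _)).op x) =
            A.map (vm n.unop.len j).op x :=
          map_eq A (n := n.unop.len) _ _ _ (fun i => by fin_cases i; rfl) x
        have h3 : A.δ 1 (A.map (em n.unop.len 0 j (Fin.zero_le _)).op x) =
            A.map (vm n.unop.len 0).op x :=
          map_eq A (n := n.unop.len) _ _ _ (fun i => by fin_cases i; rfl) x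
        rw [h2, h3] at h1
        exact h1
      have hi := key i
      have hj := key j
      have f1 := (f.app n x).2 0 i j
      have g1 := (g.app n x).2 0 i j
      have f2 : (f.app n x).1 i j = ((f.app n x).1 0 i)⁻¹ * (f.app n x).1 0 j := by
        rw [← f1, inv_mul_cancel_left]
      have g2 : (g.app n x).1 i j = ((g.app n x).1 0 i)⁻¹ * (g.app n x).1 0 j := by
        rw [← g1, inv_mul_cancel_left]
      rw [f2, g2, mul_assoc, hj]
      have h4 : a (A.map (vm n.unop.len i).op x) =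
          ((f.app n x).1 0 i)⁻¹ * (a (A.map (vm n.unop.len 0).op x) * (g.app n x).1 0 i) := by
        rw [← hi, inv_mul_cancel_left]
      rw [h4]
      group)

/-- A homotopy gives a gauge transformation. -/
lemma exists_gauge {f g : A ⟶ BG S} (h : SSet.Homotopy f g) : ∃ a, IsGauge f a g := by
  let e00 : Fin 2 →o Fin 2 := ⟨![0, 0], by decide⟩
  let e01 : Fin 2 →o Fin 2 := ⟨![0, 1], by decide⟩
  let e11 : Fin 2 →o Fin 2 := ⟨![1, 1], by decide⟩
  let t001 : Fin 3 →o Fin 2 := ⟨![0, 0, 1], by decide⟩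
  let t011 : Fin 3 →o Fin 2 := ⟨![0, 1, 1], by decide⟩
  let X : SSet.{0} := A ⊗ Δ[1]
  let E : A _⦋1⦌ → (Fin 2 →o Fin 2) → S := fun x v => ev (X := X) h.h (x, ie v)
  have hf : ∀ e, ev f e = E e e00 := by
    intro g
    have h0 : f = SSet.ι₀ ≫ h.h := h.h₀.symm
    rw [h0]
    change ev (X := X) h.h ((SSet.ι₀ : A ⟶ _).app _ g) = ev (X := X) h.h _
    have : (SSet.ι₀ : A ⟶ _).app _ g = ((g, ie e00) : X _⦋1⦌) := by
      refine Prod.ext rfl (SSet.stdSimplex.ext _ _ fun i => ?_)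
      fin_cases i <;> rfl
    rw [this]
  have hg : ∀ e, ev g e = E e e11 := by
    intro e
    have h0 : g = SSet.ι₁ ≫ h.h := h.h₁.symm
    rw [h0]
    change ev (X := X) h.h ((SSet.ι₁ : A ⟶ _).app _ e) = ev (X := X) h.h _
    have : (SSet.ι₁ : A ⟶ _).app _ e = ((e, ie e11) : X _⦋1⦌) := by
      refine Prod.ext rfl (SSet.stdSimplex.ext _ _ fun i => ?_)
      fin_cases i <;> rfl
    rw [this]
  refine ⟨fun v => E (A.σ 0 v) e01, fun e => ?_⟩
  rw [hf, hg]
  have hA : E e e00 * E (A.σ 0 (A.δ 0 e)) e01 = E e e01 := by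
    have := ev_cocycle (X := X) h.h (A.σ 1 e, it t001)
    have i2 : (Δ[1] : SSet.{0}).δ 2 (it t001) = ie e00 :=
      SSet.stdSimplex.ext _ _ fun i => by fin_cases i <;> rfl
    have i0 : (Δ[1] : SSet.{0}).δ 0 (it t001) = ie e01 :=
      SSet.stdSimplex.ext _ _ fun i => by fin_cases i <;> rfl
    have i1 : (Δ[1] : SSet.{0}).δ 1 (it t001) = ie e01 :=
      SSet.stdSimplex.ext _ _ fun i => by fin_cases i <;> rfl
    have j2 : A.δ 2 (A.σ 1 e) = e := by
      refine (map_eq A _ _ (𝟙 ⦋1⦌) (fun i => by fin_cases i <;> rfl) e).trans ?_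
      rw [op_id, CategoryTheory.Functor.map_id]
      rfl
    have j0 : A.δ 0 (A.σ 1 e) = A.σ 0 (A.δ 0 e) :=
      map_map_eq A _ _ _ _ (fun i => by fin_cases i <;> rfl) e
    have j1 : A.δ 1 (A.σ 1 e) = e := by
      refine (map_eq A _ _ (𝟙 ⦋1⦌) (fun i => by fin_cases i <;> rfl) e).trans ?_
      rw [op_id, CategoryTheory.Functor.map_id]
      rfl
    change ev (X := X) h.h (A.δ 2 (A.σ 1 e), (Δ[1] : SSet.{0}).δ 2 (it t001)) *
      ev (X := X) h.h (A.δ 0 (A.σ 1 e), (Δ[1] : SSet.{0}).δ 0 (it t001)) =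
      ev (X := X) h.h (A.δ 1 (A.σ 1 e), (Δ[1] : SSet.{0}).δ 1 (it t001)) at this
    rw [i2, i0, i1, j2, j0, j1] at this
    exact this
  have hB : E (A.σ 0 (A.δ 1 e)) e01 * E e e11 = E e e01 := by
    have := ev_cocycle (X := X) h.h (A.σ 0 e, it t011)
    have i2 : (Δ[1] : SSet.{0}).δ 2 (it t011) = ie e01 :=
      SSet.stdSimplex.ext _ _ fun i => by fin_cases i <;> rfl
    have i0 : (Δ[1] : SSet.{0}).δ 0 (it t011) = ie e11 :=
      SSet.stdSimplex.ext _ _ fun i => by fin_cases i <;> rfl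
    have i1 : (Δ[1] : SSet.{0}).δ 1 (it t011) = ie e01 :=
      SSet.stdSimplex.ext _ _ fun i => by fin_cases i <;> rfl
    have j2 : A.δ 2 (A.σ 0 e) = A.σ 0 (A.δ 1 e) :=
      map_map_eq A _ _ _ _ (fun i => by fin_cases i <;> rfl) e
    have j0 : A.δ 0 (A.σ 0 e) = e := by
      refine (map_eq A _ _ (𝟙 ⦋1⦌) (fun i => by fin_cases i <;> rfl) e).trans ?_
      rw [op_id, CategoryTheory.Functor.map_id]
      rfl
    have j1 : A.δ 1 (A.σ 0 e) = e := by
      refine (map_eq A _ _ (𝟙 ⦋1⦌) (fun i => by fin_cases i <;> rfl) e).trans ?_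
      rw [op_id, CategoryTheory.Functor.map_id]
      rfl
    change ev (X := X) h.h (A.δ 2 (A.σ 0 e), (Δ[1] : SSet.{0}).δ 2 (it t011)) *
      ev (X := X) h.h (A.δ 0 (A.σ 0 e), (Δ[1] : SSet.{0}).δ 0 (it t011)) =
      ev (X := X) h.h (A.δ 1 (A.σ 0 e), (Δ[1] : SSet.{0}).δ 1 (it t011)) at this
    rw [i2, i0, i1, j2, j0, j1] at this
    exact this
  exact hA.trans hB.symm

end Gauge

end Pool.Agent.W628
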