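import Mathlib
import Pool.Agent.W628.Gauge

/-!
# Classifying spaces of groups are Kan complexes
-/

set_option backward.isDefEq.respectTransparency false
set_option backward.defeqAttrib.useBackward true

open CategoryTheory Opposite Simplicial Limits

namespace Pool.Agent.W628

variable {G : Type} [Group G]

lemma card_pair_le {n : ℕ} (i a b : Fin (n + 2 + 1)) (h : a = i ∨ b = i) :
    ({i, a, b} : Finset (Fin (n + 2 + 1))).card ≤ n + 2 := by
  have : ({i, a, b} : Finset (Fin (n + 2 + 1))).card ≤ 2 := by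
    match h with
    | Or.inl h => subst h; rw [Finset.insert_idem]; exact Finset.card_le_two
    | Or.inr h =>
      subst h
      have : ({b, a, b} : Finset (Fin (n + 2 + 1))) = {b, a} := by
        ext x; simp; tauto
      rw [this]; exact Finset.card_le_two
  omega

/-- The parallel transport from the distinguished vertex of a horn. -/
noncomputable def hw {n : ℕ} {i : Fin (n + 3)} (σ : (SSet.horn.{0} (n + 2) i : SSet.{0}) ⟶ BG G)
    (k : Fin (n + 3)) : G :=
  if h : i ≤ k then ev σ (SSet.horn.edge (n + 2) i i k h (card_pair_le i i k (Or.inl rfl)))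
  else (ev σ (SSet.horn.edge (n + 2) i k i (le_of_not_ge h) (card_pair_le i k i (Or.inr rfl))))⁻¹

lemma hw_face {n : ℕ} {i : Fin (n + 3)} (σ : (SSet.horn.{0} (n + 2) i : SSet.{0}) ⟶ BG G)
    (j : Fin (n + 3)) (hj : j ≠ i) (i' : Fin (n + 2)) (hi' : j.succAbove i' = i)
    (y : (SSet.horn.{0} (n + 2) i : SSet.{0}) _⦋n + 1⦌)
    (hy : y = SSet.yonedaEquiv (SSet.horn.ι i j hj)) (a : Fin (n + 2)) :
    (σ.app (op ⦋n + 1⦌) y).1 i' a = hw σ (j.succAbove a) := by
  subst hi'
  rw [hw]
  split_ifs with h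
  · have h' : i' ≤ a := by rwa [Fin.succAbove_le_succAbove_iff] at h
    rw [val_edge σ y i' a h']
    congr 1
    rw [hy]
    refine Subtype.ext (SSet.stdSimplex.ext _ _ fun t => ?_)
    fin_cases t <;> rfl
  · have h' : a ≤ i' := by
      have := le_of_not_ge h
      rwa [Fin.succAbove_le_succAbove_iff] at this
    have e := BG_inv (G := G) (a := op ⦋n + 1⦌) (σ.app (op ⦋n + 1⦌) y) i' a
    rw [eq_inv_of_mul_eq_one_left e, val_edge σ y a i' h']
    congr 2
    rw [hy]
    refine Subtype.ext (SSet.stdSimplex.ext _ _ fun t => ?_)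
    fin_cases t <;> rfl

/-- The classifying space of a group is a Kan complex. -/
theorem kan_BG (G : Type) [Group G] : SSet.KanComplex (BG G) := by
  rw [SSet.KanComplex.iff]
  intro n i f hf
  match n with
  | 0 =>
    refine ⟨SSet.yonedaEquiv.symm 1, fun j hj => ?_⟩
    refine SSet.yonedaEquiv.injective ?_
    exact Subsingleton.elim (α := (BG G).obj (op ⦋0⦌)) _ _
  | n + 1 =>
    let σ := hf.desc
    let c : (BG G).obj (op ⦋n + 2⦌) := ⟨fun a b => (hw σ a)⁻¹ * hw σ b, fun a b l => by group⟩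
    refine ⟨SSet.yonedaEquiv.symm c, fun j hj => ?_⟩
    rw [← hf.ι_desc j hj]
    refine SSet.yonedaEquiv.injective ?_
    rw [SSet.yonedaEquiv_comp, SSet.yonedaEquiv_comp]
    obtain ⟨i', hi'⟩ := Fin.exists_succAbove_eq (x := i) (y := j) (Ne.symm hj)
    refine BG_ext (G := G) fun a b => ?_
    have h1 := hw_face σ j hj i' hi' _ rfl a
    have h2 := hw_face σ j hj i' hi' _ rfl b
    have h3 := (σ.app (op ⦋n + 1⦌) (SSet.yonedaEquiv (SSet.horn.ι i j hj))).2 i' a b
    change (hw σ (j.succAbove a))⁻¹ * hw σ (j.succAbove b) =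
      (σ.app (op ⦋n + 1⦌) (SSet.yonedaEquiv (SSet.horn.ι i j hj))).1 a b
    rw [← h1, ← h2, ← h3, inv_mul_cancel_left]

end Pool.Agent.W628
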