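import Mathlib
import Pool.Agent.W628.Union

/-!
# Low degree cohomology and homology isomorphisms
-/

set_option backward.isDefEq.respectTransparency false
set_option backward.defeqAttrib.useBackward true

open CategoryTheory Opposite Simplicial MonoidalCategory Limits AlgebraicTopology

namespace Pool.Agent.W628

section Elem

variable {k : Type} [Field k] {K L : ChainComplex (ModuleCat.{0} k) ℕ}

lemma factor_ker {U V : Type} [AddCommGroup U] [AddCommGroup V] [Module k U] [Module k V]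
    (g : U →ₗ[k] V) (φ : U →ₗ[k] k) (h : ∀ u, g u = 0 → φ u = 0) : ∃ χ : V →ₗ[k] k, χ ∘ₗ g = φ := by
  have h' : LinearMap.ker g ≤ LinearMap.ker φ := fun u hu => h u hu
  let χ₀ : LinearMap.range g →ₗ[k] k :=
    ((LinearMap.ker g).liftQ φ h') ∘ₗ (g.quotKerEquivRange.symm : LinearMap.range g →ₗ[k] _)
  obtain ⟨χ, hχ⟩ := LinearMap.exists_extend χ₀
  refine ⟨χ, LinearMap.ext fun u => ?_⟩
  have := LinearMap.congr_fun hχ ⟨g u, u, rfl⟩
  change χ (g u) = ((LinearMap.ker g).liftQ φ h') (g.quotKerEquivRange.symm ⟨g u, u, rfl⟩) at this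
  rw [LinearMap.comp_apply, this]
  have e : g.quotKerEquivRange.symm ⟨g u, u, rfl⟩ = (LinearMap.ker g).mkQ u := by
    rw [LinearEquiv.symm_apply_eq]
    rfl
  rw [e]
  rfl

lemma mono_elem (f : K ⟶ L) (n : ℕ) (h : Mono (HomologicalComplex.homologyMap f n)) (c : K.X n)
    (hc : K.d n ((ComplexShape.down ℕ).next n) c = 0) (y : L.X (n + 1))
    (hy : f.f n c = L.d (n + 1) n y) : ∃ x : K.X (n + 1), c = K.d (n + 1) n x := by
  rw [HomologicalComplex.mono_homologyMap_iff_up_to_refinements (i := n + 1) (hi := by simp)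
    (hk := rfl)] at h
  let x₂ : ModuleCat.of k k ⟶ K.X n := ModuleCat.ofHom (LinearMap.toSpanSingleton k (K.X n) c)
  let y₂ : ModuleCat.of k k ⟶ L.X (n + 1) :=
    ModuleCat.ofHom (LinearMap.toSpanSingleton k (L.X (n + 1)) y)
  obtain ⟨A', π, hπ, x₁, hx₁⟩ := h x₂ (by
    ext
    change K.d n ((ComplexShape.down ℕ).next n) ((1 : k) • c) = 0
    rw [one_smul, hc]) y₂ (by
    ext
    change f.f n ((1 : k) • c) = L.d (n + 1) n ((1 : k) • y)
    rw [one_smul, one_smul, hy])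
  obtain ⟨a, ha⟩ := (ModuleCat.epi_iff_surjective π).1 hπ (1 : k)
  refine ⟨x₁ a, ?_⟩
  have := congrArg (fun t => (t : A' ⟶ K.X n) a) hx₁
  change x₂ (π a) = K.d (n + 1) n (x₁ a) at this
  rw [← this, ha]
  change _ = (1 : k) • c
  rw [one_smul]

lemma epi_elem (f : K ⟶ L) (n : ℕ) (h : Epi (HomologicalComplex.homologyMap f n)) (z : L.X n)
    (hz : L.d n ((ComplexShape.down ℕ).next n) z = 0) :
    ∃ (c : K.X n) (y : L.X (n + 1)), K.d n ((ComplexShape.down ℕ).next n) c = 0 ∧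
      z = f.f n c + L.d (n + 1) n y := by
  rw [HomologicalComplex.epi_homologyMap_iff_up_to_refinements (i := n + 1) (hi := by simp)
    (hk := rfl)] at h
  let x₂ : ModuleCat.of k k ⟶ L.X n := ModuleCat.ofHom (LinearMap.toSpanSingleton k (L.X n) z)
  obtain ⟨A', π, hπ, x₁, hx₁, y₁, hy₁⟩ := h x₂ (by
    ext
    change L.d n ((ComplexShape.down ℕ).next n) ((1 : k) • z) = 0
    rw [one_smul, hz])
  obtain ⟨a, ha⟩ := (ModuleCat.epi_iff_surjective π).1 hπ (1 : k)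
  refine ⟨x₁ a, y₁ a, congrArg (fun t => (t : A' ⟶ K.X _) a) hx₁, ?_⟩
  have := congrArg (fun t => (t : A' ⟶ L.X n) a) hy₁
  change x₂ (π a) = f.f n (x₁ a) + L.d (n + 1) n (y₁ a) at this
  rw [← this, ha]
  change _ = (1 : k) • z
  rw [one_smul]

lemma coh_inj (f : K ⟶ L) (n : ℕ) (h : Epi (HomologicalComplex.homologyMap f n))
    (φ : L.X n →ₗ[k] k) (hφ : ∀ y, φ (L.d (n + 1) n y) = 0)
    (hψ : ∀ c, K.d n ((ComplexShape.down ℕ).next n) c = 0 → φ (f.f n c) = 0) :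
    ∃ χ : L.X ((ComplexShape.down ℕ).next n) →ₗ[k] k,
      ∀ z, φ z = χ (L.d n ((ComplexShape.down ℕ).next n) z) := by
  obtain ⟨χ, hχ⟩ := factor_ker (L.d n ((ComplexShape.down ℕ).next n)).hom φ (fun z hz => by
    obtain ⟨c, y, hc, rfl⟩ := epi_elem f n h z hz
    rw [map_add, hφ, hψ c hc, add_zero])
  exact ⟨χ, fun z => (LinearMap.congr_fun hχ z).symm⟩

lemma coh_surj (f : K ⟶ L) (n : ℕ) (h : Mono (HomologicalComplex.homologyMap f n))
    (φ : K.X n →ₗ[k] k) (hφ : ∀ x, φ (K.d (n + 1) n x) = 0) :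
    ∃ φ' : L.X n →ₗ[k] k, (∀ y, φ' (L.d (n + 1) n y) = 0) ∧
      ∃ ψ : K.X ((ComplexShape.down ℕ).next n) →ₗ[k] k,
        ∀ c, φ' (f.f n c) = φ c + ψ (K.d n ((ComplexShape.down ℕ).next n) c) := by
  let N := LinearMap.ker (K.d n ((ComplexShape.down ℕ).next n)).hom
  let R := LinearMap.range (L.d (n + 1) n).hom
  let g : N →ₗ[k] (L.X n ⧸ R) := R.mkQ ∘ₗ (f.f n).hom ∘ₗ N.subtype
  obtain ⟨χ, hχ⟩ := factor_ker g (φ ∘ₗ N.subtype) (fun u hu => by
    have h1 : (f.f n).hom u.1 ∈ R := (Submodule.Quotient.mk_eq_zero R).1 hu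
    obtain ⟨y, hy⟩ := h1
    obtain ⟨x, hx⟩ := mono_elem f n h u.1 u.2 y hy.symm
    change φ u.1 = 0
    rw [hx, hφ])
  refine ⟨χ ∘ₗ R.mkQ, fun y => ?_, ?_⟩
  · change χ (R.mkQ _) = 0
    have : R.mkQ ((L.d (n + 1) n).hom y) = 0 := (Submodule.Quotient.mk_eq_zero R).2 ⟨y, rfl⟩
    exact (congrArg χ this).trans (map_zero _)
  · obtain ⟨ψ, hψ⟩ := factor_ker (K.d n ((ComplexShape.down ℕ).next n)).hom
      (χ ∘ₗ R.mkQ ∘ₗ (f.f n).hom - φ) (fun u hu => by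
        have := LinearMap.congr_fun hχ ⟨u, hu⟩
        change χ (R.mkQ ((f.f n).hom u)) = φ u at this
        change χ (R.mkQ ((f.f n).hom u)) - φ u = 0
        rw [this, sub_self])
    refine ⟨ψ, fun c => ?_⟩
    have := LinearMap.congr_fun hψ c
    change ψ (K.d n ((ComplexShape.down ℕ).next n) c) = χ (R.mkQ ((f.f n).hom c)) - φ c at this
    rw [this]
    change χ (R.mkQ ((f.f n).hom c)) = _
    abel

lemma coh_inj' (f : K ⟶ L) (n j : ℕ) (hj : (ComplexShape.down ℕ).next n = j)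
    (h : Epi (HomologicalComplex.homologyMap f n))
    (φ : L.X n →ₗ[k] k) (hφ : ∀ y, φ (L.d (n + 1) n y) = 0)
    (hψ : ∀ c, K.d n j c = 0 → φ (f.f n c) = 0) :
    ∃ χ : L.X j →ₗ[k] k, ∀ z, φ z = χ (L.d n j z) := by
  subst hj
  exact coh_inj f n h φ hφ hψ

lemma coh_surj' (f : K ⟶ L) (n j : ℕ) (hj : (ComplexShape.down ℕ).next n = j)
    (h : Mono (HomologicalComplex.homologyMap f n))
    (φ : K.X n →ₗ[k] k) (hφ : ∀ x, φ (K.d (n + 1) n x) = 0) :
    ∃ φ' : L.X n →ₗ[k] k, (∀ y, φ' (L.d (n + 1) n y) = 0) ∧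
      ∃ ψ : K.X j →ₗ[k] k, ∀ c, φ' (f.f n c) = φ c + ψ (K.d n j c) := by
  subst hj
  exact coh_surj f n h φ hφ

end Elem


section Simp

variable {k : Type} [Field k]

lemma chk_d (A : SSet.{0}) (n : ℕ) (x : A _⦋n + 1⦌) :
    ((chk k).obj A).d (n + 1) n (ModuleCat.freeMk x) =
      ∑ i : Fin (n + 2), ((-1 : ℤ) ^ (i : ℕ)) • (ModuleCat.freeMk (A.δ i x) :
        (ModuleCat.free k).obj (A _⦋n⦌)) := by
  change ((alternatingFaceMapComplex (ModuleCat.{0} k)).obj ((kk k).obj A)).d (n + 1) n _ = _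
  rw [alternatingFaceMapComplex_obj_d, AlternatingFaceMapComplex.objD]
  let E : ((ModuleCat.free k).obj (A _⦋n + 1⦌) ⟶ (ModuleCat.free k).obj (A _⦋n⦌)) →+
      ((ModuleCat.free k).obj (A _⦋n⦌)) :=
    { toFun := fun t => t (ModuleCat.freeMk x)
      map_zero' := rfl
      map_add' := fun _ _ => rfl }
  have h : E (∑ i : Fin (n + 2), ((-1 : ℤ) ^ (i : ℕ)) • (ModuleCat.free k).map (A.δ i)) =
      ∑ i : Fin (n + 2), ((-1 : ℤ) ^ (i : ℕ)) • (ModuleCat.freeMk (A.δ i x) :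
        (ModuleCat.free k).obj (A _⦋n⦌)) := by
    rw [map_sum]
    refine Finset.sum_congr rfl fun i _ => ?_
    rw [map_zsmul]
    change ((-1 : ℤ) ^ (i : ℕ)) • ((ModuleCat.free k).map (A.δ i) (ModuleCat.freeMk x)) = _
    rw [ModuleCat.free_map_apply]
  exact h

/-- The linear extension of a function on simplices. -/
noncomputable def lin {A : SSet.{0}} {n : ℕ} (φ : A _⦋n⦌ → k) : ((chk k).obj A).X n →ₗ[k] k :=
  Finsupp.linearCombination k φ

lemma lin_mk {A : SSet.{0}} {n : ℕ} (φ : A _⦋n⦌ → k) (x : A _⦋n⦌) :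
    lin φ (ModuleCat.freeMk x) = φ x := by
  refine (Finsupp.linearCombination_single k (1 : k) x).trans ?_
  rw [one_smul]

lemma lin_ext {A : SSet.{0}} {n : ℕ} (φ ψ : ((chk k).obj A).X n →ₗ[k] k)
    (h : ∀ x : A _⦋n⦌, φ (ModuleCat.freeMk x) = ψ (ModuleCat.freeMk x)) : φ = ψ := by
  refine Finsupp.lhom_ext' fun x => LinearMap.ext_ring ?_
  exact h x

lemma chk_map_mk {A B : SSet.{0}} (i : A ⟶ B) {n : ℕ} (x : A _⦋n⦌) :
    ((chk k).map i).f n (ModuleCat.freeMk x) = ModuleCat.freeMk (i.app (op ⦋n⦌) x) :=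
  ModuleCat.free_map_apply _ _


variable {A B : SSet.{0}} (i : A ⟶ B)

lemma H0i (h : Epi ((Hn k 0).map i)) (t : B _⦋0⦌ → k)
    (ht : ∀ e : B _⦋1⦌, t (B.δ 0 e) = t (B.δ 1 e))
    (h0 : ∀ x : A _⦋0⦌, t (i.app _ x) = 0) (y : B _⦋0⦌) : t y = 0 := by
  have hd : (lin t) ∘ₗ (((chk k).obj B).d 1 0).hom = 0 := lin_ext (n := 1) _ _ fun e => by
    change lin t (((chk k).obj B).d (0 + 1) 0 (ModuleCat.freeMk e)) = 0
    rw [chk_d, map_sum, Fin.sum_univ_two, map_zsmul, map_zsmul, lin_mk, lin_mk, ht]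
    simp
  have hi : (lin t) ∘ₗ (((chk k).map i).f 0).hom = 0 := lin_ext (n := 0) _ _ fun x => by
    change lin t (((chk k).map i).f 0 (ModuleCat.freeMk x)) = 0
    rw [chk_map_mk, lin_mk, h0]
  obtain ⟨χ, hχ⟩ := coh_inj' ((chk k).map i) 0 0 (by simp) h (lin t)
    (fun y => LinearMap.congr_fun hd y) (fun c _ => LinearMap.congr_fun hi c)
  rw [← lin_mk t y, hχ, HomologicalComplex.shape _ _ _ (by simp)]
  exact map_zero χ

lemma H0s (h : Mono ((Hn k 0).map i)) (t : A _⦋0⦌ → k)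
    (ht : ∀ e : A _⦋1⦌, t (A.δ 0 e) = t (A.δ 1 e)) :
    ∃ t' : B _⦋0⦌ → k, (∀ e : B _⦋1⦌, t' (B.δ 0 e) = t' (B.δ 1 e)) ∧
      ∀ x : A _⦋0⦌, t' (i.app _ x) = t x := by
  have hd : (lin t) ∘ₗ (((chk k).obj A).d 1 0).hom = 0 := lin_ext (n := 1) _ _ fun e => by
    change lin t (((chk k).obj A).d (0 + 1) 0 (ModuleCat.freeMk e)) = 0
    rw [chk_d, map_sum, Fin.sum_univ_two, map_zsmul, map_zsmul, lin_mk, lin_mk, ht]
    simp
  obtain ⟨φ', h1, ψ, h2⟩ := coh_surj' ((chk k).map i) 0 0 (by simp) h (lin t)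
    (fun y => LinearMap.congr_fun hd y)
  refine ⟨fun y => φ' (ModuleCat.freeMk y), fun e => ?_, fun x => ?_⟩
  · have := h1 (ModuleCat.freeMk e)
    rw [chk_d, map_sum, Fin.sum_univ_two, map_zsmul, map_zsmul] at this
    simpa [← sub_eq_add_neg, sub_eq_zero] using this
  · have := h2 (ModuleCat.freeMk x)
    rw [chk_map_mk, lin_mk, HomologicalComplex.shape _ _ _ (by simp)] at this
    refine this.trans ?_
    exact (congrArg (t x + ·) (map_zero ψ)).trans (add_zero _)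

lemma H1i (h : Epi ((Hn k 1).map i)) (v : B _⦋1⦌ → k)
    (hv : ∀ s : B _⦋2⦌, v (B.δ 2 s) + v (B.δ 0 s) = v (B.δ 1 s)) (t : A _⦋0⦌ → k)
    (ht : ∀ e : A _⦋1⦌, v (i.app _ e) = t (A.δ 0 e) - t (A.δ 1 e)) :
    ∃ t' : B _⦋0⦌ → k, ∀ e : B _⦋1⦌, v e = t' (B.δ 0 e) - t' (B.δ 1 e) := by
  have hd : (lin v) ∘ₗ (((chk k).obj B).d 2 1).hom = 0 := lin_ext (n := 2) _ _ fun e => by
    change lin v (((chk k).obj B).d (1 + 1) 1 (ModuleCat.freeMk e)) = 0
    rw [chk_d, map_sum, Fin.sum_univ_three, map_zsmul, map_zsmul, map_zsmul, lin_mk, lin_mk, lin_mk,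
      ← hv]
    simp
  have hi : (lin v) ∘ₗ (((chk k).map i).f 1).hom = (lin t) ∘ₗ (((chk k).obj A).d 1 0).hom :=
    lin_ext (n := 1) _ _ fun x => by
      change lin v (((chk k).map i).f 1 (ModuleCat.freeMk x)) =
        lin t (((chk k).obj A).d (0 + 1) 0 (ModuleCat.freeMk x))
      rw [chk_map_mk, lin_mk, ht, chk_d, map_sum, Fin.sum_univ_two, map_zsmul, map_zsmul, lin_mk,
        lin_mk]
      simp
      ring
  obtain ⟨χ, hχ⟩ := coh_inj' ((chk k).map i) 1 0 (by simp) h (lin v)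
    (fun y => LinearMap.congr_fun hd y) (fun c hc => by
      have := LinearMap.congr_fun hi c
      refine this.trans ?_
      change lin t (((chk k).obj A).d 1 0 c) = 0
      rw [hc, map_zero])
  refine ⟨fun y => χ (ModuleCat.freeMk y), fun e => ?_⟩
  rw [← lin_mk v e, hχ, chk_d, map_sum, Fin.sum_univ_two, map_zsmul, map_zsmul]
  simp
  ring

lemma H1s (h : Mono ((Hn k 1).map i)) (v : A _⦋1⦌ → k)
    (hv : ∀ s : A _⦋2⦌, v (A.δ 2 s) + v (A.δ 0 s) = v (A.δ 1 s)) :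
    ∃ v' : B _⦋1⦌ → k, (∀ s : B _⦋2⦌, v' (B.δ 2 s) + v' (B.δ 0 s) = v' (B.δ 1 s)) ∧
      ∃ t : A _⦋0⦌ → k, ∀ e : A _⦋1⦌, v' (i.app _ e) = v e + (t (A.δ 0 e) - t (A.δ 1 e)) := by
  have hd : (lin v) ∘ₗ (((chk k).obj A).d 2 1).hom = 0 := lin_ext (n := 2) _ _ fun e => by
    change lin v (((chk k).obj A).d (1 + 1) 1 (ModuleCat.freeMk e)) = 0
    rw [chk_d, map_sum, Fin.sum_univ_three, map_zsmul, map_zsmul, map_zsmul, lin_mk, lin_mk, lin_mk,
      ← hv]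
    simp
  obtain ⟨φ', h1, ψ, h2⟩ := coh_surj' ((chk k).map i) 1 0 (by simp) h (lin v)
    (fun y => LinearMap.congr_fun hd y)
  refine ⟨fun y => φ' (ModuleCat.freeMk y), fun s => ?_, fun y => ψ (ModuleCat.freeMk y), fun e => ?_⟩
  · have := h1 (ModuleCat.freeMk s)
    rw [chk_d, map_sum, Fin.sum_univ_three, map_zsmul, map_zsmul, map_zsmul] at this
    simp at this
    linear_combination this
  · have := h2 (ModuleCat.freeMk e)
    rw [chk_map_mk, lin_mk, chk_d, map_sum, Fin.sum_univ_two, map_zsmul, map_zsmul] at this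
    simp at this
    linear_combination this

lemma H2i (h : Epi ((Hn k 2).map i)) (z : B _⦋2⦌ → k)
    (hz : ∀ s : B _⦋3⦌, z (B.δ 0 s) - z (B.δ 1 s) + z (B.δ 2 s) - z (B.δ 3 s) = 0) (w : A _⦋1⦌ → k)
    (hw : ∀ s : A _⦋2⦌, z (i.app _ s) = w (A.δ 0 s) - w (A.δ 1 s) + w (A.δ 2 s)) :
    ∃ w' : B _⦋1⦌ → k, ∀ s : B _⦋2⦌, z s = w' (B.δ 0 s) - w' (B.δ 1 s) + w' (B.δ 2 s) := by
  have hd : (lin z) ∘ₗ (((chk k).obj B).d 3 2).hom = 0 := lin_ext (n := 3) _ _ fun e => by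
    change lin z (((chk k).obj B).d (2 + 1) 2 (ModuleCat.freeMk e)) = 0
    rw [chk_d, map_sum, Fin.sum_univ_four, map_zsmul, map_zsmul, map_zsmul, map_zsmul, lin_mk,
      lin_mk, lin_mk, lin_mk, ← hz e]
    simp
    ring
  have hi : (lin z) ∘ₗ (((chk k).map i).f 2).hom = (lin w) ∘ₗ (((chk k).obj A).d 2 1).hom :=
    lin_ext (n := 2) _ _ fun x => by
      change lin z (((chk k).map i).f 2 (ModuleCat.freeMk x)) =
        lin w (((chk k).obj A).d (1 + 1) 1 (ModuleCat.freeMk x))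
      rw [chk_map_mk, lin_mk, hw, chk_d, map_sum, Fin.sum_univ_three, map_zsmul, map_zsmul,
        map_zsmul, lin_mk, lin_mk, lin_mk]
      simp
      ring
  obtain ⟨χ, hχ⟩ := coh_inj' ((chk k).map i) 2 1 (by simp) h (lin z)
    (fun y => LinearMap.congr_fun hd y) (fun c hc => by
      have := LinearMap.congr_fun hi c
      refine this.trans ?_
      change lin w (((chk k).obj A).d 2 1 c) = 0
      rw [hc, map_zero])
  refine ⟨fun y => χ (ModuleCat.freeMk y), fun e => ?_⟩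
  rw [← lin_mk z e, hχ, chk_d, map_sum, Fin.sum_univ_three, map_zsmul, map_zsmul, map_zsmul]
  simp
  ring

end Simp

end Pool.Agent.W628
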