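import Mathlib
import Pool.Agent.W628.Gauge
import Pool.Agent.W628.Coh

/-!
# Classifying spaces of finite `p`-groups are local for mod `p` homology
-/

set_option backward.isDefEq.respectTransparency false
set_option backward.defeqAttrib.useBackward true

open CategoryTheory Opposite Simplicial MonoidalCategory Limits AlgebraicTopology

namespace Pool.Agent.W628

variable {p : ℕ} [Fact p.Prime] {A B : SSet.{0}} (i : A ⟶ B)

/-- Essential surjectivity of the restriction of maps to a classifying space. -/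
def ES (S : Type) [Group S] : Prop :=
  ∀ f : A ⟶ BG S, ∃ (g : B ⟶ BG S) (a : A _⦋0⦌ → S), IsGauge (i ≫ g) a f

/-- Full faithfulness of the restriction of maps to a classifying space. -/
def FF (S : Type) [Group S] : Prop :=
  ∀ (g₁ g₂ : B ⟶ BG S) (a : A _⦋0⦌ → S), IsGauge (i ≫ g₁) a (i ≫ g₂) →
    ∃! b : B _⦋0⦌ → S, IsGauge g₁ b g₂ ∧ ∀ x, b (i.app _ x) = a x

lemma app_delta {n : ℕ} (j : Fin (n + 2)) (x : A _⦋n + 1⦌) :
    i.app (op ⦋n⦌) (A.δ j x) = B.δ j (i.app (op ⦋n + 1⦌) x) :=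
  congrArg (fun t => (t : A _⦋n + 1⦌ ⟶ B _⦋n⦌) x) (i.naturality (SimplexCategory.δ j).op)

/-- A central extension with kernel the cyclic group of order `p`. -/
structure CentralExt {S S' : Type} [Group S] [Group S'] (q : S →* S') (J : ZMod p → S) : Prop where
  surj : Function.Surjective q
  add : ∀ z w, J (z + w) = J z * J w
  comm : ∀ z s, J z * s = s * J z
  ker : ∀ s, q s = 1 → ∃ z, J z = s
  im : ∀ z, q (J z) = 1
  inj : Function.Injective J

section Faces

variable (X : SSet.{0}) (s : X _⦋2⦌) (t : X _⦋3⦌)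

lemma face_v0 : X.δ 1 (X.δ 2 s) = X.δ 1 (X.δ 1 s) :=
  map_map_eq X _ _ _ _ (fun i => by fin_cases i; rfl) s
lemma face_v1 : X.δ 0 (X.δ 2 s) = X.δ 1 (X.δ 0 s) :=
  map_map_eq X _ _ _ _ (fun i => by fin_cases i; rfl) s
lemma face_v2 : X.δ 0 (X.δ 0 s) = X.δ 0 (X.δ 1 s) :=
  map_map_eq X _ _ _ _ (fun i => by fin_cases i; rfl) s
lemma face_12 : X.δ 2 (X.δ 0 t) = X.δ 0 (X.δ 3 t) :=
  map_map_eq X _ _ _ _ (fun i => by fin_cases i <;> rfl) t
lemma face_23 : X.δ 0 (X.δ 0 t) = X.δ 0 (X.δ 1 t) :=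
  map_map_eq X _ _ _ _ (fun i => by fin_cases i <;> rfl) t
lemma face_13 : X.δ 1 (X.δ 0 t) = X.δ 0 (X.δ 2 t) :=
  map_map_eq X _ _ _ _ (fun i => by fin_cases i <;> rfl) t
lemma face_02 : X.δ 2 (X.δ 1 t) = X.δ 1 (X.δ 3 t) :=
  map_map_eq X _ _ _ _ (fun i => by fin_cases i <;> rfl) t
lemma face_03 : X.δ 1 (X.δ 1 t) = X.δ 1 (X.δ 2 t) :=
  map_map_eq X _ _ _ _ (fun i => by fin_cases i <;> rfl) t
lemma face_01 : X.δ 2 (X.δ 2 t) = X.δ 2 (X.δ 3 t) :=
  map_map_eq X _ _ _ _ (fun i => by fin_cases i <;> rfl) t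

end Faces

namespace CentralExt

variable {S S' : Type} [Group S] [Group S'] {q : S →* S'} {J : ZMod p → S} (h : CentralExt q J)
include h

lemma zero : J 0 = 1 := by
  have := h.add 0 0
  rw [add_zero] at this
  exact (left_eq_mul.1 this)

lemma exists_eq {s t : S} (hq : q s = q t) : ∃ z, s = J z * t := by
  obtain ⟨z, hz⟩ := h.ker (s * t⁻¹) (by rw [map_mul, map_inv, hq, mul_inv_cancel])
  exact ⟨z, by rw [hz, inv_mul_cancel_right]⟩

lemma cancel {z w : ZMod p} {s : S} (hs : J z * s = J w * s) : z = w := h.inj (mul_right_cancel hs)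

lemma left_comm (z : ZMod p) (s t : S) : s * (J z * t) = J z * (s * t) := by
  rw [← mul_assoc, ← h.comm, mul_assoc]

lemma grp1 {G01 G12 G02 x0 x1 x2 H01 H12 H02 : S} {v01 v12 v02 : ZMod p}
    (e1 : G01 * x1 = J v01 * (x0 * H01)) (e2 : G12 * x2 = J v12 * (x1 * H12))
    (e3 : G02 * x2 = J v02 * (x0 * H02)) (c1 : G01 * G12 = G02) (c2 : H01 * H12 = H02) :
    v01 + v12 = v02 := by
  apply h.cancel (s := x0 * H02)
  rw [← e3, ← c1, ← c2, mul_assoc, e2, h.left_comm, ← mul_assoc G01, e1, add_comm, h.add]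
  simp only [mul_assoc]

lemma grp2 {G H a0 a1 b0 b1 : S} {v t0 t1 : ZMod p} (e1 : G * b0 = J v * (b1 * H))
    (e2 : G * a0 = a1 * H) (h0 : b0 = J t0 * a0) (h1 : b1 = J t1 * a1) : v = t0 - t1 := by
  rw [h0, h1, h.left_comm, e2, mul_assoc (J t1), ← mul_assoc (J v), ← h.add] at e1
  rw [h.cancel e1]
  ring

lemma grp3 {c01 c12 c23 c02 c13 c03 : S} {z0 z1 z2 z3 : ZMod p} (e0 : c12 * c23 = J z0 * c13)
    (e1 : c02 * c23 = J z1 * c03) (e2 : c01 * c13 = J z2 * c03) (e3 : c01 * c12 = J z3 * c02) :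
    z0 - z1 + z2 - z3 = 0 := by
  have : z0 + z2 = z3 + z1 := by
    apply h.cancel (s := c03)
    rw [h.add, h.add, mul_assoc, mul_assoc, ← e2, ← e1, ← h.left_comm, ← e0, ← mul_assoc (J z3),
      ← e3, mul_assoc]
  linear_combination this

lemma grp4 {x0 x1 x2 : S} {w0 w1 w2 z : ZMod p}
    (e : J w2 * x2 * (J w0 * x0) = J z * (J w1 * x1)) (e' : x2 * x0 = x1) :
    z = w0 - w1 + w2 := by
  rw [mul_assoc, h.left_comm, e', ← mul_assoc, ← mul_assoc, ← h.add, ← h.add] at e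
  linear_combination -(h.cancel e)

lemma grp5 {x0 x1 x2 : S} {a0 a1 a2 z : ZMod p} (e : x2 * x0 = J z * x1) (ha : a2 + a0 + z = a1) :
    J a2 * x2 * (J a0 * x0) = J a1 * x1 := by
  rw [mul_assoc, h.left_comm, e, ← ha, h.add, h.add]
  simp only [mul_assoc]

lemma grp6 {a0 a1 f c : S} {r w t0 t1 : ZMod p} (e : c = J w * (a1 * f * a0⁻¹))
    (hr : r + w + t0 = t1) : J r * c * (J t0 * a0) = J t1 * a1 * f := by
  have h1 : J t1 = J t0 * (J r * J w) := by rw [← hr, add_comm, h.add, h.add]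
  rw [e, h1, h.left_comm]
  simp only [mul_assoc, inv_mul_cancel, mul_one]

end CentralExt

section Step

variable {S S' : Type} [Group S] [Group S'] {q : S →* S'} {J : ZMod p → S}

theorem FF_step (h : CentralExt q J) (hi : ∀ n, IsIso ((Hn (ZMod p) n).map i)) (ih : FF i S') :
    FF i S := by
  intro g₁ g₂ a ha
  have ha' : IsGauge (i ≫ (g₁ ≫ BMap q)) (fun x => q (a x)) (i ≫ (g₂ ≫ BMap q)) := fun e => by
    have := congrArg q (ha e)
    rw [map_mul, map_mul] at this
    exact this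
  obtain ⟨b', ⟨hb', hb'i⟩, huniq⟩ := ih _ _ _ ha'
  choose b₀ hb₀ using fun x => h.surj (b' x)
  have hv : ∀ e : B _⦋1⦌, ∃ v : ZMod p,
      ev g₁ e * b₀ (B.δ 0 e) = J v * (b₀ (B.δ 1 e) * ev g₂ e) := fun e => h.exists_eq (by
    rw [map_mul, map_mul, hb₀, hb₀]
    exact hb' e)
  choose v hv using hv
  have hvc : ∀ s : B _⦋2⦌, v (B.δ 2 s) + v (B.δ 0 s) = v (B.δ 1 s) := by
    intro s
    have e1 := hv (B.δ 2 s)
    have e2 := hv (B.δ 0 s)
    have e3 := hv (B.δ 1 s)
    have c1 := ev_cocycle g₁ s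
    have c2 := ev_cocycle g₂ s
    rw [face_v0, face_v1] at e1
    rw [face_v2] at e2
    exact h.grp1 e1 e2 e3 c1 c2
  have ht : ∀ x : A _⦋0⦌, ∃ t : ZMod p, b₀ (i.app _ x) = J t * a x := fun x => h.exists_eq (by
    rw [hb₀, hb'i])
  choose t ht using ht
  have hvt : ∀ e : A _⦋1⦌, v (i.app _ e) = t (A.δ 0 e) - t (A.δ 1 e) := by
    intro e
    have e1 := hv (i.app _ e)
    rw [← app_delta, ← app_delta] at e1
    exact h.grp2 e1 (ha e) (ht _) (ht _)
  have hi0 := hi 0
  have hi1 := hi 1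
  obtain ⟨t', ht'⟩ := H1i i (inferInstance : Epi ((Hn (ZMod p) 1).map i)) v hvc t hvt
  obtain ⟨r', hr', hr'i⟩ := H0s i (inferInstance : Mono ((Hn (ZMod p) 0).map i))
    (fun x => t x - t' (i.app _ x)) (fun e => by
      have e1 := hvt e
      have e2 := ht' (i.app _ e)
      rw [← app_delta, ← app_delta] at e2
      linear_combination e2 - e1)
  have hex : ∃ b : B _⦋0⦌ → S, IsGauge g₁ b g₂ ∧ ∀ x, b (i.app _ x) = a x := by
    refine ⟨fun x => J (-t' x - r' x) * b₀ x, fun e => ?_, fun x => ?_⟩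
    · have e1 := hv e
      rw [h.left_comm, e1, ← mul_assoc, ← h.add, ← mul_assoc]
      congr 3
      rw [ht' e, hr' e]
      ring
    · change J (-t' (i.app _ x) - r' (i.app _ x)) * b₀ (i.app _ x) = a x
      rw [ht, ← mul_assoc, ← h.add, hr'i]
      have : -t' (i.app _ x) - (t x - t' (i.app _ x)) + t x = 0 := by ring
      rw [this, h.zero, one_mul]
  obtain ⟨b, hb1, hb2⟩ := hex
  refine ⟨b, ⟨hb1, hb2⟩, fun y hy => ?_⟩
  have hq : ∀ c : B _⦋0⦌ → S, IsGauge g₁ c g₂ → (∀ x, c (i.app _ x) = a x) →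
      (fun x => q (c x)) = b' := by
    intro c hc1 hc2
    apply huniq
    refine ⟨fun e => ?_, fun x => congrArg q (hc2 x)⟩
    have := congrArg q (hc1 e)
    rw [map_mul, map_mul] at this
    exact this
  have hyb : ∀ x, ∃ u : ZMod p, y x = J u * b x := fun x => h.exists_eq
    (congrFun ((hq y hy.1 hy.2).trans (hq b hb1 hb2).symm) x)
  choose u hu using hyb
  have hu0 : ∀ x, u x = 0 := by
    refine H0i i (inferInstance : Epi ((Hn (ZMod p) 0).map i)) u (fun e => ?_) (fun x => ?_)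
    · have e1 := hy.1 e
      have e2 := hb1 e
      rw [hu, hu, h.left_comm, mul_assoc (J (u (B.δ 1 e))), ← e2] at e1
      exact h.cancel e1
    · have e1 := hu (i.app _ x)
      rw [hy.2, hb2] at e1
      have e2 : J 0 * a x = J (u (i.app _ x)) * a x := by
        rw [h.zero, one_mul]
        exact e1
      exact (h.cancel e2).symm
  funext x
  rw [hu, hu0, h.zero, one_mul]

theorem ES_step (h : CentralExt q J) (hi : ∀ n, IsIso ((Hn (ZMod p) n).map i)) (ih : ES i S') :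
    ES i S := by
  intro f
  obtain ⟨g', a', ha'⟩ := ih (f ≫ BMap q)
  choose a ha using fun x => h.surj (a' x)
  -- replace `f` by a gauge equivalent map
  let u₁ : A _⦋1⦌ → S := fun e => a (A.δ 1 e) * ev f e * (a (A.δ 0 e))⁻¹
  have hu₁ : ∀ s : A _⦋2⦌, u₁ (A.δ 2 s) * u₁ (A.δ 0 s) = u₁ (A.δ 1 s) := by
    intro s
    simp only [u₁]
    rw [face_v0, face_v1, face_v2, ← ev_cocycle f s]
    group
  have hg' : ∀ e : A _⦋1⦌, ev g' (i.app _ e) = q (u₁ e) := by
    intro e
    have e1 : ev g' (i.app _ e) * a' (A.δ 0 e) = a' (A.δ 1 e) * q (ev f e) := ha' e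
    simp only [u₁]
    rw [map_mul, map_mul, map_inv, ha, ha, ← e1, mul_inv_cancel_right]
  choose c hc using fun e : B _⦋1⦌ => h.surj (ev g' e)
  have hz : ∀ s : B _⦋2⦌, ∃ z : ZMod p, c (B.δ 2 s) * c (B.δ 0 s) = J z * c (B.δ 1 s) :=
    fun s => h.exists_eq (by rw [map_mul, hc, hc, hc]; exact ev_cocycle g' s)
  choose z hz using hz
  have hzc : ∀ s : B _⦋3⦌, z (B.δ 0 s) - z (B.δ 1 s) + z (B.δ 2 s) - z (B.δ 3 s) = 0 := by
    intro s
    have e0 := hz (B.δ 0 s)
    have e1 := hz (B.δ 1 s)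
    have e2 := hz (B.δ 2 s)
    have e3 := hz (B.δ 3 s)
    rw [face_12, face_23, face_13] at e0
    rw [face_02, face_03] at e1
    rw [face_01] at e2
    exact h.grp3 e0 e1 e2 e3
  have hw : ∀ e : A _⦋1⦌, ∃ w : ZMod p, c (i.app _ e) = J w * u₁ e :=
    fun e => h.exists_eq (by rw [hc, hg'])
  choose w hw using hw
  have hzw : ∀ s : A _⦋2⦌, z (i.app _ s) = w (A.δ 0 s) - w (A.δ 1 s) + w (A.δ 2 s) := by
    intro s
    have e := hz (i.app _ s)
    rw [← app_delta, ← app_delta, ← app_delta, hw, hw, hw] at e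
    exact h.grp4 e (hu₁ s)
  have hi1 := hi 1
  have hi2 := hi 2
  obtain ⟨w', hw'⟩ := H2i i (inferInstance : Epi ((Hn (ZMod p) 2).map i)) z hzc w hzw
  obtain ⟨v', hv', t, ht⟩ := H1s i (inferInstance : Mono ((Hn (ZMod p) 1).map i))
    (fun e => w e - w' (i.app _ e)) (fun s => by
      have e1 := hzw s
      have e2 := hw' (i.app _ s)
      rw [← app_delta, ← app_delta, ← app_delta] at e2
      linear_combination e2 - e1)
  let u : B _⦋1⦌ → S := fun e => J (-w' e - v' e) * c e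
  have hu : ∀ s : B _⦋2⦌, u (B.δ 2 s) * u (B.δ 0 s) = u (B.δ 1 s) := by
    intro s
    refine h.grp5 (hz s) ?_
    rw [hw' s, ← hv' s]
    ring
  refine ⟨ofEdges u hu, fun x => J (t x) * a x, fun e => ?_⟩
  change ev (ofEdges u hu) (i.app _ e) * _ = _
  rw [ev_ofEdges]
  refine h.grp6 (hw e) ?_
  rw [ht e]
  ring

end Step


section Induction

lemma ES_triv (S : Type) [Group S] [Subsingleton S] : ES i S := fun _ =>
  ⟨ofEdges (fun _ => 1) (fun _ => Subsingleton.elim _ _), fun _ => 1, fun _ => Subsingleton.elim _ _⟩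

lemma FF_triv (S : Type) [Group S] [Subsingleton S] : FF i S := fun _ _ _ _ =>
  ⟨fun _ => 1, ⟨fun _ => Subsingleton.elim _ _, fun _ => Subsingleton.elim _ _⟩,
    fun _ _ => funext fun _ => Subsingleton.elim _ _⟩

variable (p) in
/-- A nontrivial finite `p`-group is a central extension of a smaller `p`-group. -/
lemma exists_centralExt (S : Type) [Group S] [Finite S] [Nontrivial S] (hS : IsPGroup p S) :
    ∃ (S' : Type) (_ : Group S') (_ : Finite S') (q : S →* S') (J : ZMod p → S),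
      IsPGroup p S' ∧ Nat.card S' < Nat.card S ∧ CentralExt q J := by
  have hp : p.Prime := Fact.out
  have hc : Nontrivial (Subgroup.center S) := hS.center_nontrivial
  have hdvd : p ∣ Nat.card (Subgroup.center S) := by
    obtain ⟨n, hn⟩ := (IsPGroup.iff_card (p := p)).1 (hS.to_subgroup (Subgroup.center S))
    have h1 : 1 < Nat.card (Subgroup.center S) := Finite.one_lt_card
    rw [hn] at h1 ⊢
    exact dvd_pow_self p (by rintro rfl; simp at h1)
  obtain ⟨z, hz⟩ := exists_prime_orderOf_dvd_card' (G := Subgroup.center S) p hdvd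
  have hzo : orderOf (z : S) = p := by rw [Subgroup.orderOf_coe, hz]
  have hzc : ∀ s : S, (z : S) * s = s * z := fun s => (Subgroup.mem_center_iff.1 z.2 s).symm
  let Z : Subgroup S := Subgroup.zpowers (z : S)
  have hpc : ∀ (n : ℕ) (s : S), (z : S) ^ n * s = s * (z : S) ^ n := fun n s =>
    ((Commute.pow_left (show Commute (z : S) s from hzc s) n))
  have hZn : Z.Normal := by
    refine ⟨fun n hn g => ?_⟩
    have : n ∈ Subgroup.center S := (Subgroup.zpowers_le.2 z.2) hn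
    rw [Subgroup.mem_center_iff.1 this g, mul_inv_cancel_right]
    exact hn
  have hmem : ∀ n : ℕ, (z : S) ^ n ∈ Z := fun n => Subgroup.pow_mem _ (Subgroup.mem_zpowers _) n
  refine ⟨S ⧸ Z, inferInstance, inferInstance, QuotientGroup.mk' Z, fun n => (z : S) ^ n.val,
    hS.to_quotient Z, ?_, ?_⟩
  · have h1 : Nat.card S = Nat.card (S ⧸ Z) * Nat.card Z :=
      Subgroup.card_eq_card_quotient_mul_card_subgroup _
    rw [Nat.card_zpowers, hzo] at h1
    rw [h1]
    exact lt_mul_of_one_lt_right Nat.card_pos hp.one_lt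
  · have hp0 : NeZero p := ⟨hp.ne_zero⟩
    refine ⟨QuotientGroup.mk'_surjective Z, fun a b => ?_, fun a s => hpc _ s, fun s hs => ?_,
      fun a => ?_, fun a b hab => ?_⟩
    · change (z : S) ^ (a + b).val = (z : S) ^ a.val * (z : S) ^ b.val
      have hm := pow_mod_orderOf (z : S) (a.val + b.val)
      rw [hzo] at hm
      rw [ZMod.val_add, ← pow_add, hm]
    · have h1 : s ∈ Z := (QuotientGroup.eq_one_iff s).1 hs
      classical
      rw [mem_zpowers_iff_mem_range_orderOf] at h1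
      obtain ⟨n, hn, rfl⟩ := Finset.mem_image.1 h1
      refine ⟨(n : ZMod p), ?_⟩
      change (z : S) ^ ((n : ZMod p).val) = (z : S) ^ n
      rw [hzo, Finset.mem_range] at hn
      rw [ZMod.val_natCast, Nat.mod_eq_of_lt hn]
    · exact (QuotientGroup.eq_one_iff _).2 (hmem _)
    · have := pow_injOn_Iio_orderOf (x := (z : S)) (by rw [hzo]; exact ZMod.val_lt a)
        (by rw [hzo]; exact ZMod.val_lt b) hab
      exact ZMod.val_injective p this

theorem local_of_pgroup (hi : ∀ n, IsIso ((Hn (ZMod p) n).map i)) (n : ℕ) :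
    ∀ (S : Type) [Group S] [Finite S], IsPGroup p S → Nat.card S = n → ES i S ∧ FF i S := by
  induction n using Nat.strong_induction_on with
  | _ n ih =>
    intro S _ _ hS hn
    rcases subsingleton_or_nontrivial S with h | h
    · exact ⟨ES_triv i S, FF_triv i S⟩
    · obtain ⟨S', _, _, q, J, hS', hlt, hq⟩ := exists_centralExt p S hS
      obtain ⟨h1, h2⟩ := ih (Nat.card S') (hn ▸ hlt) S' hS' rfl
      exact ⟨ES_step i hq hi h1, FF_step i hq hi h2⟩

/-- Maps to the classifying space of a finite `p`-group are determined, up to homotopy, by their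
restriction along a mod `p` homology isomorphism, and all maps extend. -/
theorem bijective_of_pgroup (hi : ∀ n, IsIso ((Hn (ZMod p) n).map i)) (S : Type) [Group S]
    [Finite S] (hS : IsPGroup p S) :
    (∀ f : A ⟶ BG S, ∃ g : B ⟶ BG S, Nonempty (SSet.Homotopy (i ≫ g) f)) ∧
    (∀ g₁ g₂ : B ⟶ BG S, Nonempty (SSet.Homotopy (i ≫ g₁) (i ≫ g₂)) →
      Nonempty (SSet.Homotopy g₁ g₂)) := by
  obtain ⟨h1, h2⟩ := local_of_pgroup i hi _ S hS rfl
  refine ⟨fun f => ?_, fun g₁ g₂ ⟨H⟩ => ?_⟩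
  · obtain ⟨g, a, ha⟩ := h1 f
    exact ⟨g, ⟨ha.homotopy⟩⟩
  · obtain ⟨a, ha⟩ := exists_gauge H
    obtain ⟨b, ⟨hb, _⟩, _⟩ := h2 g₁ g₂ a ha
    exact ⟨hb.homotopy⟩

end Induction

end Pool.Agent.W628
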