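import Mathlib
import Pool.Agent.W628.Kill

/-!
# Comparison with the homology of simplicial sets in Mathlib, and maps between classifying spaces
-/

set_option backward.isDefEq.respectTransparency false
set_option backward.defeqAttrib.useBackward true

open CategoryTheory Opposite Simplicial MonoidalCategory Limits AlgebraicTopology

namespace Pool.Agent.W628

variable (k : Type) [Field k]

/-- The inclusion of a summand. -/
noncomputable def sgl {X : Type} (x : X) : ModuleCat.of k k ⟶ (ModuleCat.free k).obj X :=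
  ModuleCat.ofHom (Finsupp.lsingle x)

/-- The map from the coproduct. -/
noncomputable def sigmaHom (X : Type) : (∐ fun _ : X => ModuleCat.of k k) ⟶ (ModuleCat.free k).obj X :=
  Limits.Sigma.desc (fun x => sgl k x)

/-- The map to the coproduct. -/
noncomputable def sigmaInv (X : Type) : (ModuleCat.free k).obj X ⟶ (∐ fun _ : X => ModuleCat.of k k) :=
  ModuleCat.freeDesc (↾ fun x => (Limits.Sigma.ι (fun _ : X => ModuleCat.of k k) x) (1 : k))

lemma sigmaHom_inv (X : Type) : sigmaHom k X ≫ sigmaInv k X = 𝟙 _ := by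
  apply Limits.Sigma.hom_ext
  intro x
  rw [sigmaHom, Limits.Sigma.ι_desc_assoc, Category.comp_id]
  ext
  exact ModuleCat.freeDesc_apply _ x

lemma sigmaInv_hom (X : Type) : sigmaInv k X ≫ sigmaHom k X = 𝟙 _ := by
  apply ModuleCat.free_hom_ext
  intro x
  change (sigmaHom k X) ((sigmaInv k X) (ModuleCat.freeMk x)) = ModuleCat.freeMk x
  rw [sigmaInv, ModuleCat.freeDesc_apply]
  change (Limits.Sigma.ι (fun _ : X => ModuleCat.of k k) x ≫ sigmaHom k X) (1 : k) = ModuleCat.freeMk x
  rw [sigmaHom, Limits.Sigma.ι_desc]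
  rfl

/-- The coproduct of copies of the field is the free module. -/
noncomputable def sigmaIso : sigmaConst.obj (ModuleCat.of k k) ≅ ModuleCat.free k :=
  NatIso.ofComponents (fun X => ⟨sigmaHom k X, sigmaInv k X, sigmaHom_inv k X, sigmaInv_hom k X⟩) (by
    intro X Y f
    apply Limits.Sigma.hom_ext
    intro x
    change Limits.Sigma.ι _ x ≫ Limits.Sigma.map' (g := fun _ => ModuleCat.of k k) f (fun _ => 𝟙 _) ≫ sigmaHom k Y =
      Limits.Sigma.ι (fun _ : X => ModuleCat.of k k) x ≫ sigmaHom k X ≫ (ModuleCat.free k).map f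
    rw [Limits.Sigma.ι_comp_map'_assoc, sigmaHom, Limits.Sigma.ι_desc, sigmaHom,
      Limits.Sigma.ι_desc_assoc, Category.id_comp]
    ext
    exact (ModuleCat.free_map_apply f x).symm)

/-- The homology functor of simplicial sets in Mathlib agrees with the functor used here. -/
noncomputable def homIso (n : ℕ) :
    SSet.homologyFunctor.{0} (C := ModuleCat.{0} k) (ModuleCat.of k k) n ≅ Hn k n :=
  Functor.isoWhiskerRight
    (Functor.isoWhiskerRight ((SimplicialObject.whiskering (Type) (ModuleCat.{0} k)).mapIso (sigmaIso k))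
      (alternatingFaceMapComplex (ModuleCat.{0} k)))
    (HomologicalComplex.homologyFunctor _ _ n)

lemma isIso_homologyMap_iff {X Y : SSet.{0}} (g : X ⟶ Y) (n : ℕ) :
    IsIso (SSet.homologyMap g (ModuleCat.of k k) n) ↔ IsIso ((Hn k n).map g) :=
  NatIso.isIso_map_iff (homIso k n) g

end Pool.Agent.W628
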