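import Mathlib
import Pool.Agent.W628.Local
import Pool.Agent.W628.Kan
import Pool.Agent.W628.Transfer

/-!
# Spaces that are local with respect to homology with coefficients in a prime field
-/

set_option backward.isDefEq.respectTransparency false
set_option backward.defeqAttrib.useBackward true

open CategoryTheory Opposite Simplicial Limits

namespace Pool.Agent.W628

/-- A simplicial set `Y` is `p`-local (local with respect to homology with coefficients in the
field with `p` elements, in the sense of Bousfield) if it is a Kan complex and every map of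
simplicial sets `i : A ⟶ B` that is an isomorphism on homology with coefficients in the field with
`p` elements induces a bijection from homotopy classes of maps `B ⟶ Y` to homotopy classes of maps
`A ⟶ Y`. -/
def PLocal (p : ℕ) (Y : SSet.{0}) : Prop :=
  SSet.KanComplex Y ∧ ∀ (A B : SSet.{0}) (i : A ⟶ B),
    (∀ n, IsIso (SSet.homologyMap i (ModuleCat.of (ZMod p) (ZMod p)) n)) →
      (∀ f : A ⟶ Y, ∃ g : B ⟶ Y, Nonempty (SSet.Homotopy (i ≫ g) f)) ∧
      (∀ g₁ g₂ : B ⟶ Y, Nonempty (SSet.Homotopy (i ≫ g₁) (i ≫ g₂)) →
        Nonempty (SSet.Homotopy g₁ g₂))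

/-- The classifying space of a finite `p`-group is `p`-local. -/
theorem pLocal_BG (p : ℕ) [Fact p.Prime] (S : Type) [Group S] [Finite S] (hS : IsPGroup p S) :
    PLocal p (BG S) :=
  ⟨kan_BG S, fun _ _ i hi => bijective_of_pgroup i
    (fun n => (isIso_homologyMap_iff (ZMod p) i n).1 (hi n)) S hS⟩

end Pool.Agent.W628
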